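import Pool.Agent.MP_75da70_an.H8.GDefs

/-
Generic relative homological algebra, first half.
-/

namespace Pool.Agent.MP_75da70_an.H8

section Generic

variable {ι : Type} [NormedAddCommGroup ι] [NormedSpace ℂ ι] {T : Thy ι}

theorem Mr.comp {X Y Z : Obj T} {g : Y.carrier →L[ℂ] Z.carrier} {f : X.carrier →L[ℂ] Y.carrier}
    (hg : Mr Y Z g) (hf : Mr X Y f) : Mr X Z (g.comp f) := fun i x => by
  rw [ContinuousLinearMap.comp_apply, hf, hg]; rfl

theorem Mr.id (X : Obj T) : Mr X X (ContinuousLinearMap.id ℂ _) := fun _ _ => rfl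

theorem Mr.zero (X Y : Obj T) : Mr X Y 0 := fun _ _ => by simp

theorem Mr.add {X Y : Obj T} {f g : X.carrier →L[ℂ] Y.carrier} (hf : Mr X Y f) (hg : Mr X Y g) :
    Mr X Y (f + g) := fun i x => by
  simp only [add_apply, map_add, hf i x, hg i x]

theorem Mr.sub {X Y : Obj T} {f g : X.carrier →L[ℂ] Y.carrier} (hf : Mr X Y f) (hg : Mr X Y g) :
    Mr X Y (f - g) := fun i x => by
  simp only [sub_apply, map_sub, hf i x, hg i x]

theorem Mr.neg {X Y : Obj T} {f : X.carrier →L[ℂ] Y.carrier} (hf : Mr X Y f) :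
    Mr X Y (-f) := fun i x => by
  simp only [neg_apply, map_neg, hf i x]

theorem Mr.fst (X Y : Obj T) : Mr (X.prod Y) X (ContinuousLinearMap.fst ℂ _ _) := fun _ _ => rfl

theorem Mr.snd (X Y : Obj T) : Mr (X.prod Y) Y (ContinuousLinearMap.snd ℂ _ _) := fun _ _ => rfl

theorem Mr.pair {X Y Z : Obj T} {f : X.carrier →L[ℂ] Y.carrier} {g : X.carrier →L[ℂ] Z.carrier}
    (hf : Mr X Y f) (hg : Mr X Z g) : Mr X (Y.prod Z) (f.prod g) := fun i x =>
  Prod.ext (hf i x) (hg i x)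

theorem Mr.inl (X Y : Obj T) : Mr X (X.prod Y) (ContinuousLinearMap.inl ℂ _ _) := fun i _ =>
  Prod.ext rfl (map_zero (Y.op i)).symm

theorem Mr.inr (X Y : Obj T) : Mr Y (X.prod Y) (ContinuousLinearMap.inr ℂ _ _) := fun i _ =>
  Prod.ext (map_zero (X.op i)).symm rfl

theorem Mr.subtype {Q M : Obj T} {σ : Q.carrier →L[ℂ] M.carrier} (hσ : Mr Q M σ) :
    Mr (Q.ker M σ hσ) Q σ.ker.subtypeL := fun _ _ => rfl

/-- a map is a morphism if it is one after an injective morphism. -/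
theorem Mr.of_inj {X Y Z : Obj T} {f : X.carrier →L[ℂ] Y.carrier} {j : Y.carrier →L[ℂ] Z.carrier}
    (hj : Mr Y Z j) (hi : Function.Injective j) (h : Mr X Z (j.comp f)) : Mr X Y f := fun i x =>
  hi (by rw [hj]; exact h i x)

/-- a map is a morphism if it is one before a surjective morphism. -/
theorem Mr.of_surj {X Y Z : Obj T} {σ : X.carrier →L[ℂ] Y.carrier} {f : Y.carrier →L[ℂ] Z.carrier}
    (hσ : Mr X Y σ) (hs : Function.Surjective σ) (h : Mr X Z (f.comp σ)) : Mr Y Z f := fun i y => by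
  obtain ⟨x, rfl⟩ := hs y
  rw [← hσ]
  exact h i x

theorem SES.inj {K Q M : Obj T} {j σ} (h : SES K Q M j σ) : Function.Injective j := by
  obtain ⟨ρ, s, h1, -, -⟩ := h.split
  exact Function.LeftInverse.injective h1

theorem SES.surj {K Q M : Obj T} {j σ} (h : SES K Q M j σ) : Function.Surjective σ := by
  obtain ⟨ρ, s, -, h2, -⟩ := h.split
  exact fun m => ⟨s m, h2 m⟩

theorem SES.sec {K Q M : Obj T} {j σ} (h : SES K Q M j σ) :
    ∃ τ : M.carrier →L[ℂ] Q.carrier, ∀ x, σ (τ x) = x := by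
  obtain ⟨ρ, s, -, h2, -⟩ := h.split
  exact ⟨s, h2⟩

theorem SES.zero {K Q M : Obj T} {j σ} (h : SES K Q M j σ) (k : K.carrier) : σ (j k) = 0 := by
  obtain ⟨ρ, s, h1, h2, h3⟩ := h.split
  have h4 := h3 (j k)
  rw [h1, add_eq_left] at h4
  rw [← h2 (σ (j k)), h4, map_zero]

/-- a morphism killed by `σ` factors through `j`. -/
theorem SES.factor {K Q M X : Obj T} {j σ} (h : SES K Q M j σ) (f : X.carrier →L[ℂ] Q.carrier)
    (hf : Mr X Q f) (h0 : ∀ x, σ (f x) = 0) :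
    ∃ g : X.carrier →L[ℂ] K.carrier, Mr X K g ∧ ∀ x, j (g x) = f x := by
  obtain ⟨ρ, s, h1, h2, h3⟩ := h.split
  have key : ∀ x, j (ρ (f x)) = f x := fun x => by
    have := h3 (f x)
    rwa [h0, map_zero, add_zero] at this
  refine ⟨ρ.comp f, Mr.of_inj h.mj h.inj fun i x => ?_, key⟩
  simp only [ContinuousLinearMap.comp_apply, key]
  exact hf i x

/-- a morphism that kills `j` factors through `σ`. -/
theorem SES.desc {K Q M X : Obj T} {j σ} (h : SES K Q M j σ) (f : Q.carrier →L[ℂ] X.carrier)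
    (hf : Mr Q X f) (h0 : ∀ k, f (j k) = 0) :
    ∃ g : M.carrier →L[ℂ] X.carrier, Mr M X g ∧ ∀ t, g (σ t) = f t := by
  obtain ⟨ρ, s, h1, h2, h3⟩ := h.split
  have key : ∀ t, f (s (σ t)) = f t := fun t => by
    conv_rhs => rw [← h3 t, map_add, h0, zero_add]
  refine ⟨f.comp s, Mr.of_surj h.mσ h.surj fun i x => ?_, key⟩
  simp only [ContinuousLinearMap.comp_apply, key, hf i x]

theorem SES.exact {K Q M : Obj T} {j σ} (h : SES K Q M j σ) (t : Q.carrier) (ht : σ t = 0) :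
    ∃ k, j k = t := by
  obtain ⟨ρ, s, h1, h2, h3⟩ := h.split
  refine ⟨ρ t, ?_⟩
  have := h3 t
  rwa [ht, map_zero, add_zero] at this

theorem SES.of_ker {Q M : Obj T} {σ : Q.carrier →L[ℂ] M.carrier} (hσ : Mr Q M σ)
    (s : M.carrier →L[ℂ] Q.carrier) (hs : ∀ m, σ (s m) = m) :
    SES (Q.ker M σ hσ) Q M σ.ker.subtypeL σ := by
  refine ⟨Mr.subtype hσ, hσ, (ContinuousLinearMap.id ℂ _ - s.comp σ).codRestrict σ.ker
    (fun t => by simp [hs]), s, fun k => Subtype.ext ?_, hs, fun t => ?_⟩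
  · have : σ k = 0 := k.2
    change (k : Q.carrier) - s (σ k) = k
    rw [this, map_zero, sub_zero]
  · change t - s (σ t) + s (σ t) = t
    rw [sub_add_cancel]

/-- a `SES` from a retraction and a section. -/
theorem SES.of_ret {K Q M : Obj T} {j : K.carrier →L[ℂ] Q.carrier}
    {σ : Q.carrier →L[ℂ] M.carrier} (hj : Mr K Q j) (hσ : Mr Q M σ)
    (ρ : Q.carrier →L[ℂ] K.carrier) (hρ : ∀ k, ρ (j k) = k) (h0 : ∀ k, σ (j k) = 0)
    (hex : ∀ t, σ t = 0 → ∃ k, j k = t)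
    (s : M.carrier →L[ℂ] Q.carrier) (hs : ∀ m, σ (s m) = m) : SES K Q M j σ := by
  refine ⟨hj, hσ, ρ.comp (ContinuousLinearMap.id ℂ _ - s.comp σ), s, fun k => ?_, hs, fun t => ?_⟩
  · change ρ (j k - s (σ (j k))) = k
    rw [h0, map_zero, sub_zero, hρ]
  · change j (ρ (t - s (σ t))) + s (σ t) = t
    obtain ⟨k, hk⟩ := hex (t - s (σ t)) (by rw [map_sub, hs, sub_self])
    rw [← hk, hρ, hk, sub_add_cancel]

/-- a convenient way to build a `SES`. -/
theorem SES.of_exact {K Q M : Obj T} {j : K.carrier →L[ℂ] Q.carrier}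
    {σ : Q.carrier →L[ℂ] M.carrier} (hj : Mr K Q j) (hσ : Mr Q M σ) (c : ℝ)
    (hc : ∀ k, ‖k‖ ≤ c * ‖j k‖) (hex : ∀ t, σ t = 0 ↔ ∃ k, j k = t)
    (s : M.carrier →L[ℂ] Q.carrier) (hs : ∀ m, σ (s m) = m) : SES K Q M j σ := by
  have hi : Function.Injective j := by
    rw [injective_iff_map_eq_zero]
    intro k hk
    have := hc k
    rw [hk, norm_zero, mul_zero] at this
    exact norm_le_zero_iff.1 this
  have hex' : ∀ t, ∃ k, j k = t - s (σ t) := fun t =>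
    (hex _).1 (by rw [map_sub, hs, sub_self])
  choose r hr using hex'
  let ρ₀ : Q.carrier →ₗ[ℂ] K.carrier :=
    { toFun := r
      map_add' := fun a b => hi (by simp only [hr, map_add]; abel)
      map_smul' := fun a b => hi (by simp only [hr, map_smul, RingHom.id_apply, smul_sub]) }
  let ρ : Q.carrier →L[ℂ] K.carrier := ρ₀.mkContinuous
    (|c| * ‖ContinuousLinearMap.id ℂ Q.carrier - s.comp σ‖) fun t => by
      change ‖r t‖ ≤ _
      refine (hc _).trans ?_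
      rw [hr, mul_assoc]
      exact mul_le_mul (le_abs_self c)
        ((ContinuousLinearMap.id ℂ Q.carrier - s.comp σ).le_opNorm t) (norm_nonneg _) (abs_nonneg c)
  refine ⟨hj, hσ, ρ, s, fun k => hi ?_, hs, fun t => ?_⟩
  · change j (r (j k)) = j k
    rw [hr, (hex (j k)).2 ⟨k, rfl⟩, map_zero, sub_zero]
  · change j (r t) + s (σ t) = t
    rw [hr, sub_add_cancel]

theorem Retr.pj {M N : Obj T} (h : Retr M N) (hN : Pj N) : Pj M := by
  obtain ⟨i, π, hi, hπ, hπi⟩ := h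
  intro Y X σ hσ hτ φ hφ
  obtain ⟨ψ, hψ, h1⟩ := hN Y X σ hσ hτ (φ.comp π) (hφ.comp hπ)
  exact ⟨ψ.comp i, hψ.comp hi, fun p => by
    rw [ContinuousLinearMap.comp_apply, h1, ContinuousLinearMap.comp_apply, hπi]⟩

theorem Pj.prod {M N : Obj T} (hM : Pj M) (hN : Pj N) : Pj (M.prod N) := by
  intro Y X σ hσ hτ φ hφ
  obtain ⟨ψ, hψ, h1⟩ := hM Y X σ hσ hτ _ (hφ.comp (Mr.inl M N))
  obtain ⟨ψ', hψ', h2⟩ := hN Y X σ hσ hτ _ (hφ.comp (Mr.inr M N))
  refine ⟨_, (hψ.comp (Mr.fst M N)).add (hψ'.comp (Mr.snd M N)), fun p => ?_⟩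
  change σ (ψ p.1 + ψ' p.2) = φ p
  rw [map_add, h1, h2]
  change φ (p.1, 0) + φ (0, p.2) = φ p
  rw [← map_add, Prod.mk_add_mk, add_zero, zero_add]

theorem Pj.of_zero {M : Obj T} (h : ∀ m : M.carrier, m = 0) : Pj M :=
  fun Y _ _ _ _ _ _ => ⟨0, Mr.zero M Y, fun p => by rw [h p]; simp⟩

theorem SES.pj_of_retraction {K P M : Obj T} {j σ} (h : SES K P M j σ) (hP : Pj P)
    (ρ : P.carrier →L[ℂ] K.carrier) (hρ : Mr P K ρ) (hρj : ∀ k, ρ (j k) = k) : Pj M := by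
  obtain ⟨g, hg, h1⟩ := h.desc _ ((Mr.id P).sub (h.mj.comp hρ)) fun k => by
    change j k - j (ρ (j k)) = 0
    rw [hρj, sub_self]
  refine Retr.pj ⟨g, σ, hg, h.mσ, fun m => ?_⟩ hP
  obtain ⟨t, rfl⟩ := h.surj m
  rw [h1]
  change σ (t - j (ρ t)) = σ t
  rw [map_sub, h.zero, sub_zero]

/-- a morphism section gives a morphism retraction. -/
theorem SES.retraction_of_section {K Q M : Obj T} {j σ} (h : SES K Q M j σ)
    (s : M.carrier →L[ℂ] Q.carrier) (hs : Mr M Q s) (hσs : ∀ m, σ (s m) = m) :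
    ∃ ρ : Q.carrier →L[ℂ] K.carrier, Mr Q K ρ ∧ ∀ k, ρ (j k) = k := by
  obtain ⟨g, hg, h1⟩ := h.factor _ ((Mr.id Q).sub (hs.comp h.mσ)) fun t => by
    change σ (t - s (σ t)) = 0
    rw [map_sub, hσs, sub_self]
  refine ⟨g, hg, fun k => h.inj ?_⟩
  rw [h1]
  change j k - s (σ (j k)) = j k
  rw [h.zero, map_zero, sub_zero]

/-- a morphism retraction gives a morphism section. -/
theorem SES.section_of_retraction {K Q M : Obj T} {j σ} (h : SES K Q M j σ)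
    (ρ : Q.carrier →L[ℂ] K.carrier) (hρ : Mr Q K ρ) (hρj : ∀ k, ρ (j k) = k) :
    ∃ s : M.carrier →L[ℂ] Q.carrier, Mr M Q s ∧ ∀ m, σ (s m) = m := by
  obtain ⟨g, hg, h1⟩ := h.desc _ ((Mr.id Q).sub (h.mj.comp hρ)) fun k => by
    change j k - j (ρ (j k)) = 0
    rw [hρj, sub_self]
  refine ⟨g, hg, fun m => ?_⟩
  obtain ⟨t, rfl⟩ := h.surj m
  rw [h1]
  change σ (t - j (ρ t)) = σ t
  rw [map_sub, h.zero, sub_zero]

theorem SES.exists_retraction {K Q M : Obj T} {j σ} (h : SES K Q M j σ) (hM : Pj M) :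
    ∃ ρ : Q.carrier →L[ℂ] K.carrier, Mr Q K ρ ∧ ∀ k, ρ (j k) = k := by
  obtain ⟨s, hs, h1⟩ := hM Q M σ h.mσ h.sec _ (Mr.id M)
  exact h.retraction_of_section s hs h1

theorem EZ.zero_of {K P M W : Obj T} {j σ} (h : SES K P M j σ) (hP : Pj P)
    (hW : ∀ φ, Mr K W φ → ∃ ψ, Mr P W ψ ∧ ∀ k, ψ (j k) = φ k) : EZ 0 M W := by
  intro K' Q j' σ' h' φ hφ
  obtain ⟨α, hα, h1⟩ := hP Q M σ' h'.mσ h'.sec σ h.mσ
  obtain ⟨β, hβ, h2⟩ := h'.factor _ (hα.comp h.mj) fun k => by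
    rw [ContinuousLinearMap.comp_apply, h1, h.zero]
  obtain ⟨ψ₀, hψ₀, h3⟩ := hW _ (hφ.comp hβ)
  obtain ⟨ρ, s, e1, e2, e3⟩ := h.split
  obtain ⟨ρ', s', e1', e2', e3'⟩ := h'.split
  let ψ : Q.carrier →L[ℂ] W.carrier := ψ₀.comp (s.comp σ') +
    φ.comp (ρ'.comp (ContinuousLinearMap.id ℂ _ - α.comp (s.comp σ')))
  have key : ∀ p k, ψ (α p + j' k) = ψ₀ p + φ k := by
    intro p k
    change ψ₀ (s (σ' (α p + j' k))) + φ (ρ' (α p + j' k - α (s (σ' (α p + j' k))))) = _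
    have e4 : s (σ p) = p - j (ρ p) := eq_sub_of_add_eq' (e3 p)
    have e5 : α (j (ρ p)) = j' (β (ρ p)) := (h2 (ρ p)).symm
    rw [map_add σ', h1, h'.zero, add_zero, e4, map_sub, map_sub α, e5, h3]
    have e6 : α p + j' k - (α p - j' (β (ρ p))) = j' (k + β (ρ p)) := by rw [map_add]; abel
    rw [e6, e1', map_add, ContinuousLinearMap.comp_apply]
    abel
  refine ⟨ψ, fun i t => ?_, fun k => ?_⟩
  · obtain ⟨k, hk⟩ := h'.exact (t - α (s (σ' t))) (by rw [map_sub, h1, e2, sub_self])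
    have e7 : t = α (s (σ' t)) + j' k := by rw [hk]; abel
    generalize s (σ' t) = p at e7
    rw [e7, map_add, ← hα, ← h'.mj, key, key, map_add, hψ₀, hφ]
  · have := key 0 k
    rwa [map_zero, map_zero, zero_add, zero_add] at this

/-- the pull-back of `σ : Q → M` and `f : N → M`. -/
@[reducible] noncomputable def pb (Q N M : Obj T) (σ : Q.carrier →L[ℂ] M.carrier)
    (f : N.carrier →L[ℂ] M.carrier) (hσ : Mr Q M σ) (hf : Mr N M f) : Obj T :=
  (Q.prod N).ker M (σ.comp (ContinuousLinearMap.fst ℂ _ _) - f.comp (ContinuousLinearMap.snd ℂ _ _))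
    ((hσ.comp (Mr.fst Q N)).sub (hf.comp (Mr.snd Q N)))

/-- the universal property of a pull-back, with its two projections. -/
theorem exists_pb (Q N M : Obj T) (σ : Q.carrier →L[ℂ] M.carrier)
    (f : N.carrier →L[ℂ] M.carrier) (hσ : Mr Q M σ) (hf : Mr N M f) :
    ∃ (B : Obj T) (p : B.carrier →L[ℂ] Q.carrier) (q : B.carrier →L[ℂ] N.carrier),
      Mr B Q p ∧ Mr B N q ∧ (∀ b, σ (p b) = f (q b)) ∧
      (∀ b, p b = 0 → q b = 0 → b = 0) ∧
      ∀ (V : Type) [NormedAddCommGroup V] [NormedSpace ℂ V] (u : V →L[ℂ] Q.carrier)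
        (v : V →L[ℂ] N.carrier), (∀ x, σ (u x) = f (v x)) →
        ∃ w : V →L[ℂ] B.carrier, (∀ x, p (w x) = u x) ∧ ∀ x, q (w x) = v x := by
  refine ⟨pb Q N M σ f hσ hf, (ContinuousLinearMap.fst ℂ _ _).comp (Submodule.subtypeL _),
    (ContinuousLinearMap.snd ℂ _ _).comp (Submodule.subtypeL _), fun _ _ => rfl, fun _ _ => rfl,
    fun b => sub_eq_zero.1 b.2, fun b h1 h2 => Subtype.ext (Prod.ext h1 h2), ?_⟩
  intro V _ _ u v huv
  exact ⟨(u.prod v).codRestrict _ fun x => sub_eq_zero.2 (huv x), fun _ => rfl, fun _ => rfl⟩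

/-- pull-back of a short exact sequence along a morphism. -/
theorem SES.pull {K Q M N : Obj T} {j σ} (h : SES K Q M j σ) (f : N.carrier →L[ℂ] M.carrier)
    (hf : Mr N M f) :
    ∃ (B : Obj T) (p : B.carrier →L[ℂ] Q.carrier) (q : B.carrier →L[ℂ] N.carrier)
      (j' : K.carrier →L[ℂ] B.carrier), Mr B Q p ∧ SES K B N j' q ∧ (∀ b, σ (p b) = f (q b)) ∧
      (∀ k, p (j' k) = j k) ∧
      (∀ (N' : Obj T) (i : N'.carrier →L[ℂ] N.carrier), SES N' N M i f →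
        ∃ i', SES N' B Q i' p ∧ ∀ n, q (i' n) = i n) ∧
      ∀ (M'' : Obj T) (g : M.carrier →L[ℂ] M''.carrier), SES N M M'' f g →
        SES B Q M'' p (g.comp σ) := by
  obtain ⟨B, p, q, hp, hq, hpq, hz, hu⟩ := exists_pb Q N M σ f h.mσ hf
  have hext : ∀ b b', p b = p b' → q b = q b' → b = b' := fun b b' h1 h2 =>
    sub_eq_zero.1 (hz _ (by rw [map_sub, h1, sub_self]) (by rw [map_sub, h2, sub_self]))
  have hmr : ∀ (X : Obj T) (w : X.carrier →L[ℂ] B.carrier), Mr X Q (p.comp w) →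
      Mr X N (q.comp w) → Mr X B w := fun X w h1 h2 i x =>
    hext _ _ (by rw [hp]; exact h1 i x) (by rw [hq]; exact h2 i x)
  obtain ⟨ρ, s, e1, e2, e3⟩ := h.split
  obtain ⟨j', a1, a2⟩ := hu _ j 0 fun k => by rw [h.zero]; simp
  obtain ⟨s', b1, b2⟩ := hu _ (s.comp f) (ContinuousLinearMap.id ℂ _) fun n => e2 (f n)
  refine ⟨B, p, q, j', hp, ?_, hpq, a1, ?_, ?_⟩
  · refine SES.of_ret (hmr K j' ?_ ?_) hq (ρ.comp p) (fun k => ?_) a2 (fun b hb => ?_) s' b2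
    · rw [show p.comp j' = j from ContinuousLinearMap.ext a1]; exact h.mj
    · rw [show q.comp j' = 0 from ContinuousLinearMap.ext a2]; exact Mr.zero _ _
    · rw [ContinuousLinearMap.comp_apply, a1, e1]
    · obtain ⟨k, hk⟩ := h.exact (p b) (by rw [hpq, hb, map_zero])
      exact ⟨k, hext _ _ (by rw [a1, hk]) (by rw [a2, hb]; rfl)⟩
  · intro N' i hi
    obtain ⟨ρ', t, f1, f2, f3⟩ := hi.split
    obtain ⟨i', c1, c2⟩ := hu _ 0 i fun n => by rw [hi.zero]; simp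
    obtain ⟨t', d1, d2⟩ := hu _ (ContinuousLinearMap.id ℂ _) (t.comp σ) fun x => (f2 (σ x)).symm
    refine ⟨i', SES.of_ret (hmr N' i' ?_ ?_) hp (ρ'.comp q) (fun k => ?_) c1 (fun b hb => ?_)
      t' d1, c2⟩
    · rw [show p.comp i' = 0 from ContinuousLinearMap.ext c1]; exact Mr.zero _ _
    · rw [show q.comp i' = i from ContinuousLinearMap.ext c2]; exact hi.mj
    · rw [ContinuousLinearMap.comp_apply, c2, f1]
    · obtain ⟨k, hk⟩ := hi.exact (q b) (by rw [← hpq, hb, map_zero])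
      exact ⟨k, hext _ _ (by rw [c1, hb]; rfl) (by rw [c2, hk])⟩
  · intro M'' g hg
    obtain ⟨ρ', t, f1, f2, f3⟩ := hg.split
    have hpi : ∀ b b', p b = p b' → b = b' := fun b b' hb =>
      hext _ _ hb (hg.inj (by rw [← hpq, ← hpq, hb]))
    obtain ⟨r, c1, c2⟩ := hu _ (ContinuousLinearMap.id ℂ _ - s.comp (t.comp (g.comp σ)))
      (ρ'.comp σ) fun x => by
        change σ (x - s (t (g (σ x)))) = f (ρ' (σ x))
        rw [map_sub, e2]
        exact (eq_sub_of_add_eq (f3 (σ x))).symm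
    refine ⟨hp, hg.mσ.comp h.mσ, r, s.comp t, fun b => hpi _ _ ?_, fun m => ?_, fun x => ?_⟩
    · rw [c1]
      change p b - s (t (g (σ (p b)))) = p b
      rw [hpq, hg.zero, map_zero, map_zero, sub_zero]
    · change g (σ (s (t m))) = m
      rw [e2, f2]
    · rw [c1]
      change x - s (t (g (σ x))) + s (t (g (σ x))) = x
      rw [sub_add_cancel]

theorem EZ.lift0 {M W' W W'' : Obj T} {j σ} (h : SES W' W W'' j σ) (hM : EZ 0 M W')
    (φ : M.carrier →L[ℂ] W''.carrier) (hφ : Mr M W'' φ) :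
    ∃ ψ, Mr M W ψ ∧ ∀ m, σ (ψ m) = φ m := by
  obtain ⟨B, p, q, j', hp, hs, hpq, -, -, -⟩ := h.pull φ hφ
  obtain ⟨ρ, hρ, h1⟩ := hM _ _ _ _ hs _ (Mr.id W')
  obtain ⟨s, hs', h2⟩ := hs.section_of_retraction ρ hρ h1
  exact ⟨p.comp s, hp.comp hs', fun m => by rw [ContinuousLinearMap.comp_apply, hpq, h2]⟩

theorem EZ.of_pj {M : Obj T} (h : Pj M) (k : ℕ) (W : Obj T) : EZ k M W := by
  induction k generalizing M with
  | zero =>
    intro K Q j σ hs φ hφ
    obtain ⟨ρ, hρ, h1⟩ := hs.exists_retraction h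
    exact ⟨φ.comp ρ, hφ.comp hρ, fun k => by rw [ContinuousLinearMap.comp_apply, h1]⟩
  | succ k ih =>
    intro K P j σ hs hP
    obtain ⟨ρ, hρ, h1⟩ := hs.exists_retraction h
    exact ih (Retr.pj ⟨j, ρ, hs.mj, hρ, h1⟩ hP)

end Generic

end Pool.Agent.MP_75da70_an.H8
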