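import Pool.Agent.MP_75da70_an.H7.Gen0

/-
Generic relative homological algebra, second half.
-/

namespace Pool.Agent.MP_75da70_an.H8

section Generic

variable {ι : Type} [NormedAddCommGroup ι] [NormedSpace ℂ ι] {T : Thy ι}

theorem SES.prod (X Y : Obj T) :
    SES X (X.prod Y) Y (ContinuousLinearMap.inl ℂ _ _) (ContinuousLinearMap.snd ℂ _ _) :=
  ⟨Mr.inl X Y, Mr.snd X Y, ContinuousLinearMap.fst ℂ _ _, ContinuousLinearMap.inr ℂ _ _,
    fun _ => rfl, fun _ => rfl, fun t => by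
      change ((t.1, 0) : X.carrier × Y.carrier) + (0, t.2) = t
      rw [Prod.mk_add_mk, add_zero, zero_add]⟩

theorem SES.retr {K Q M : Obj T} {j σ} (h : SES K Q M j σ) (hM : Pj M) : Retr K Q := by
  obtain ⟨ρ, hρ, h1⟩ := h.exists_retraction hM
  exact ⟨j, ρ, h.mj, hρ, h1⟩

theorem gen_retr_zero {M N W : Obj T} (h : Retr M N) (hN : EZ 0 N W) : EZ 0 M W := by
  obtain ⟨i, π, hi, hπ, hπi⟩ := h
  intro K Q a b hs φ hφ
  obtain ⟨B, p, q, hp, hq, hpq, hz, hu⟩ := exists_pb Q N M b π hs.mσ hπ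
  have hext : ∀ x y, p x = p y → q x = q y → x = y := fun x y h1 h2 =>
    sub_eq_zero.1 (hz _ (by rw [map_sub, h1, sub_self]) (by rw [map_sub, h2, sub_self]))
  have hmr : ∀ (X : Obj T) (w : X.carrier →L[ℂ] B.carrier), Mr X Q (p.comp w) →
      Mr X N (q.comp w) → Mr X B w := fun X w h1 h2 i x =>
    hext _ _ (by rw [hp]; exact h1 i x) (by rw [hq]; exact h2 i x)
  obtain ⟨ρ, s, e1, e2, e3⟩ := hs.split
  obtain ⟨j', a1, a2⟩ := hu _ a 0 fun k => by rw [hs.zero]; simp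
  obtain ⟨s', b1, b2⟩ := hu _ (s.comp π) (ContinuousLinearMap.id ℂ _) fun n => e2 (π n)
  obtain ⟨w, c1, c2⟩ := hu _ (ContinuousLinearMap.id ℂ _) (i.comp b) fun x => (hπi (b x)).symm
  have hB : SES K B N j' q := by
    refine SES.of_ret (hmr K j' ?_ ?_) hq (ρ.comp p) (fun k => ?_) a2 (fun x hx => ?_) s' b2
    · rw [show p.comp j' = a from ContinuousLinearMap.ext a1]; exact hs.mj
    · rw [show q.comp j' = 0 from ContinuousLinearMap.ext a2]; exact Mr.zero _ _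
    · rw [ContinuousLinearMap.comp_apply, a1, e1]
    · obtain ⟨k, hk⟩ := hs.exact (p x) (by rw [hpq, hx, map_zero])
      exact ⟨k, hext _ _ (by rw [a1, hk]) (by rw [a2, hx]; rfl)⟩
  have hw : Mr Q B w := by
    refine hmr Q w ?_ ?_
    · rw [show p.comp w = ContinuousLinearMap.id ℂ _ from ContinuousLinearMap.ext c1]
      exact Mr.id _
    · rw [show q.comp w = i.comp b from ContinuousLinearMap.ext c2]
      exact hi.comp hs.mσ
  obtain ⟨ψ, hψ, h1⟩ := hN _ _ _ _ hB φ hφ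
  refine ⟨ψ.comp w, hψ.comp hw, fun k => ?_⟩
  rw [ContinuousLinearMap.comp_apply, ← h1]
  congr 1
  refine hext _ _ (by rw [c1, a1]; rfl) ?_
  rw [c2, a2, ContinuousLinearMap.comp_apply, hs.zero, map_zero]
  rfl

theorem gen_ext_zero {M' M M'' W : Obj T} {j σ} (h : SES M' M M'' j σ)
    (h' : EZ 0 M' W) (h'' : EZ 0 M'' W) : EZ 0 M W := by
  intro K Q a b hs φ hφ
  obtain ⟨B, p, q, j', -, h1, -, h2, -, h3⟩ := hs.pull j h.mj
  obtain ⟨ψ₁, hψ₁, e1⟩ := h' _ _ _ _ h1 φ hφ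
  obtain ⟨ψ, hψ, e2⟩ := h'' _ _ _ _ (h3 _ _ h) ψ₁ hψ₁
  exact ⟨ψ, hψ, fun k => by rw [← h2, e2, e1]⟩

/-- the two statements proved together. -/
def GenRX (T : Thy ι) (k : ℕ) : Prop :=
  (∀ M N W : Obj T, Retr M N → EZ k N W → EZ k M W) ∧
    ∀ (M' M M'' W : Obj T) (j : M'.carrier →L[ℂ] M.carrier) (σ : M.carrier →L[ℂ] M''.carrier),
      SES M' M M'' j σ → EZ k M' W → EZ k M'' W → EZ k M W

theorem GenRX.succ_of {k : ℕ} (H : GenRX T k) {K P M W : Obj T} {j σ} (h : SES K P M j σ)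
    (hP : Pj P) (hK : EZ k K W) : EZ (k + 1) M W := by
  intro K' P' a b hs hP'
  obtain ⟨B, p, q, j', -, h1, -, -, h2, -⟩ := h.pull b hs.mσ
  obtain ⟨i', h3, -⟩ := h2 _ _ hs
  exact H.1 _ _ _ (h3.retr hP) (H.2 _ _ _ _ _ _ h1 hK (EZ.of_pj hP' k W))

theorem GenRX.sub (hT : Enough T) {k : ℕ} (H : GenRX T k) {M' M M'' W : Obj T} {j σ}
    (h : SES M' M M'' j σ) (hM : EZ k M W) (h'' : EZ (k + 1) M'' W) : EZ k M' W := by
  obtain ⟨K, P, a, b, hs, hP⟩ := hT M''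
  obtain ⟨B, p, q, j', -, h1, -, -, h2, -⟩ := h.pull b hs.mσ
  obtain ⟨i', h3, -⟩ := h2 _ _ hs
  exact H.1 _ _ _ (h1.retr hP) (H.2 _ _ _ _ _ _ h3 (h'' _ _ _ _ hs hP) hM)

theorem GenRX.quot (hT : Enough T) {k : ℕ} (H : GenRX T k) {M' M M'' W : Obj T} {j σ}
    (h : SES M' M M'' j σ) (h' : EZ k M' W) (hM : EZ (k + 1) M W) : EZ (k + 1) M'' W := by
  intro K P a b hs hP
  obtain ⟨B, p, q, j', -, h1, -, -, h2, -⟩ := h.pull b hs.mσ
  obtain ⟨i', h3, -⟩ := h2 _ _ hs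
  exact H.sub hT h3 (H.2 _ _ _ _ _ _ h1 h' (EZ.of_pj hP k W)) hM

theorem genRX (hT : Enough T) (k : ℕ) : GenRX T k := by
  induction k with
  | zero =>
    exact ⟨fun _ _ _ h hN => gen_retr_zero h hN, fun _ _ _ _ _ _ h h' h'' => gen_ext_zero h h' h''⟩
  | succ k H =>
    constructor
    · rintro M N W ⟨i, π, hi, hπ, hπi⟩ hN K P a b hs hP
      obtain ⟨K₂, P₂, a₂, b₂, hs₂, hP₂⟩ := hT N
      obtain ⟨i₀, hi₀, e1⟩ := hP P₂ N b₂ hs₂.mσ hs₂.sec _ (hi.comp hs.mσ)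
      obtain ⟨π₀, hπ₀, e2⟩ := hP₂ P M b hs.mσ hs.sec _ (hπ.comp hs₂.mσ)
      obtain ⟨i₁, hi₁, e3⟩ := hs₂.factor _ (hi₀.comp hs.mj) fun x => by
        rw [ContinuousLinearMap.comp_apply, e1, ContinuousLinearMap.comp_apply, hs.zero, map_zero]
      obtain ⟨π₁, hπ₁, e4⟩ := hs.factor _ (hπ₀.comp hs₂.mj) fun x => by
        rw [ContinuousLinearMap.comp_apply, e2, ContinuousLinearMap.comp_apply, hs₂.zero, map_zero]
      obtain ⟨g, hg, e5⟩ := hs.factor _ ((hπ₀.comp hi₀).sub (Mr.id P)) fun x => by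
        change b (π₀ (i₀ x) - x) = 0
        rw [map_sub, e2, ContinuousLinearMap.comp_apply, e1, ContinuousLinearMap.comp_apply, hπi,
          sub_self]
      refine H.1 K (K₂.prod P) W ⟨_, _, hi₁.pair hs.mj,
        (hπ₁.comp (Mr.fst K₂ P)).sub (hg.comp (Mr.snd K₂ P)), fun x => hs.inj ?_⟩
        (H.2 _ _ _ _ _ _ (SES.prod K₂ P) (hN _ _ _ _ hs₂ hP₂) (EZ.of_pj hP k W))
      change a (π₁ (i₁ x) - g (a x)) = a x
      rw [map_sub, e4, e5, ContinuousLinearMap.comp_apply, e3]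
      change π₀ (i₀ (a x)) - (π₀ (i₀ (a x)) - a x) = a x
      rw [sub_sub_cancel]
    · intro M' M M'' W j σ h h' h'' K P a b hs hP
      obtain ⟨B, p, q, j', -, h1, -, -, -, h3⟩ := hs.pull j h.mj
      exact H.sub hT h1 (h'' _ _ _ _ (h3 _ _ h) hP) h'

theorem EZ.retr (hT : Enough T) {k : ℕ} {M N W : Obj T} (h : Retr M N) (hN : EZ k N W) :
    EZ k M W := (genRX hT k).1 _ _ _ h hN

theorem EZ.ext (hT : Enough T) {k : ℕ} {M' M M'' W : Obj T} {j σ} (h : SES M' M M'' j σ)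
    (h' : EZ k M' W) (h'' : EZ k M'' W) : EZ k M W := (genRX hT k).2 _ _ _ _ _ _ h h' h''

theorem EZ.sub (hT : Enough T) {k : ℕ} {M' M M'' W : Obj T} {j σ} (h : SES M' M M'' j σ)
    (hM : EZ k M W) (h'' : EZ (k + 1) M'' W) : EZ k M' W := (genRX hT k).sub hT h hM h''

theorem EZ.quot (hT : Enough T) {k : ℕ} {M' M M'' W : Obj T} {j σ} (h : SES M' M M'' j σ)
    (h' : EZ k M' W) (hM : EZ (k + 1) M W) : EZ (k + 1) M'' W := (genRX hT k).quot hT h h' hM

theorem EZ.succ_of (hT : Enough T) {k : ℕ} {K P M W : Obj T} {j σ} (h : SES K P M j σ)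
    (hP : Pj P) (hK : EZ k K W) : EZ (k + 1) M W := (genRX hT k).succ_of h hP hK

theorem EZ.shift_sub (hT : Enough T) {k : ℕ} {M W' W W'' : Obj T} {j σ} (h : SES W' W W'' j σ)
    (h'' : EZ k M W'') (hW : EZ (k + 1) M W) : EZ (k + 1) M W' := by
  induction k generalizing M with
  | zero =>
    intro K P a b hs hP
    obtain ⟨K₁, P₁, a₁, b₁, hs₁, hP₁⟩ := hT K
    refine EZ.zero_of hs₁ hP₁ fun φ hφ => ?_
    obtain ⟨ψ, hψ, e1⟩ := hW _ _ _ _ hs hP _ _ _ _ hs₁ _ (h.mj.comp hφ)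
    obtain ⟨g, hg, e2⟩ := hs₁.desc _ (h.mσ.comp hψ) fun x => by
      rw [ContinuousLinearMap.comp_apply, e1, ContinuousLinearMap.comp_apply, h.zero]
    obtain ⟨g', hg', e3⟩ := h'' _ _ _ _ hs g hg
    obtain ⟨g'', hg'', e4⟩ := hP W W'' σ h.mσ h.sec g' hg'
    obtain ⟨χ, hχ, e5⟩ := h.factor _ (hψ.sub (hg''.comp (hs.mj.comp hs₁.mσ))) fun x => by
      change σ (ψ x - g'' (a (b₁ x))) = 0
      rw [map_sub, e4, e3, e2, ContinuousLinearMap.comp_apply, sub_self]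
    refine ⟨χ, hχ, fun x => h.inj ?_⟩
    rw [e5]
    change ψ (a₁ x) - g'' (a (b₁ (a₁ x))) = j (φ x)
    rw [hs₁.zero, map_zero, map_zero, sub_zero, e1, ContinuousLinearMap.comp_apply]
  | succ k ih =>
    intro K P a b hs hP
    exact ih (h'' _ _ _ _ hs hP) (hW _ _ _ _ hs hP)

theorem EZ.shift_quot (hT : Enough T) {k : ℕ} {M W' W W'' : Obj T} {j σ} (h : SES W' W W'' j σ)
    (hW : EZ k M W) (h' : EZ (k + 1) M W') : EZ k M W'' := by
  induction k generalizing M with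
  | zero =>
    obtain ⟨K, P, a, b, hs, hP⟩ := hT M
    refine EZ.zero_of hs hP fun φ hφ => ?_
    obtain ⟨ψ, hψ, e1⟩ := EZ.lift0 h (h' _ _ _ _ hs hP) φ hφ
    obtain ⟨χ, hχ, e2⟩ := hW _ _ _ _ hs ψ hψ
    exact ⟨σ.comp χ, h.mσ.comp hχ, fun x => by rw [ContinuousLinearMap.comp_apply, e2, e1]⟩
  | succ k ih =>
    intro K P a b hs hP
    exact ih (hW _ _ _ _ hs hP) (h' _ _ _ _ hs hP)

theorem PD.zero_iff (hT : Enough T) {M : Obj T} : PD 0 M ↔ Pj M := by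
  refine ⟨fun h => ?_, fun h W => EZ.of_pj h 0 W⟩
  obtain ⟨K, P, a, b, hs, hP⟩ := hT M
  obtain ⟨ρ, hρ, e⟩ := h K _ _ _ _ hs _ (Mr.id K)
  exact hs.pj_of_retraction hP ρ hρ e

theorem PD.succ (hT : Enough T) {n : ℕ} {M : Obj T} (h : PD n M) : PD (n + 1) M := by
  induction n generalizing M with
  | zero => exact fun W => EZ.of_pj ((PD.zero_iff hT).1 h) 1 W
  | succ n ih =>
    intro W K P a b hs hP
    exact ih (fun W' => h W' _ _ _ _ hs hP) W

theorem PD.mono (hT : Enough T) {n m : ℕ} {M : Obj T} (h : PD n M) (hnm : n ≤ m) : PD m M := by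
  induction hnm with
  | refl => exact h
  | step _ ih => exact ih.succ hT

theorem gen_hasR_zero {M : Obj T} (h : Pj M) : HasR M 0 := by
  let Z : Obj T := M.ker M _ (Mr.id M)
  have hZ : ∀ z : Z.carrier, z = 0 := fun z => Subtype.ext z.2
  refine ⟨fun k => Nat.casesOn k M fun _ => Z, ContinuousLinearMap.id ℂ _, fun _ => 0,
    ContinuousLinearMap.id ℂ _, fun _ => 0, fun k => ?_, Mr.id M, fun _ => Mr.zero _ _,
    fun _ => rfl, fun _ _ => rfl, fun _ => rfl, fun p => zero_add p, fun k p => ?_, fun k hk => ?_⟩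
  · cases k with
    | zero => exact h
    | succ k => exact Pj.of_zero hZ
  · exact (hZ _).trans (hZ p).symm
  · cases k with
    | zero => exact absurd hk (lt_irrefl 0)
    | succ k => exact hZ

theorem gen_pj_of_hasR {M : Obj T} (h : HasR M 0) : Pj M := by
  obtain ⟨P, ε, d, t, s, h1, h2, -, -, -, h6, h7, -, h9⟩ := h
  have e : ∀ p, t (ε p) = p := fun p => by
    have := h7 p
    rwa [h9 1 one_pos (s 0 p), map_zero, zero_add] at this
  refine Retr.pj ⟨t, ε, Mr.of_inj h2 (Function.LeftInverse.injective e) fun i x => ?_, h2, h6⟩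
    (h1 0)
  simp only [ContinuousLinearMap.comp_apply, h6]

theorem gen_splice {K Q M : Obj T} {j σ} (hs : SES K Q M j σ) (hQ : Pj Q) {n : ℕ}
    (h : HasR K n) : HasR M (n + 1) := by
  obtain ⟨P, ε, d, t, s, h1, h2, h3, h4, h5, h6, h7, h8, h9⟩ := h
  obtain ⟨ρ, τ, e1, e2, e3⟩ := hs.split
  refine ⟨fun k => Nat.casesOn k Q P, σ, fun k => Nat.casesOn k (j.comp ε) d, τ,
    fun k => Nat.casesOn k (t.comp ρ) s, fun k => ?_, hs.mσ, fun k => ?_, fun p => hs.zero _,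
    fun k p => ?_, e2, fun p => ?_, fun k p => ?_, fun k hk => ?_⟩
  · cases k with
    | zero => exact hQ
    | succ k => exact h1 k
  · cases k with
    | zero => exact hs.mj.comp h2
    | succ k => exact h3 k
  · cases k with
    | zero =>
      change j (ε (d 0 p)) = 0
      rw [h4, map_zero]
    | succ k => exact h5 k p
  · change j (ε (t (ρ p))) + τ (σ p) = p
    rw [h6, e3]
  · cases k with
    | zero =>
      change d 0 (s 0 p) + t (ρ (j (ε p))) = p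
      rw [e1, h7]
    | succ k => exact h8 k p
  · cases k with
    | zero => exact absurd hk (Nat.not_lt_zero _)
    | succ k => exact h9 k (Nat.lt_of_succ_lt_succ hk)

theorem gen_unsplice {M : Obj T} {n : ℕ} (h : HasR M (n + 1)) :
    ∃ (K Q : Obj T) (j : K.carrier →L[ℂ] Q.carrier) (σ : Q.carrier →L[ℂ] M.carrier),
      SES K Q M j σ ∧ Pj Q ∧ HasR K n := by
  obtain ⟨P, ε, d, t, s, h1, h2, h3, h4, h5, h6, h7, h8, h9⟩ := h
  refine ⟨_, _, _, _, SES.of_ker h2 t h6, h1 0, fun k => P (k + 1),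
    (d 0).codRestrict ε.ker h4, fun k => d (k + 1), (s 0).comp ε.ker.subtypeL,
    fun k => s (k + 1), fun k => h1 _, fun i x => Subtype.ext (h3 0 i x), fun k => h3 _,
    fun p => Subtype.ext (h5 0 p), fun k => h5 _, fun x => Subtype.ext ?_, h8 0, fun k => h8 _,
    fun k hk => h9 _ (Nat.succ_lt_succ hk)⟩
  have h0 : ε x = 0 := x.2
  have := h7 x
  rw [h0, map_zero, add_zero] at this
  exact this

theorem pd_iff_hasR (hT : Enough T) {n : ℕ} {M : Obj T} : PD n M ↔ HasR M n := by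
  induction n generalizing M with
  | zero => exact (PD.zero_iff hT).trans ⟨gen_hasR_zero, gen_pj_of_hasR⟩
  | succ n ih =>
    constructor
    · intro h
      obtain ⟨K, P, a, b, hs, hP⟩ := hT M
      exact gen_splice hs hP (ih.1 fun W => h W _ _ _ _ hs hP)
    · intro h W
      obtain ⟨K, Q, j, σ, hs, hQ, hK⟩ := gen_unsplice h
      exact EZ.succ_of hT hs hQ (ih.2 hK W)

end Generic

end Pool.Agent.MP_75da70_an.H8
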