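import Mathlib

/-
Relative (topological) homology of left Banach modules over a Banach algebra.
-/

namespace Pool.Agent.MP_75da70_an.H7

universe u

/-- A left Banach module over `A`: a complex Banach space with a bounded bilinear associative
action of `A` (no unit condition). -/
structure BanMod (A : Type u) [NonUnitalNormedRing A] [NormedSpace ℂ A] : Type (u + 1) where
  carrier : Type u
  [grp : NormedAddCommGroup carrier]
  [spc : NormedSpace ℂ carrier]
  [cpl : CompleteSpace carrier]
  act : A →L[ℂ] carrier →L[ℂ] carrier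
  act_mul : ∀ (a b : A) (x : carrier), act (a * b) x = act a (act b x)

attribute [instance] BanMod.grp BanMod.spc BanMod.cpl

variable {A : Type u} [NonUnitalNormedRing A] [NormedSpace ℂ A]

/-- A bounded linear map is a morphism of modules when it commutes with the action. -/
def IsMor (X Y : BanMod A) (f : X.carrier →L[ℂ] Y.carrier) : Prop :=
  ∀ (a : A) (x : X.carrier), f (X.act a x) = Y.act a (f x)

/-- `P` is projective: morphisms out of `P` lift along admissible epimorphisms. -/
def IsProjective (P : BanMod A) : Prop :=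
  ∀ (Y X : BanMod A) (σ : Y.carrier →L[ℂ] X.carrier), IsMor Y X σ →
    (∃ τ : X.carrier →L[ℂ] Y.carrier, ∀ x, σ (τ x) = x) →
    ∀ φ : P.carrier →L[ℂ] X.carrier, IsMor P X φ →
      ∃ ψ : P.carrier →L[ℂ] Y.carrier, IsMor P Y ψ ∧ ∀ p, σ (ψ p) = φ p

/-- `X` has a projective resolution `0 ← X ← P 0 ← P 1 ← ⋯` that splits as a complex of Banach
spaces (bounded linear contracting homotopy `t`, `s k`), with `P k = 0` for all `k > n`. -/
def HasProjRes (X : BanMod A) (n : ℕ) : Prop :=
  ∃ (P : ℕ → BanMod A) (ε : (P 0).carrier →L[ℂ] X.carrier)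
    (d : ∀ k, (P (k + 1)).carrier →L[ℂ] (P k).carrier)
    (t : X.carrier →L[ℂ] (P 0).carrier)
    (s : ∀ k, (P k).carrier →L[ℂ] (P (k + 1)).carrier),
    (∀ k, IsProjective (P k)) ∧
    IsMor (P 0) X ε ∧ (∀ k, IsMor (P (k + 1)) (P k) (d k)) ∧
    (∀ p, ε (d 0 p) = 0) ∧ (∀ k p, d k (d (k + 1) p) = 0) ∧
    (∀ x, ε (t x) = x) ∧ (∀ p, d 0 (s 0 p) + t (ε p) = p) ∧
    (∀ k p, d (k + 1) (s (k + 1) p) + s k (d k p) = p) ∧
    (∀ k, n < k → ∀ p : (P k).carrier, p = 0)

/-- Homological dimension of a module: the least length of a projective resolution, `⊤` if there is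
no resolution of finite length. -/
noncomputable def dh (X : BanMod A) : ℕ∞ :=
  ⨅ (n : ℕ) (_ : HasProjRes X n), (n : ℕ∞)

variable (A) in
/-- Global dimension: the supremum of `dh X` over all left Banach modules. -/
noncomputable def dg : ℕ∞ :=
  ⨆ X : BanMod A, dh X

end Pool.Agent.MP_75da70_an.H7
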