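import Pool.Agent.MP_75da70_an.H7.Homology
import Pool.Agent.MP_75da70_an.H7.Defs

/-
The unbundled definitions agree with the bundled ones.
-/

namespace Pool.Agent.MP_75da70_an.H7

universe u

variable {A : Type u} [NonUnitalNormedRing A] [NormedSpace ℂ A]

noncomputable abbrev LMod.toBan (X : LMod A) : BanMod A where
  carrier := X.carrier
  act := X.bilin.toContinuousLinearMap
  act_mul := X.act_mul

noncomputable abbrev BanMod.toL (X : BanMod A) : LMod A where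
  carrier := X.carrier
  act := fun a x => X.act a x
  bilin := X.act.isBoundedBilinearMap
  act_mul := X.act_mul

theorem Proj.toBan {P : LMod A} (h : Proj P) : IsProjective P.toBan := by
  rintro Y X σ hσ ⟨τ, hτ⟩ φ hφ
  obtain ⟨ψ, ⟨h1, h2⟩, h3⟩ := h Y.toL X.toL σ
    ⟨⟨σ.isBoundedLinearMap, hσ⟩, τ, τ.isBoundedLinearMap, hτ⟩ φ ⟨φ.isBoundedLinearMap, hφ⟩
  exact ⟨IsBoundedLinearMap.toContinuousLinearMap ψ h1, h2, h3⟩

theorem IsProjective.toL {P : BanMod A} (h : IsProjective P) : Proj P.toL := by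
  rintro Y X σ ⟨⟨h1, h2⟩, τ, h3, h4⟩ φ ⟨h5, h6⟩
  obtain ⟨ψ, h7, h8⟩ := h Y.toBan X.toBan (IsBoundedLinearMap.toContinuousLinearMap σ h1) h2
    ⟨IsBoundedLinearMap.toContinuousLinearMap τ h3, h4⟩
    (IsBoundedLinearMap.toContinuousLinearMap φ h5) h6
  exact ⟨ψ, ⟨ψ.isBoundedLinearMap, h7⟩, h8⟩

theorem HasRes.ofL {X : BanMod A} {n : ℕ} (h : HasRes X.toL n) : HasProjRes X n := by
  obtain ⟨P, ε, d, hP, ⟨⟨e1, e2⟩, hd, h1, h2⟩, ⟨t, s, ht, hs, h3, h4, h5⟩, h6⟩ := h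
  exact ⟨fun k => (P k).toBan, IsBoundedLinearMap.toContinuousLinearMap ε e1,
    fun k => IsBoundedLinearMap.toContinuousLinearMap (d k) (hd k).1,
    IsBoundedLinearMap.toContinuousLinearMap t ht,
    fun k => IsBoundedLinearMap.toContinuousLinearMap (s k) (hs k),
    fun k => (hP k).toBan, e2, fun k => (hd k).2, h1, h2, h3, h4, h5, h6⟩

theorem HasProjRes.ofBan {X : LMod A} {n : ℕ} (h : HasProjRes X.toBan n) : HasRes X n := by
  obtain ⟨P, ε, d, t, s, hP, hε, hd, h1, h2, h3, h4, h5, h6⟩ := h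
  exact ⟨fun k => (P k).toL, ε, fun k => d k, fun k => (hP k).toL,
    ⟨⟨ε.isBoundedLinearMap, hε⟩, fun k => ⟨(d k).isBoundedLinearMap, hd k⟩, h1, h2⟩,
    ⟨t, fun k => s k, t.isBoundedLinearMap, fun k => (s k).isBoundedLinearMap, h3, h4, h5⟩, h6⟩

theorem globDim_eq : globDim A = dg A := by
  refine le_antisymm (iSup_le fun X => le_trans ?_ (le_iSup dh X.toBan))
    (iSup_le fun X => le_trans ?_ (le_iSup homDim X.toL))
  · exact le_iInf fun n => le_iInf fun h => iInf₂_le n h.ofBan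
  · exact le_iInf fun n => le_iInf fun h => iInf₂_le n h.ofL

end Pool.Agent.MP_75da70_an.H7
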