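import Pool.Agent.MP_75da70_an.H7.Tree

/-
Compact spaces of finite Cantor-Bendixson height: countable tightness and clopen partitions.
-/

namespace Pool.Agent.MP_75da70_an.H7

open Filter Topology Set

universe u

variable {Ω : Type u} [TopologicalSpace Ω]

theorem isClosed_of_omega [CompactSpace Ω] [T2Space Ω] : ∀ (h : ℕ) (Z : Set Ω),
    (∀ B ⊆ Z, B.Countable → closure B ⊆ Z) → Z ∩ Dm Ω h = ∅ → IsClosed Z
  | 0, Z, _, hD => by
    have : Z = ∅ := by simpa [Dm] using hD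
    rw [this]; exact isClosed_empty
  | h + 1, Z, hZ, hD => by
    have hF : (Z ∩ Dm Ω h).Finite := by
      by_contra hinf
      obtain ⟨B, hB, hBi, hBc⟩ : ∃ B ⊆ Z ∩ Dm Ω h, B.Infinite ∧ B.Countable := by
        let e := Set.Infinite.natEmbedding _ hinf
        refine ⟨range fun k => (e k : Ω), ?_, infinite_range_of_injective
          (Subtype.val_injective.comp e.injective), countable_range _⟩
        rintro _ ⟨k, rfl⟩; exact (e k).2
      obtain ⟨z, hz⟩ := hBi.exists_accPt_principal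
      have h1 : z ∈ Z := hZ B (hB.trans inter_subset_left) hBc (derivedSet_subset_closure B hz)
      have h2 : z ∈ Dm Ω (h + 1) := by
        rw [Dm_succ]; exact derivedSet_mono _ _ (hB.trans inter_subset_right) hz
      exact (eq_empty_iff_forall_notMem.mp hD) z ⟨h1, h2⟩
    refine isClosed_of_closure_subset fun x hx => ?_
    by_contra hxZ
    obtain ⟨W0, W', hFW0, hW', hW0W, hxW, hd⟩ := hF.isCompact.separation_of_notMem (x := x)
      (fun h => hxZ h.1)
    have h1 : IsClosed (Z \ W0) := isClosed_of_omega h _ (fun B hB hBc y hy =>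
      ⟨hZ B (hB.trans sdiff_subset) hBc hy, closure_minimal (t := W0ᶜ) (fun b hb => (hB hb).2)
        hFW0.isClosed_compl hy⟩) (eq_empty_iff_forall_notMem.mpr fun y hy =>
          hy.1.2 (hW0W ⟨hy.1.1, hy.2⟩))
    refine hxZ (h1.closure_subset (mem_closure_iff_nhds.mpr fun V hV => ?_)).1
    obtain ⟨y, hy, hyZ⟩ := mem_closure_iff_nhds.mp hx _ (inter_mem hV (hW'.mem_nhds hxW))
    exact ⟨y, hy.1, hyZ, fun hyW => disjoint_left.mp hd hyW hy.2⟩

theorem countable_tight [CompactSpace Ω] [T2Space Ω] {H : ℕ} (hH : Dm Ω H = ∅) {S : Set Ω} {q : Ω}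
    (hq : q ∈ closure S) : ∃ B ⊆ S, B.Countable ∧ q ∈ closure B := by
  have h1 : IsClosed {y | ∃ B ⊆ S, B.Countable ∧ y ∈ closure B} := by
    refine isClosed_of_omega H _ (fun B' hB' hc y hy => ?_) (by simp [hH])
    have hB'' : ∀ z ∈ B', ∃ B ⊆ S, B.Countable ∧ z ∈ closure B := hB'
    choose! f hf1 hf2 hf3 using hB''
    refine ⟨⋃ z ∈ B', f z, iUnion₂_subset hf1, hc.biUnion hf2, ?_⟩
    refine closure_minimal (fun z hz => closure_mono ?_ (hf3 z hz)) isClosed_closure hy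
    exact subset_biUnion_of_mem (u := fun z => f z) hz
  refine closure_minimal ?_ h1 hq
  intro y hy
  exact ⟨{y}, by simpa using hy, countable_singleton y, subset_closure rfl⟩

theorem totDisc [T2Space Ω] {H : ℕ} (hH : Dm Ω H = ∅) : TotallyDisconnectedSpace Ω := by
  refine ⟨fun t _ ht => ?_⟩
  by_contra hn
  rw [not_subsingleton_iff] at hn
  have h1 := preperfect_iff_subset_derivedSet.mp (ht.preperfect_of_nontrivial hn)
  have h2 : ∀ m, t ⊆ Dm Ω m := fun m => by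
    induction m with
    | zero => exact subset_univ _
    | succ m ih => rw [Dm_succ]; exact h1.trans (derivedSet_mono _ _ ih)
  have := h2 H
  rw [hH, subset_empty_iff] at this
  exact hn.nonempty.ne_empty this

/-- `r` is a retraction of `Z` with clopen fibres. -/
def PP (Z : Set Ω) (r : Ω → Ω) : Prop :=
  (∀ x ∈ Z, r x ∈ Z ∧ r (r x) = r x) ∧ ∀ v, IsClopen {y | y ∈ Z ∧ r y = v}

/-- `Z` is a disjoint union of clopen sets. -/
def DU (Z : Set Ω) : Prop := ∃ r, PP Z r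

theorem DU.of_label {Z : Set Ω} {ι : Type*} (r : Ω → ι) (h : ∀ v, IsClopen {y | y ∈ Z ∧ r y = v}) :
    DU Z := by
  rcases isEmpty_or_nonempty Ω with hΩ | hΩ
  · exact ⟨id, fun x => isEmptyElim x, fun x => isEmptyElim x⟩
  have h1 : ∀ x ∈ Z, Function.invFunOn r Z (r x) ∈ Z ∧ r (Function.invFunOn r Z (r x)) = r x :=
    fun x hx => Function.invFunOn_pos ⟨x, hx, rfl⟩
  refine ⟨fun x => Function.invFunOn r Z (r x), fun x hx => ⟨(h1 x hx).1, by beta_reduce; rw [(h1 x hx).2]⟩,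
    fun v => ?_⟩
  rcases eq_empty_or_nonempty {y | y ∈ Z ∧ Function.invFunOn r Z (r y) = v} with he | ⟨y, hy, rfl⟩
  · rw [he]; exact isClopen_empty
  · convert h (r y) using 3 with z
    refine and_congr_right fun hz => ⟨fun e => ?_, fun e => by beta_reduce; rw [e]⟩
    beta_reduce at e
    rw [← (h1 z hz).2, e, (h1 y hy).2]

theorem DU.of_fibers {Z : Set Ω} {ι : Type*} (r : Ω → ι) (h : ∀ v, DU {y | y ∈ Z ∧ r y = v}) :
    DU Z := by
  choose ρ hρ using h
  refine DU.of_label (fun x => (r x, ρ (r x) x)) fun ⟨v, w⟩ => ?_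
  convert (hρ v).2 w using 3 with y
  simp only [Prod.mk.injEq, mem_ofPred_eq, and_assoc]
  exact and_congr_right fun _ => and_congr_right fun e => by rw [e]

theorem DU.of_clopen {Z : Set Ω} (h : IsClopen Z) : DU Z :=
  DU.of_label (fun _ => ()) fun _ => by simpa using h

theorem DU.inter {Z K : Set Ω} (h : DU Z) (hK : IsClopen K) : DU (K ∩ Z) := by
  obtain ⟨r, -, hr⟩ := h
  refine DU.of_label r fun v => ?_
  convert hK.inter (hr v) using 1
  ext y; simp only [mem_ofPred_eq, mem_inter_iff, and_assoc]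

theorem DU.union {Z W : Set Ω} (h : DU W) (h' : DU (Z \ W)) (hW : W ⊆ Z) : DU Z := by
  refine DU.of_fibers (fun x => x ∈ W) fun v => ?_
  by_cases hv : v
  · convert h using 1
    ext y; simp only [hv, eq_iff_iff, iff_true, mem_ofPred_eq]
    exact ⟨fun h => h.2, fun h => ⟨hW h, h⟩⟩
  · convert h' using 1
    ext y; simp [hv]

theorem DU.of_starFinite (L : Set Ω) (U : Ω → Set Ω) (hU : ∀ a ∈ L, IsClopen (U a))
    (hf : ∀ a ∈ L, {b | b ∈ L ∧ (U b ∩ U a).Nonempty}.Finite) : DU (⋃ a ∈ L, U a) := by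
  classical
  have wf : WellFounded (WellOrderingRel (α := Ω)) := IsWellFounded.wf
  let m : Ω → Ω := fun x => if h : {a | a ∈ L ∧ x ∈ U a}.Nonempty then wf.min _ h else x
  have hm : ∀ x a, a ∈ L → x ∈ U a → (m x ∈ L ∧ x ∈ U (m x)) ∧ ¬ WellOrderingRel a (m x) :=
    fun x a ha hx => by
      have hne : {a | a ∈ L ∧ x ∈ U a}.Nonempty := ⟨a, ha, hx⟩
      simp only [m, dif_pos hne]
      exact ⟨wf.min_mem _ hne, wf.not_lt_min {a | a ∈ L ∧ x ∈ U a} ⟨ha, hx⟩⟩
  refine DU.of_label m fun a => ?_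
  by_cases ha : a ∈ L
  · have h1 : IsClopen (U a \ ⋃ b ∈ {b | (b ∈ L ∧ (U b ∩ U a).Nonempty) ∧ WellOrderingRel b a},
        U b) := (hU a ha).diff (((hf a ha).subset fun b hb => hb.1).isClopen_biUnion
          fun b hb => hU b hb.1.1)
    convert h1 using 1
    ext y
    simp only [mem_iUnion, mem_ofPred_eq, Set.mem_sdiff, exists_prop, not_exists, not_and]
    constructor
    · rintro ⟨⟨b, hb, hy⟩, rfl⟩
      exact ⟨(hm y b hb hy).1.2, fun c hc hyc => (hm y c hc.1.1 hyc).2 hc.2⟩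
    · rintro ⟨hy, h2⟩
      refine ⟨⟨a, ha, hy⟩, ?_⟩
      obtain ⟨⟨h3, h4⟩, h5⟩ := hm y a ha hy
      rcases trichotomous_of WellOrderingRel (m y) a with h | h | h
      · exact absurd h4 (h2 _ ⟨⟨h3, y, h4, hy⟩, h⟩)
      · exact h
      · exact absurd h h5
  · convert isClopen_empty
    refine eq_empty_iff_forall_notMem.mpr fun y hy => ha ?_
    obtain ⟨hy, rfl⟩ := hy
    obtain ⟨b, hb, hy⟩ := mem_iUnion₂.mp hy
    exact (hm y b hb hy).1.1

theorem finite_inter_Dm [CompactSpace Ω] {N Z : Set Ω} {h : ℕ} (hN : closure N ⊆ Z)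
    (hD : Z ∩ Dm Ω (h + 1) = ∅) : (N ∩ Dm Ω h).Finite := by
  by_contra hinf
  obtain ⟨z, hz⟩ := Set.Infinite.exists_accPt_principal hinf
  have h1 : z ∈ Z := hN (closure_mono inter_subset_left (derivedSet_subset_closure _ hz))
  have h2 : z ∈ Dm Ω (h + 1) := by
    rw [Dm_succ]; exact derivedSet_mono _ _ inter_subset_right hz
  exact (eq_empty_iff_forall_notMem.mp hD) z ⟨h1, h2⟩

theorem DU.of_local [CompactSpace Ω] : ∀ (h : ℕ) (Z : Set Ω) (U : Ω → Set Ω),
    (∀ a ∈ Z, IsClopen (U a) ∧ a ∈ U a ∧ U a ⊆ Z) → Z ∩ Dm Ω h = ∅ →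
    (∀ b ∈ Z, closure {a | a ∈ Z ∧ (U a ∩ U b).Nonempty} ⊆ Z) → DU Z
  | 0, Z, _, _, hD, _ => by
    have : Z = ∅ := by simpa [Dm] using hD
    rw [this]; exact DU.of_clopen isClopen_empty
  | h + 1, Z, U, hU, hD, hN => by
    have hf : ∀ b ∈ Z, {a | a ∈ Z ∩ Dm Ω h ∧ (U a ∩ U b).Nonempty}.Finite := fun b hb =>
      (finite_inter_Dm (hN b hb) hD).subset fun a ha => ⟨⟨ha.1.1, ha.2⟩, ha.1.2⟩
    have hW := DU.of_starFinite (Z ∩ Dm Ω h) U (fun a ha => (hU a ha.1).1) fun a ha => hf a ha.1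
    have hWo : IsOpen (⋃ a ∈ Z ∩ Dm Ω h, U a) := isOpen_biUnion fun a ha => (hU a ha.1).1.2
    refine hW.union (DU.of_local h _ (fun b => U b \ ⋃ a ∈ Z ∩ Dm Ω h, U a) (fun b hb => ?_) ?_
      fun b hb => ?_) (iUnion₂_subset fun a ha => (hU a ha.1).2.2)
    · refine ⟨?_, ⟨(hU b hb.1).2.1, hb.2⟩, sdiff_subset_sdiff_left (hU b hb.1).2.2⟩
      convert (hU b hb.1).1.diff ((hf b hb.1).isClopen_biUnion fun a ha => (hU a ha.1.1).1) using 1
      ext y
      simp only [Set.mem_sdiff, mem_iUnion, exists_prop, not_exists, not_and, mem_ofPred_eq]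
      exact and_congr_right fun hy => ⟨fun h a ha => h a ha.1, fun h a ha hya =>
        h a ⟨ha, y, hya, hy⟩ hya⟩
    · exact eq_empty_iff_forall_notMem.mpr fun y hy =>
        hy.1.2 (mem_biUnion ⟨hy.1.1, hy.2⟩ (hU y hy.1.1).2.1)
    · intro y hy
      refine ⟨hN b hb.1 (closure_mono ?_ hy), ?_⟩
      · intro a ha
        exact ⟨ha.1.1, ha.2.mono (inter_subset_inter sdiff_subset sdiff_subset)⟩
      exact closure_minimal (t := (⋃ a ∈ Z ∩ Dm Ω h, U a)ᶜ) (fun a ha => ha.1.2)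
        hWo.isClosed_compl hy

/-- the combinatorial consequence of the failure of a clopen partition. -/
theorem exists_config [CompactSpace Ω] [T2Space Ω] {H : ℕ} (hH : Dm Ω H = ∅) {o : Ω}
    (ho : ¬ DU {o}ᶜ) {K : Set Ω} (hK : IsClopen K) (hoK : o ∉ K) (U W : Ω → Set Ω)
    (hU : ∀ a ∈ Kᶜ \ {o}, U a ∈ 𝓝 a) (hW : ∀ b ∈ Kᶜ \ {o}, W b ∈ 𝓝 o) :
    ∃ a ∈ Kᶜ \ {o}, ∃ b ∈ Kᶜ \ {o}, (U a ∩ U b).Nonempty ∧ a ∈ W b := by
  have := totDisc hH
  by_contra hcon
  push Not at hcon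
  have hY : IsOpen (Kᶜ \ {o}) := hK.1.isOpen_compl.sdiff isClosed_singleton
  have h1 : ∀ a ∈ Kᶜ \ {o}, ∃ V, IsClopen V ∧ a ∈ V ∧ V ⊆ U a ∩ (Kᶜ \ {o}) := fun a ha =>
    isTopologicalBasis_isClopen.mem_nhds_iff.1 (inter_mem (hU a ha) (hY.mem_nhds ha))
  choose! V hV1 hV2 hV3 using h1
  have h2 := DU.of_local H (Kᶜ \ {o}) V
    (fun a ha => ⟨hV1 a ha, hV2 a ha, (hV3 a ha).trans inter_subset_right⟩) (by simp [hH])
    fun b hb y hy => by
      have h3 : y ∈ Kᶜ ∩ (interior (W b))ᶜ := by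
        refine closure_minimal ?_ (hK.compl.1.inter isOpen_interior.isClosed_compl) hy
        intro a ha
        refine ⟨ha.1.1, fun h => ?_⟩
        exact hcon a ha.1 b hb (ha.2.mono (inter_subset_inter
          ((hV3 a ha.1).trans inter_subset_left) ((hV3 b hb).trans inter_subset_left)))
          (interior_subset h)
      refine ⟨h3.1, fun h => h3.2 ?_⟩
      rw [mem_singleton_iff.mp h]
      exact mem_interior_iff_mem_nhds.mpr (hW b hb)
  refine ho ((DU.of_clopen hK).union ?_ fun y hy h => hoK (mem_singleton_iff.mp h ▸ hy))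
  convert h2 using 1
  ext y; simp [and_comm]

theorem exists_PP_finite [CompactSpace Ω] [T2Space Ω] [TotallyDisconnectedSpace Ω] {K : Set Ω}
    (hK : IsClopen K) {F : Set Ω} (hF : F.Finite) : F ⊆ K → ∃ r, PP K r ∧ ∀ x ∈ F, r x = x := by
  classical
  induction F, hF using Set.Finite.induction_on with
  | empty => intro _; obtain ⟨r, hr⟩ := DU.of_clopen hK; exact ⟨r, hr, by simp⟩
  | @insert a F _ _ ih =>
    intro hFK
    obtain ⟨r, ⟨h1, h2⟩, h3⟩ := ih ((subset_insert _ _).trans hFK)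
    have haK : a ∈ K := hFK (mem_insert _ _)
    by_cases ha : r a = a
    · exact ⟨r, ⟨h1, h2⟩, by simpa [ha] using h3⟩
    obtain ⟨W, hW, haW, hv⟩ := compact_exists_isClopen_in_isOpen (x := a) (U := {r a}ᶜ)
      isOpen_compl_singleton (Ne.symm ha)
    have hvW : r a ∉ W := fun h => hv h rfl
    have hna : ∀ y ∈ K, r y ≠ a := fun y hy e => ha (by rw [← e, (h1 y hy).2])
    refine ⟨fun y => if r y = r a ∧ y ∈ W then a else r y, ⟨fun x hx => ?_, fun v => ?_⟩,
      fun x hx => ?_⟩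
    · by_cases hc : r x = r a ∧ x ∈ W
      · simp [hc, haK, haW]
      · simp only [if_neg hc]
        refine ⟨(h1 x hx).1, ?_⟩
        rw [if_neg, (h1 x hx).2]
        rintro ⟨e, e'⟩
        rw [(h1 x hx).2] at e
        exact hvW (e ▸ e')
    · by_cases hva : v = a
      · subst hva
        convert (h2 (r v)).inter hW using 1
        ext y
        simp only [mem_ofPred_eq, mem_inter_iff, and_assoc]
        refine and_congr_right fun hy => ?_
        split_ifs with hc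
        · simp [hc]
        · simp [hc, hna y hy]
      · convert (h2 v).diff ((h2 (r a)).inter hW) using 1
        ext y
        simp only [mem_ofPred_eq, mem_inter_iff, Set.mem_sdiff, and_assoc]
        refine and_congr_right fun hy => ?_
        split_ifs with hc
        · simp [hc, hy, Ne.symm hva]
        · simp [hc]
    · rcases mem_insert_iff.mp hx with rfl | hx
      · simp [haW]
      · beta_reduce
        rw [if_neg, h3 x hx]
        rintro ⟨e, e'⟩
        rw [h3 x hx] at e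
        exact hvW (e ▸ e')

theorem DU.refine [CompactSpace Ω] [T2Space Ω] [TotallyDisconnectedSpace Ω] {Z : Set Ω}
    (hZ : DU Z) {h : ℕ} (hD : Z ∩ Dm Ω (h + 1) = ∅) :
    ∃ r, PP Z r ∧ ∀ x ∈ Z ∩ Dm Ω h, r x = x := by
  obtain ⟨r0, h1, h2⟩ := hZ
  choose ρ hρ hρ' using fun v => exists_PP_finite (h2 v) (finite_inter_Dm (Z := Z) (h := h)
    (N := {y | y ∈ Z ∧ r0 y = v}) (by rw [(h2 v).1.closure_eq]; exact fun y hy => hy.1) hD)
    inter_subset_left
  refine ⟨fun x => ρ (r0 x) x, ⟨fun x hx => ?_, fun w => ?_⟩, fun x hx => hρ' _ x ⟨⟨hx.1, rfl⟩, hx.2⟩⟩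
  · obtain ⟨⟨h3, h4⟩, h5⟩ := (hρ (r0 x)).1 x ⟨hx, rfl⟩
    exact ⟨h3, by beta_reduce; rw [h4, h5]⟩
  · convert (hρ (r0 w)).2 w using 3 with y
    simp only [mem_ofPred_eq, and_assoc]
    refine and_congr_right fun hy => ⟨fun e => ?_, fun e => by rw [e.1, e.2]⟩
    have := ((hρ (r0 y)).1 y ⟨hy, rfl⟩).1.2
    rw [e] at this
    exact ⟨this.symm, by rw [this, e]⟩

theorem PP.DU_diff {Z : Set Ω} {r : Ω → Ω} (h : PP Z r) (hG : ∀ o : Ω, DU {o}ᶜ) :
    DU {x | x ∈ Z ∧ r x ≠ x} := by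
  refine DU.of_fibers r fun v => ?_
  convert (hG v).inter (h.2 v) using 1
  ext y
  simp only [mem_ofPred_eq, mem_inter_iff, mem_compl_iff, mem_singleton_iff, and_assoc]
  refine and_congr_right fun _ => ⟨fun e => ⟨e.2, fun e' => e.1 (e.2.trans e'.symm)⟩,
    fun e => ⟨fun e' => e.2 (e'.symm.trans e.1), e.1⟩⟩

end Pool.Agent.MP_75da70_an.H7
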