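import Pool.Agent.MP_75da70_an.H7.Delta
import Pool.Agent.MP_75da70_an.H7.Scat

/-
Finite height with a point whose complement has no clopen partition: no resolution of length 3.
-/

namespace Pool.Agent.MP_75da70_an.H7

open Filter Topology Set

universe u

/-- alternating sum over the orderings of three elements. -/
def Alt3 {α : Type*} (φ : List α → ℂ) (f g h : α) : ℂ :=
  φ [f, g, h] - φ [f, h, g] - φ [g, f, h] + φ [g, h, f] + φ [h, f, g] - φ [h, g, f]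

theorem Alt3_sub {α : Type*} (φ ψ : List α → ℂ) (f g h : α) :
    Alt3 (fun l => φ l - ψ l) f g h = Alt3 φ f g h - Alt3 ψ f g h := by
  simp only [Alt3]; ring

theorem Alt3_norm {α : Type*} {φ : List α → ℂ} {f g h : α} {ε : ℝ}
    (H : ∀ a ∈ ({f, g, h} : Set α), ∀ b ∈ ({f, g, h} : Set α), ∀ c ∈ ({f, g, h} : Set α),
      ‖φ [a, b, c]‖ ≤ ε) : ‖Alt3 φ f g h‖ ≤ 6 * ε := by
  have h1 := H f (by simp) g (by simp) h (by simp)
  have h2 := H f (by simp) h (by simp) g (by simp)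
  have h3 := H g (by simp) f (by simp) h (by simp)
  have h4 := H g (by simp) h (by simp) f (by simp)
  have h5 := H h (by simp) f (by simp) g (by simp)
  have h6 := H h (by simp) g (by simp) f (by simp)
  unfold Alt3
  refine (norm_sub_le _ _).trans ?_
  refine (add_le_add (norm_add_le _ _) le_rfl).trans ?_
  refine (add_le_add (add_le_add (norm_add_le _ _) le_rfl) le_rfl).trans ?_
  refine (add_le_add (add_le_add (add_le_add (norm_sub_le _ _) le_rfl) le_rfl) le_rfl).trans ?_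
  refine (add_le_add (add_le_add (add_le_add (add_le_add (norm_sub_le _ _) le_rfl) le_rfl) le_rfl)
    le_rfl).trans ?_
  linarith

theorem G2.alt3 {α : Type*} {I J : Type} {φ : I → J → List α → ℂ} {C : ℝ}
    {f g h : I → J → α} (P : (I → J → α) → Prop) (hf : P f) (hg : P g) (hh : P h)
    (H : ∀ a b c, P a → P b → P c → G2 (fun i j => φ i j [a i j, b i j, c i j]) C) :
    G2 (fun i j => Alt3 (φ i j) (f i j) (g i j) (h i j)) (C + C + C + C + C + C) :=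
  (((((H f g h hf hg hh).sub (H f h g hf hh hg)).sub (H g f h hg hf hh)).add
    (H g h f hg hh hf)).add (H h f g hh hf hg)).sub (H h g f hh hg hf)

theorem alt_identity {α : Type*} [CommMonoid α] (φ : List α → ℂ) (χ χ' : α → ℂ)
    (h : ∀ f1 f2 f3 f4, χ f1 * φ [f2, f3, f4] - (φ [f1 * f2, f3, f4] - (φ [f1, f2 * f3, f4] -
      (φ [f1, f2, f3 * f4] - χ' f4 * φ [f1, f2, f3]))) = 0) (B A A' B' : α)
    (a1 : χ B = 1) (a2 : χ A = 1) (a3 : χ A' = 0) (a4 : χ B' = 0)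
    (b1 : χ' B = 0) (b2 : χ' A = 0) (b3 : χ' A' = 1) (b4 : χ' B' = 1) :
    Alt3 φ A A' B' - Alt3 φ B A' B' - Alt3 φ B A B' + Alt3 φ B A A' = 0 := by
  have h0 := h B A A' B'
  have h1 := h B A B' A'
  have h2 := h B A' A B'
  have h3 := h B A' B' A
  have h4 := h B B' A A'
  have h5 := h B B' A' A
  have h6 := h A B A' B'
  have h7 := h A B B' A'
  have h8 := h A A' B B'
  have h9 := h A A' B' B
  have h10 := h A B' B A'
  have h11 := h A B' A' B
  have h12 := h A' B A B'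
  have h13 := h A' B B' A
  have h14 := h A' A B B'
  have h15 := h A' A B' B
  have h16 := h A' B' B A
  have h17 := h A' B' A B
  have h18 := h B' B A A'
  have h19 := h B' B A' A
  have h20 := h B' A B A'
  have h21 := h B' A A' B
  have h22 := h B' A' B A
  have h23 := h B' A' A B
  simp only [a1, a2, a3, a4, b1, b2, b3, b4, mul_comm A B, mul_comm A' B, mul_comm B' B,
    mul_comm A' A, mul_comm B' A, mul_comm B' A'] at *
  unfold Alt3
  linear_combination h0 - h1 - h2 + h3 + h4 - h5 - h6 + h7 + h8 - h9 - h10 + h11 + h12 - h13 -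
    h14 + h15 + h16 - h17 - h18 + h19 + h20 - h21 - h22 + h23

variable {Ω : Type u} [TopologicalSpace Ω]

open Classical in
/-- the indicator function of a clopen set. -/
noncomputable def ind (S : Set Ω) : C(Ω, ℂ) :=
  if h : IsClopen S then ⟨S.indicator fun _ => 1, h.continuous_indicator continuous_const⟩ else 0

theorem ind_of_mem {S : Set Ω} (h : IsClopen S) {x : Ω} (hx : x ∈ S) : ind S x = 1 := by
  simp [ind, h, hx]

theorem ind_of_notMem {S : Set Ω} {x : Ω} (hx : x ∉ S) : ind S x = 0 := by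
  unfold ind; split_ifs <;> simp [hx]

theorem norm_ind_le (S : Set Ω) (x : Ω) : ‖ind S x‖ ≤ 1 := by
  by_cases hx : x ∈ S
  · unfold ind; split_ifs <;> simp [hx]
  · simp [ind_of_notMem hx]

structure Cfg (Ω : Type u) where
  d : Ω
  a : Ω
  SA : Set Ω
  SB : Set Ω

def Cfg.Ok (o : Ω) (c : Cfg Ω) : Prop :=
  IsClopen c.SA ∧ IsClopen c.SB ∧ c.d ∈ c.SA ∧ c.d ∈ c.SB ∧ c.a ∈ c.SA ∧ c.a ∉ c.SB ∧
    o ∉ c.SA ∧ o ∉ c.SB

def Cfg.New (R : List C(Ω, ℂ) → Ω → List Ω → ℂ) (ε : ℝ) (o : Ω) (c c' : Cfg Ω) : Prop :=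
  Disjoint (c.SA ∪ c.SB) (c'.SA ∪ c'.SB) ∧
  (∀ f ∈ ({ind c.SA, ind c.SB, ind c'.SA} : Set C(Ω, ℂ)),
    ∀ g ∈ ({ind c.SA, ind c.SB, ind c'.SA} : Set C(Ω, ℂ)),
    ∀ h ∈ ({ind c.SA, ind c.SB, ind c'.SA} : Set C(Ω, ℂ)), Gd (R [f, g, h]) ε c'.a c'.d) ∧
  (∀ f ∈ ({ind c.SA, ind c.SB, ind c'.SB} : Set C(Ω, ℂ)),
    ∀ g ∈ ({ind c.SA, ind c.SB, ind c'.SB} : Set C(Ω, ℂ)),
    ∀ h ∈ ({ind c.SA, ind c.SB, ind c'.SB} : Set C(Ω, ℂ)), Gd (R [f, g, h]) ε o c'.a)

/-- the functional attached to two configurations. -/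
def lam (R : List C(Ω, ℂ) → Ω → List Ω → ℂ) (o : Ω) (c c' : Cfg Ω) (fs : List C(Ω, ℂ)) : ℂ :=
  Dl [(c.a, o), (o, c'.a), (c'.a, c'.d)] fun as => R fs c'.d (c.d :: as)

variable [CompactSpace Ω] {n : ℕ} {R : List C(Ω, ℂ) → Ω → List Ω → ℂ} {C : ℝ}

theorem RData.uc_nhds [T2Space Ω] (h : RData n R C) {H : ℕ} (hH : Dm Ω H = ∅) (q : Ω)
    (fs : List C(Ω, ℂ)) (hfs : fs.length = n) {ε : ℝ} (hε : 0 < ε) :
    ∀ᶠ w in 𝓝 q, Gd (R fs) ε q w := by
  by_contra hcon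
  obtain ⟨B, hB, hc, hq⟩ := countable_tight hH (S := {w | ¬ Gd (R fs) ε q w})
    (mem_closure_iff_frequently.mpr (not_eventually.mp hcon))
  obtain ⟨w, hw, hg⟩ := h.uc fs hfs ε hε q B hc hq
  exact hB hw hg

theorem RData.exists_cfg [T2Space Ω] (h : RData 3 R C) {H : ℕ} (hH : Dm Ω H = ∅) {o : Ω}
    (ho : ¬ DU {o}ᶜ) {ε : ℝ} (hε : 0 < ε) (s : Finset (Cfg Ω)) (hs : ∀ c ∈ s, c.Ok o) :
    ∃ c', c'.Ok o ∧ ∀ c ∈ s, Cfg.New R ε o c c' := by
  have := totDisc hH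
  let K : Set Ω := ⋃ c ∈ s, (c.SA ∪ c.SB)
  have hK : IsClopen K := isClopen_biUnion_finset fun c hc => (hs c hc).1.union (hs c hc).2.1
  have hoK : o ∉ K := by
    simp only [K, mem_iUnion, not_exists]
    rintro c hc (h1 | h1)
    · exact (hs c hc).2.2.2.2.2.2.1 h1
    · exact (hs c hc).2.2.2.2.2.2.2 h1
  have hY : IsOpen (Kᶜ \ {o}) := hK.1.isOpen_compl.sdiff isClosed_singleton
  choose! V hV1 hV2 hV3 using fun a (ha : a ∈ Kᶜ \ {o}) => compact_exists_isClopen_in_isOpen hY ha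
  have hG : ∀ q b : Ω, ∀ᶠ w in 𝓝 q, ∀ c ∈ s, ∀ f ∈ ({ind c.SA, ind c.SB, ind (V b)} : Set C(Ω, ℂ)),
      ∀ g ∈ ({ind c.SA, ind c.SB, ind (V b)} : Set C(Ω, ℂ)),
      ∀ h ∈ ({ind c.SA, ind c.SB, ind (V b)} : Set C(Ω, ℂ)), Gd (R [f, g, h]) ε q w := fun q b =>
    (eventually_all_finset _).mpr fun c _ => (toFinite _).eventually_all.mpr fun f _ =>
      (toFinite _).eventually_all.mpr fun g _ => (toFinite _).eventually_all.mpr fun k _ =>
        h.uc_nhds hH q _ rfl hε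
  obtain ⟨a, ha, b, hb, ⟨d, hda, hdb⟩, hab⟩ := exists_config hH ho hK hoK _ _
    (fun a ha => inter_mem ((hV1 a ha).2.mem_nhds (hV2 a ha)) (hG a a))
    (fun b hb => inter_mem ((hV1 b hb).1.isOpen_compl.mem_nhds fun h => (hV3 b hb h).2 rfl)
      (hG o b))
  refine ⟨⟨d, a, V a, V b⟩, ⟨hV1 a ha, hV1 b hb, hda.1, hdb.1, hV2 a ha, hab.1,
    fun h => (hV3 a ha h).2 rfl, fun h => (hV3 b hb h).2 rfl⟩, fun c hc => ⟨?_, hda.2 c hc,
      hab.2 c hc⟩⟩
  refine disjoint_left.mpr fun y hy hy' => ?_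
  have : y ∈ K := mem_biUnion (Finset.mem_coe.mpr hc) hy
  rcases hy' with h1 | h1
  · exact (hV3 a ha h1).1 this
  · exact (hV3 b hb h1).1 this

theorem RData.lam_identity (h : RData 3 R C) {o : Ω} {c c' : Cfg Ω} (hc : c.Ok o) (hc' : c'.Ok o)
    (hd : Disjoint (c.SA ∪ c.SB) (c'.SA ∪ c'.SB)) :
    Alt3 (lam R o c c') (ind c.SA) (ind c'.SA) (ind c'.SB) -
      Alt3 (lam R o c c') (ind c.SB) (ind c'.SA) (ind c'.SB) -
      Alt3 (lam R o c c') (ind c.SB) (ind c.SA) (ind c'.SB) +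
      Alt3 (lam R o c c') (ind c.SB) (ind c.SA) (ind c'.SA) = 1 := by
  obtain ⟨a1, a2, a3, a4, a5, a6, a7, a8⟩ := hc
  obtain ⟨b1, b2, b3, b4, b5, b6, b7, b8⟩ := hc'
  have d1 : ∀ y ∈ c.SA, y ∉ c'.SA ∧ y ∉ c'.SB := fun y hy =>
    not_or.mp (disjoint_left.mp hd (Or.inl hy))
  have d2 : ∀ y ∈ c'.SA, y ∉ c.SA ∧ y ∉ c.SB := fun y hy =>
    not_or.mp (disjoint_right.mp hd (Or.inl hy))
  have := alt_identity (fun fs => lam R o c c' fs -
      Dl [(c.a, o), (o, c'.a), (c'.a, c'.d)] (prodF fs)) (fun f => f c.d) (fun f => f c'.d)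
    (fun f1 f2 f3 f4 => by
      have h1 := fun as => h.cob f1 [f2, f3, f4] rfl c.d as c'.d
      have h2 := congrArg (Dl [(c.a, o), (o, c'.a), (c'.a, c'.d)]) (funext h1)
      simp only [DS, Dl_sub, Dl_mul] at h2
      simp only [lam]
      linear_combination h2)
    (ind c.SB) (ind c.SA) (ind c'.SA) (ind c'.SB) (ind_of_mem a2 a4) (ind_of_mem a1 a3)
    (ind_of_notMem (d1 _ a3).1) (ind_of_notMem (d1 _ a3).2) (ind_of_notMem (d2 _ b3).2)
    (ind_of_notMem (d2 _ b3).1) (ind_of_mem b1 b3) (ind_of_mem b2 b4)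
  simp only [Alt3_sub] at this
  rw [← sub_eq_zero, ← this]
  simp only [Alt3, Dl, prodF, ind_of_mem a1 a5, ind_of_notMem a6, ind_of_notMem a7,
    ind_of_notMem a8, ind_of_notMem b7, ind_of_notMem b8, ind_of_notMem (d1 _ a5).1,
    ind_of_notMem (d1 _ a5).2, ind_of_mem b1 b5, ind_of_notMem b6, ind_of_notMem (d2 _ b5).1,
    ind_of_notMem (d2 _ b5).2, ind_of_notMem (d2 _ b3).2, ind_of_notMem (d2 _ b3).1,
    ind_of_mem b1 b3, ind_of_mem b2 b4]
  ring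

omit [CompactSpace Ω] in
theorem lam_small {o q w : Ω} {c c' : Cfg Ω} {fs : List C(Ω, ℂ)} {ε : ℝ} (hε : 0 ≤ ε)
    (hg : Gd (R fs) ε q w) (hm : (q, w) ∈ [(c.a, o), (o, c'.a), (c'.a, c'.d)] ∨
      (w, q) ∈ [(c.a, o), (o, c'.a), (c'.a, c'.d)]) : ‖lam R o c c' fs‖ ≤ 8 * ε := by
  refine (Dl_small hε _ _ (fun l l' hl => hg _ _ _ (hl.cons _)) hm).trans (le_of_eq ?_)
  norm_num

theorem RData.lam_small' (h : RData n R C) {o : Ω} {c c' : Cfg Ω} {fs : List C(Ω, ℂ)} {ε : ℝ}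
    (hε : 0 ≤ ε) (hg : Gd (R fs) ε c.a c.d) : ‖lam R o c c' fs‖ ≤ 8 * ε := by
  have := Dl_cycle (xs := [c'.a, c'.d]) (x := o) (v := R fs c'.d) (fun l => h.cyc _ _ _) c.a c.d
  simp only [chn] at this
  rw [lam, this]
  refine (Dl_small hε _ _ (fun l l' hl => hg _ _ _ (hl.cons _)) (Or.inl (by simp))).trans
    (le_of_eq ?_)
  norm_num

theorem not_RData_three [T2Space Ω] {H : ℕ} (hH : Dm Ω H = ∅) {o : Ω} (ho : ¬ DU {o}ᶜ) :
    ¬ RData 3 R C := by
  intro h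
  have hε : (0 : ℝ) < 1 / 200 := by norm_num
  obtain ⟨c, hc, hnew⟩ := exists_seq_of_forall_finset_exists (Cfg.Ok o) (Cfg.New R (1 / 200) o)
    (h.exists_cfg hH ho hε)
  have hdis : ∀ k k', k ≠ k' → Disjoint ((c k).SA ∪ (c k).SB) ((c k').SA ∪ (c k').SB) := by
    intro k k' hk
    rcases lt_or_gt_of_ne hk with h1 | h1
    · exact (hnew _ _ h1).1
    · exact (hnew _ _ h1).1.symm
  have hA : SignBdd fun k => ind (c k).SA := signBdd_of_disjoint _ (fun _ _ => norm_ind_le _ _)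
    fun k k' hk x => by
      by_cases hx : x ∈ (c k).SA
      · exact Or.inr (ind_of_notMem fun h => disjoint_left.mp (hdis k k' hk) (Or.inl hx) (Or.inl h))
      · exact Or.inl (ind_of_notMem hx)
  have hB : SignBdd fun k => ind (c k).SB := signBdd_of_disjoint _ (fun _ _ => norm_ind_le _ _)
    fun k k' hk x => by
      by_cases hx : x ∈ (c k).SB
      · exact Or.inr (ind_of_notMem fun h => disjoint_left.mp (hdis k k' hk) (Or.inr hx) (Or.inr h))
      · exact Or.inl (ind_of_notMem hx)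
  have hAr : Adm fun (i _ : ℕ) => ind (c (2 * i + 1)).SA :=
    ⟨_, _, fun i _ => 2 * i + 1, hA, OneSide.row _, fun _ _ => rfl⟩
  have hBr : Adm fun (i _ : ℕ) => ind (c (2 * i + 1)).SB :=
    ⟨_, _, fun i _ => 2 * i + 1, hB, OneSide.row _, fun _ _ => rfl⟩
  have hAc : Adm fun (_ j : ℕ) => ind (c (2 * j)).SA :=
    ⟨_, _, fun _ j => 2 * j, hA, OneSide.col _, fun _ _ => rfl⟩
  have hBc : Adm fun (_ j : ℕ) => ind (c (2 * j)).SB :=
    ⟨_, _, fun _ j => 2 * j, hB, OneSide.col _, fun _ _ => rfl⟩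
  have hG : ∀ f g k : ℕ → ℕ → C(Ω, ℂ), Adm f → Adm g → Adm k →
      G2 (fun i j => lam R o (c (2 * i + 1)) (c (2 * j)) [f i j, g i j, k i j]) (2 ^ 3 * C) := by
    intro f g k hf hg hk
    have h1 := (h.g2 ℕ ℕ [f, g, k] (fun j => (c (2 * j)).d) rfl (by simp [hf, hg, hk])).cons
      (OneSide.row fun i => (c (2 * i + 1)).d)
    exact GBF.Dl [(fun i _ => (c (2 * i + 1)).a, fun _ _ => o), (fun _ _ => o,
      fun _ j => (c (2 * j)).a), (fun _ j => (c (2 * j)).a, fun _ j => (c (2 * j)).d)] h1 (by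
        simp only [List.mem_cons, List.not_mem_nil, or_false, forall_eq_or_imp, forall_eq]
        exact ⟨⟨OneSide.row _, OneSide.const _⟩, ⟨OneSide.const _, OneSide.col _⟩,
          OneSide.col _, OneSide.col _⟩)
  have hM := (G2.alt3 Adm hBr hAr hAc hG).sub (G2.alt3 Adm hBr hAr hBc hG)
  have := hM.triangular (c := 1) (ε := 6 * (8 * (1 / 200)) + 6 * (8 * (1 / 200)))
    (ε' := 6 * (8 * (1 / 200)) + 6 * (8 * (1 / 200))) (fun i j hij => ?_) fun i j hij => ?_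
  · norm_num at this
  · obtain ⟨-, h1, h2⟩ := hnew (2 * i + 1) (2 * j) (by omega)
    refine (norm_sub_le _ _).trans (add_le_add (Alt3_norm fun f hf g hg k hk => ?_)
      (Alt3_norm fun f hf g hg k hk => ?_))
    · rw [insert_comm] at hf hg hk
      exact lam_small hε.le (h1 f hf g hg k hk) (Or.inl (by simp))
    · rw [insert_comm] at hf hg hk
      exact lam_small hε.le (h2 f hf g hg k hk) (Or.inl (by simp))
  · obtain ⟨-, h1, h2⟩ := hnew (2 * j) (2 * i + 1) (by omega)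
    have e := h.lam_identity (hc (2 * i + 1)) (hc (2 * j)) (hdis _ _ (by omega))
    rw [← e, show ∀ t1 t2 t3 t4 : ℂ, t4 - t3 - (t1 - t2 - t3 + t4) = t2 - t1 from
      fun _ _ _ _ => by ring]
    have hp : ∀ x y z : C(Ω, ℂ), ({x, y, z} : Set C(Ω, ℂ)) = {y, z, x} := fun x y z => by
      ext; simp only [mem_insert_iff, mem_singleton_iff]; tauto
    refine (norm_sub_le _ _).trans (add_le_add (Alt3_norm fun f hf g hg k hk => ?_)
      (Alt3_norm fun f hf g hg k hk => ?_))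
    · rw [hp] at hf hg hk
      exact lam_small hε.le (h2 f hf g hg k hk) (Or.inr (by simp))
    · rw [hp] at hf hg hk
      exact h.lam_small' hε.le (h1 f hf g hg k hk)

end Pool.Agent.MP_75da70_an.H7
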