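import Pool.Agent.MP_75da70_an.H7.RFun

/-
Iterated differences of functions of lists.
-/

namespace Pool.Agent.MP_75da70_an.H7

open Filter Topology Set

universe u

variable {Ω : Type u}

/-- iterated difference along a list of pairs of points. -/
def Dl : List (Ω × Ω) → (List Ω → ℂ) → ℂ
  | [], u => u []
  | q :: ps, u => Dl ps (fun l => u (q.1 :: l)) - Dl ps (fun l => u (q.2 :: l))

theorem Dl_add : ∀ (ps : List (Ω × Ω)) (u v : List Ω → ℂ),
    Dl ps (fun l => u l + v l) = Dl ps u + Dl ps v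
  | [], _, _ => rfl
  | q :: ps, u, v => by
    simp only [Dl]
    rw [Dl_add ps (fun l => u (q.1 :: l)), Dl_add ps (fun l => u (q.2 :: l))]
    ring

theorem Dl_mul (c : ℂ) : ∀ (ps : List (Ω × Ω)) (u : List Ω → ℂ),
    Dl ps (fun l => c * u l) = c * Dl ps u
  | [], _ => rfl
  | q :: ps, u => by
    simp only [Dl]
    rw [Dl_mul c ps (fun l => u (q.1 :: l)), Dl_mul c ps (fun l => u (q.2 :: l))]
    ring

theorem Dl_sub (ps : List (Ω × Ω)) (u v : List Ω → ℂ) :
    Dl ps (fun l => u l - v l) = Dl ps u - Dl ps v := by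
  have := Dl_add ps u (fun l' => (-1) * v l')
  rw [Dl_mul] at this
  simpa [sub_eq_add_neg] using this

theorem Dl_zero (ps : List (Ω × Ω)) : Dl ps (fun _ => 0) = 0 := by
  simpa using Dl_mul 0 ps (fun _ => 0)

theorem Dl_sum {ι : Type*} (s : Finset ι) (ps : List (Ω × Ω)) (u : ι → List Ω → ℂ) :
    Dl ps (fun l => ∑ k ∈ s, u k l) = ∑ k ∈ s, Dl ps (u k) := by
  classical
  induction s using Finset.induction_on with
  | empty => simpa using Dl_zero ps
  | insert a s ha ih => simp only [Finset.sum_insert ha]; rw [Dl_add, ih]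

theorem Dl_norm_le {ε : ℝ} : ∀ (ps : List (Ω × Ω)) (u : List Ω → ℂ), (∀ l, ‖u l‖ ≤ ε) →
    ‖Dl ps u‖ ≤ 2 ^ ps.length * ε
  | [], u, h => by simpa [Dl] using h []
  | q :: ps, u, h => by
    have a := Dl_norm_le ps (fun l => u (q.1 :: l)) fun _ => h _
    have b := Dl_norm_le ps (fun l => u (q.2 :: l)) fun _ => h _
    simp only [Dl, List.length_cons, pow_succ]
    exact (norm_sub_le _ _).trans (by linarith)

theorem Sw.refl {α : Type*} (q w : α) (l : List α) : Sw q w l l :=
  List.forall₂_same.mpr fun _ _ => Or.inl rfl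

theorem Sw.cons {α : Type*} {q w : α} {l l' : List α} (h : Sw q w l l') (a : α) :
    Sw q w (a :: l) (a :: l') := List.Forall₂.cons (Or.inl rfl) h

theorem Dl_small {q w : Ω} {ε : ℝ} (hε : 0 ≤ ε) : ∀ (ps : List (Ω × Ω)) (u : List Ω → ℂ),
    (∀ l l', Sw q w l l' → ‖u l - u l'‖ ≤ ε) → ((q, w) ∈ ps ∨ (w, q) ∈ ps) →
      ‖Dl ps u‖ ≤ 2 ^ ps.length * ε
  | [], _, _, h => by simp at h
  | z :: ps, u, h, hm => by
    by_cases hz : z = (q, w) ∨ z = (w, q)
    · simp only [Dl]
      rw [← Dl_sub]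
      refine (Dl_norm_le (ε := ε) ps _ fun l => h _ _ ?_).trans ?_
      · refine List.Forall₂.cons ?_ (Sw.refl q w l)
        rcases hz with rfl | rfl <;> simp
      · simp only [List.length_cons, pow_succ]
        have : 0 ≤ 2 ^ ps.length * ε := by positivity
        linarith
    · have hm' : (q, w) ∈ ps ∨ (w, q) ∈ ps := by
        simp only [List.mem_cons] at hm
        tauto
      have a := Dl_small hε ps (fun l => u (z.1 :: l)) (fun _ _ hl => h _ _ (hl.cons _)) hm'
      have b := Dl_small hε ps (fun l => u (z.2 :: l)) (fun _ _ hl => h _ _ (hl.cons _)) hm'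
      simp only [Dl, List.length_cons, pow_succ]
      exact (norm_sub_le _ _).trans (by linarith)

/-- consecutive pairs of a path starting at `c`. -/
def chn : Ω → List Ω → List (Ω × Ω)
  | _, [] => []
  | c, x :: xs => (c, x) :: chn x xs

theorem Dl_bdF : ∀ (xs : List Ω) (c : Ω) (v : List Ω → ℂ),
    Dl (chn c xs) (fun l => bdF (xs.getLastD c) l v) = Dl (chn c xs) (fun l => v (c :: l))
  | [], _, _ => rfl
  | x :: xs, c, v => by
    have h1 := Dl_bdF xs x (fun l => v (c :: l))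
    have h2 := Dl_bdF xs x (fun l => v (x :: l))
    simp only [chn, Dl, bdF, List.getLastD_cons]
    rw [Dl_sub, Dl_sub, h1, h2]
    ring

theorem Dl_cycle {xs : List Ω} {x : Ω} {v : List Ω → ℂ} (h : ∀ l, bdF (xs.getLastD x) l v = 0)
    (a c : Ω) : Dl ((a, x) :: chn x xs) (fun l => v (c :: l)) =
      Dl ((a, c) :: chn x xs) (fun l => v (c :: l)) := by
  have := Dl_bdF (x :: xs) c v
  simp only [List.getLastD_cons, h, Dl_zero, chn, Dl] at this ⊢
  linear_combination -this

theorem GBF.Dl {I J : Type} {C : ℝ} : ∀ (ps : List ((I → J → Ω) × (I → J → Ω)))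
    {U : I → J → List Ω → ℂ}, GBF ps.length U C → (∀ q ∈ ps, OneSide q.1 ∧ OneSide q.2) →
      G2 (fun i j => Dl (ps.map fun q => (q.1 i j, q.2 i j)) (U i j)) (2 ^ ps.length * C)
  | [], U, h, _ => by simpa [H7.Dl] using h [] rfl (by simp)
  | q :: ps, U, h, hq => by
    have h1 := hq q (by simp)
    have a := GBF.Dl ps (GBF.cons h h1.1) fun q hq' => hq q (by simp [hq'])
    have b := GBF.Dl ps (GBF.cons h h1.2) fun q hq' => hq q (by simp [hq'])
    refine ((a.sub b).mono (le_of_eq ?_)).congr fun i j => rfl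
    simp only [List.length_cons, pow_succ]; ring

variable [TopologicalSpace Ω] [CompactSpace Ω]

theorem signBdd_of_disjoint {Λ : Type*} (g : Λ → C(Ω, ℂ)) (h1 : ∀ c x, ‖g c x‖ ≤ 1)
    (h2 : ∀ c c', c ≠ c' → ∀ x, g c x = 0 ∨ g c' x = 0) : SignBdd g := by
  intro S ε hε
  refine (ContinuousMap.norm_le _ zero_le_one).mpr fun x => ?_
  simp only [ContinuousMap.coe_sum, ContinuousMap.coe_smul, Finset.sum_apply, Pi.smul_apply,
    smul_eq_mul]
  by_cases h : ∃ c ∈ S, g c x ≠ 0
  · obtain ⟨c, hc, hx⟩ := h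
    rw [Finset.sum_eq_single_of_mem c hc fun c' _ hne => by
      rw [(h2 c' c hne x).resolve_right hx, mul_zero], norm_mul]
    exact mul_le_one₀ (hε c) (norm_nonneg _) (h1 c x)
  · push Not at h
    rw [Finset.sum_eq_zero fun c hc => by rw [h c hc, mul_zero]]
    simp

theorem RData.uc_ultra {n : ℕ} {R : List C(Ω, ℂ) → Ω → List Ω → ℂ} {C : ℝ} (h : RData n R C)
    {W : Type*} [Countable W] (U : Ultrafilter W) {a : W → Ω} {q : Ω} (ha : Tendsto a U (𝓝 q))
    (fs : List C(Ω, ℂ)) (hfs : fs.length = n) {ε : ℝ} (hε : 0 < ε) :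
    ∀ᶠ w in (U : Filter W), Gd (R fs) ε q (a w) := by
  by_contra hcon
  rw [← Ultrafilter.eventually_not] at hcon
  obtain ⟨_, ⟨w, hw, rfl⟩, hg⟩ := h.uc fs hfs ε hε q (a '' {w | ¬ Gd (R fs) ε q (a w)})
    ((to_countable _).image a)
    (mem_closure_of_tendsto ha (hcon.mono fun w hw => mem_image_of_mem a hw))
  exact hw hg

end Pool.Agent.MP_75da70_an.H7
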