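import Pool.Agent.MP_75da70_an.H7.G2

/-
Sign averaging, the triangular-matrix lemma and a Bessel-type estimate.
-/

namespace Pool.Agent.MP_75da70_an.H7

open Filter Topology
open scoped InnerProductSpace

variable {I J : Type}

theorem sum_sign_mul {S : Type*} [Fintype S] [DecidableEq S] (a b : S) :
    ∑ ε : S → ℤˣ, (((ε a : ℤ) : ℂ) * ((ε b : ℤ) : ℂ)) =
      if a = b then (Fintype.card (S → ℤˣ) : ℂ) else 0 := by
  split_ifs with h
  · subst h
    have : ∀ ε : S → ℤˣ, (((ε a : ℤ) : ℂ) * ((ε a : ℤ) : ℂ)) = 1 := fun ε => by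
      rw [← Int.cast_mul, ← Units.val_mul, Int.units_mul_self]; simp
    simp [this]
  · let φ : (S → ℤˣ) ≃ (S → ℤˣ) := Equiv.mulLeft (Function.update 1 a (-1))
    have h1 : ∑ ε : S → ℤˣ, (((ε a : ℤ) : ℂ) * ((ε b : ℤ) : ℂ)) =
        ∑ ε : S → ℤˣ, (((φ ε a : ℤ) : ℂ) * ((φ ε b : ℤ) : ℂ)) :=
      (Equiv.sum_comp φ (fun ε => (((ε a : ℤ) : ℂ) * ((ε b : ℤ) : ℂ)))).symm
    have h2 : ∀ ε : S → ℤˣ, (((φ ε a : ℤ) : ℂ) * ((φ ε b : ℤ) : ℂ)) =
        - (((ε a : ℤ) : ℂ) * ((ε b : ℤ) : ℂ)) := fun ε => by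
      simp [φ, Function.update_of_ne (Ne.symm h)]
    simp only [h2, Finset.sum_neg_distrib] at h1
    linear_combination (1 / 2 : ℂ) * h1

theorem norm_sign (u : ℤˣ) : ‖((u : ℤ) : ℂ)‖ = 1 := by
  rcases Int.units_eq_one_or u with rfl | rfl <;> simp

/-- a two-index family depends only on the row index or only on the column index. -/
def OneSide {α : Type*} (c : I → J → α) : Prop :=
  (∃ a : I → α, ∀ i j, c i j = a i) ∨ (∃ b : J → α, ∀ i j, c i j = b j)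

theorem OneSide.row {α : Type*} (a : I → α) : OneSide (fun i (_ : J) => a i) :=
  Or.inl ⟨a, fun _ _ => rfl⟩

theorem OneSide.col {α : Type*} (b : J → α) : OneSide (fun (_ : I) j => b j) :=
  Or.inr ⟨b, fun _ _ => rfl⟩

theorem OneSide.const {α : Type*} (b : α) : OneSide (fun (_ : I) (_ : J) => b) :=
  Or.inr ⟨fun _ => b, fun _ _ => rfl⟩

theorem OneSide.map {α β : Type*} {c : I → J → α} (h : OneSide c) (f : α → β) :
    OneSide (fun i j => f (c i j)) := by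
  rcases h with ⟨a, ha⟩ | ⟨b, hb⟩
  · exact Or.inl ⟨fun i => f (a i), fun i j => congrArg f (ha i j)⟩
  · exact Or.inr ⟨fun j => f (b j), fun i j => congrArg f (hb i j)⟩

theorem G2.mul_oneSide {M : I → J → ℂ} {C : ℝ} (h : G2 M C) {c : I → J → ℂ} (hc : OneSide c)
    {r : ℝ} (hr : 0 ≤ r) (hb : ∀ i j, ‖c i j‖ ≤ r) : G2 (fun i j => c i j * M i j) (r * C) := by
  classical
  rcases hc with ⟨a, ha⟩ | ⟨b, hb'⟩
  · refine (h.mul_row (fun i => if ‖a i‖ ≤ r then a i else 0) hr (fun i => ?_)).congr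
      fun i j => ?_
    · split_ifs with h1
      · exact h1
      · simpa using hr
    · rw [if_pos (ha i j ▸ hb i j), ha]
  · refine (h.mul_col (fun j => if ‖b j‖ ≤ r then b j else 0) hr (fun j => ?_)).congr
      fun i j => ?_
    · split_ifs with h1
      · exact h1
      · simpa using hr
    · rw [if_pos (hb' i j ▸ hb i j), hb']

/-- sums with bounded coefficients have norm at most one. -/
def SignBdd {Λ V : Type*} [SeminormedAddCommGroup V] [NormedSpace ℂ V] (g : Λ → V) : Prop :=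
  ∀ (S : Finset Λ) (ε : Λ → ℂ), (∀ c, ‖ε c‖ ≤ 1) → ‖∑ c ∈ S, ε c • g c‖ ≤ 1

theorem G2.extract {Λ V : Type*} [SeminormedAddCommGroup V] [NormedSpace ℂ V]
    (Φ : V → I → J → ℂ) (hadd : ∀ f f' i j, Φ (f + f') i j = Φ f i j + Φ f' i j)
    (hsmul : ∀ (c : ℂ) f i j, Φ (c • f) i j = c * Φ f i j) {C : ℝ} (hC : 0 ≤ C)
    (hΦ : ∀ f, G2 (Φ f) (C * ‖f‖)) {g : Λ → V} (hg : SignBdd g) {lab : I → J → Λ}
    (hlab : OneSide lab) : G2 (fun i j => Φ (g (lab i j)) i j) C := by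
  classical
  have hsum : ∀ (S : Finset Λ) (w : Λ → V) i j, Φ (∑ c ∈ S, w c) i j = ∑ c ∈ S, Φ (w c) i j := by
    intro S w i j
    induction S using Finset.induction_on with
    | empty => simpa using hsmul 0 0 i j
    | insert a s ha ih => rw [Finset.sum_insert ha, Finset.sum_insert ha, hadd, ih]
  have key : ∀ S : Finset Λ,
      G2 (fun i j => if lab i j ∈ S then Φ (g (lab i j)) i j else 0) C := by
    intro S
    let e : (S → ℤˣ) → Λ → ℂ := fun ε c => if h : c ∈ S then ((ε ⟨c, h⟩ : ℤ) : ℂ) else 0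
    have he : ∀ ε c, ‖e ε c‖ ≤ 1 := fun ε c => by
      simp only [e]; split_ifs
      · exact (norm_sign _).le
      · simp
    let N : ℝ := Fintype.card (S → ℤˣ)
    have hN : 0 < N := by simp only [N]; exact_mod_cast Fintype.card_pos
    have h1 : ∀ ε : S → ℤˣ,
        G2 (fun i j => e ε (lab i j) * Φ (∑ c ∈ S, e ε c • g c) i j) C := fun ε => by
      have := ((hΦ (∑ c ∈ S, e ε c • g c)).mul_oneSide (hlab.map (e ε)) zero_le_one
        (fun i j => he _ _))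
      refine this.mono ?_
      rw [one_mul]
      exact mul_le_of_le_one_right hC (hg S _ (he ε))
    have h2 := (G2.sum Finset.univ (fun ε _ => h1 ε)).smul_real (inv_pos.mpr hN).le
    have h3 : N⁻¹ * ∑ _ε : S → ℤˣ, C = C := by
      rw [Finset.sum_const, Finset.card_univ, nsmul_eq_mul]
      field_simp
      rfl
    rw [h3] at h2
    refine h2.congr fun i j => ?_
    simp only [hsum, hsmul, Finset.mul_sum]
    rw [Finset.sum_comm]
    have hNc : (N : ℂ) ≠ 0 := by exact_mod_cast hN.ne'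
    split_ifs with hl
    · rw [Finset.sum_eq_single (lab i j)]
      · simp only [e, dif_pos hl, ← mul_assoc]
        rw [← Finset.sum_mul]
        simp only [mul_assoc]
        rw [← Finset.mul_sum, sum_sign_mul, if_pos rfl]
        have : ((Fintype.card (S → ℤˣ) : ℕ) : ℂ) = (N : ℂ) := by simp [N]
        rw [this]; push_cast; field_simp
      · intro c hc hne
        simp only [e, dif_pos hl, dif_pos hc, ← mul_assoc]
        rw [← Finset.sum_mul]
        simp only [mul_assoc]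
        rw [← Finset.mul_sum, sum_sign_mul, if_neg (by simpa using hne.symm)]
        simp
      · intro h; exact absurd hl h
    · simp [e, dif_neg hl]
  refine G2.of_tendsto (atTop : Filter (Finset Λ)) (Eventually.of_forall key) tendsto_const_nhds
    fun i j => ?_
  refine tendsto_const_nhds.congr' ?_
  filter_upwards [eventually_ge_atTop ({lab i j} : Finset Λ)] with S hS
  rw [if_pos (hS (Finset.mem_singleton_self _))]

theorem exists_weak_ulim {H : Type*} [NormedAddCommGroup H] [InnerProductSpace ℂ H]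
    [CompleteSpace H] {ι : Type*} (U : Ultrafilter ι) (η : ι → H) {B : ℝ} (hB : ∀ k, ‖η k‖ ≤ B) :
    ∃ z : H, ∀ v, Tendsto (fun k => ⟪η k, v⟫_ℂ) U (𝓝 ⟪z, v⟫_ℂ) := by
  have hb : ∀ v, ∀ᶠ k in (U : Filter ι), ‖⟪η k, v⟫_ℂ‖ ≤ B * ‖v‖ := fun v =>
    Eventually.of_forall fun k =>
      (norm_inner_le_norm _ _).trans (mul_le_mul_of_nonneg_right (hB k) (norm_nonneg _))
  choose L hL using fun v => exists_ulim U (fun k => ⟪η k, v⟫_ℂ) (hb v)
  let L' : H →ₗ[ℂ] ℂ :=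
    { toFun := L
      map_add' := fun v w => tendsto_nhds_unique (hL (v + w)) (by
        simpa [inner_add_right] using (hL v).add (hL w))
      map_smul' := fun c v => tendsto_nhds_unique (hL (c • v)) (by
        simpa [inner_smul_right] using (hL v).const_mul c) }
  let L'' : H →L[ℂ] ℂ := L'.mkContinuous B fun v => le_of_tendsto (hL v).norm (hb v)
  refine ⟨(InnerProductSpace.toDual ℂ H).symm L'', fun v => ?_⟩
  rw [InnerProductSpace.toDual_symm_apply]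
  exact hL v

theorem G2.triangular {M : ℕ → ℕ → ℂ} {C ε ε' : ℝ} {c : ℂ} (h : G2 M C)
    (h1 : ∀ i j, i < j → ‖M i j‖ ≤ ε) (h2 : ∀ i j, j ≤ i → ‖M i j - c‖ ≤ ε') :
    ‖c‖ ≤ ε + ε' := by
  obtain ⟨H, _, _, _, ξ, η, hξ, hη, h⟩ := h.hilbert
  let U := hyperfilter ℕ
  have hU : (U : Filter ℕ) ≤ atTop := Nat.hyperfilter_le_atTop
  obtain ⟨x, hx⟩ := exists_weak_ulim U ξ (B := √C) fun k => Real.le_sqrt_of_sq_le (hξ k)
  obtain ⟨y, hy⟩ := exists_weak_ulim U η (B := √C) fun k => Real.le_sqrt_of_sq_le (hη k)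
  have hy' : ∀ v, Tendsto (fun k => ⟪v, η k⟫_ℂ) U (𝓝 ⟪v, y⟫_ℂ) := fun v => by
    have := (Complex.continuous_conj.tendsto _).comp (hy v)
    simpa [Function.comp_def] using this
  have a1 : ∀ i, ‖⟪ξ i, y⟫_ℂ‖ ≤ ε := fun i => by
    refine le_of_tendsto (hy' (ξ i)).norm ?_
    filter_upwards [hU (eventually_gt_atTop i)] with j hj
    rw [h]; exact h1 i j hj
  have a2 : ∀ j, ‖⟪x, η j⟫_ℂ - c‖ ≤ ε' := fun j => by
    refine le_of_tendsto ((hx (η j)).sub_const c).norm ?_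
    filter_upwards [hU (eventually_ge_atTop j)] with i hi
    rw [h]; exact h2 i j hi
  have b1 : ‖⟪x, y⟫_ℂ‖ ≤ ε := le_of_tendsto (hx y).norm (Eventually.of_forall a1)
  have b2 : ‖⟪x, y⟫_ℂ - c‖ ≤ ε' := le_of_tendsto ((hy' x).sub_const c).norm (Eventually.of_forall a2)
  calc ‖c‖ = ‖⟪x, y⟫_ℂ - (⟪x, y⟫_ℂ - c)‖ := by simp
    _ ≤ ε + ε' := (norm_sub_le _ _).trans (add_le_add b1 b2)

/-- Hilbert representation in which rows that tend to zero entrywise tend to zero weakly. -/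
theorem G2.hilbert' {M : I → J → ℂ} {C : ℝ} (h : G2 M C) :
    ∃ (H : Type) (_ : NormedAddCommGroup H) (_ : InnerProductSpace ℂ H)
      (ξ : I → H) (η : J → H), (∀ i, ‖ξ i‖ ^ 2 ≤ C) ∧ (∀ j, ‖η j‖ ^ 2 ≤ C) ∧
        (∀ i j, ⟪ξ i, η j⟫_ℂ = M i j) ∧
        ∀ (W : Type) (F : Filter W) (a : W → I), (∀ j, Tendsto (fun w => M (a w) j) F (𝓝 0)) →
          ∀ i, Tendsto (fun w => ⟪ξ (a w), ξ i⟫_ℂ) F (𝓝 0) := by
  obtain ⟨H, i1, i2, i3, ξ, η, hξ, hη, h⟩ := h.hilbert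
  let S : Submodule ℂ H := (Submodule.span ℂ (Set.range η)).topologicalClosure
  have hηS : ∀ j, η j ∈ S := fun j =>
    Submodule.le_topologicalClosure _ (Submodule.subset_span ⟨j, rfl⟩)
  have hin : ∀ i v, v ∈ S → ⟪S.starProjection (ξ i), v⟫_ℂ = ⟪ξ i, v⟫_ℂ := fun i v hv => by
    rw [Submodule.inner_starProjection_left_eq_right, Submodule.starProjection_eq_self_iff.mpr hv]
  refine ⟨H, i1, i2, fun i => S.starProjection (ξ i), η, fun i => ?_, hη, fun i j => ?_,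
    fun W F a ha i => ?_⟩
  · exact (pow_le_pow_left₀ (norm_nonneg _) (S.norm_starProjection_apply_le _) 2).trans (hξ i)
  · rw [hin _ _ (hηS j), h]
  · have hv : S.starProjection (ξ i) ∈ S := S.starProjection_apply_mem _
    simp only [hin _ _ hv]
    generalize S.starProjection (ξ i) = v at hv
    have hspan : ∀ v ∈ Submodule.span ℂ (Set.range η),
        Tendsto (fun w => ⟪ξ (a w), v⟫_ℂ) F (𝓝 0) := by
      intro v hv
      induction hv using Submodule.span_induction with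
      | mem x hx => obtain ⟨j, rfl⟩ := hx; simpa [h] using ha j
      | zero => simpa using tendsto_const_nhds
      | add x y _ _ hx hy => simpa [inner_add_right] using hx.add hy
      | smul c x _ hx => simpa [inner_smul_right] using hx.const_mul c
    rw [Metric.tendsto_nhds]
    intro ε hε
    have hC : 0 < √C + 1 := by positivity
    obtain ⟨v', hv', hd⟩ := Metric.mem_closure_iff.mp hv (ε / 2 / (√C + 1)) (by positivity)
    filter_upwards [Metric.tendsto_nhds.mp (hspan v' hv') (ε / 2) (by positivity)] with w hw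
    rw [dist_zero_right] at hw ⊢
    have e1 : ⟪ξ (a w), v⟫_ℂ = ⟪ξ (a w), v'⟫_ℂ + ⟪ξ (a w), v - v'⟫_ℂ := by
      rw [inner_sub_right]; ring
    have e2 : ‖⟪ξ (a w), v - v'⟫_ℂ‖ ≤ ε / 2 := by
      refine (norm_inner_le_norm _ _).trans ?_
      have h1 : ‖ξ (a w)‖ ≤ √C + 1 := (Real.le_sqrt_of_sq_le (hξ _)).trans (by linarith)
      rw [dist_eq_norm] at hd
      calc ‖ξ (a w)‖ * ‖v - v'‖ ≤ (√C + 1) * (ε / 2 / (√C + 1)) :=
            mul_le_mul h1 hd.le (norm_nonneg _) hC.le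
        _ = ε / 2 := by field_simp
    rw [e1]
    exact (norm_add_le _ _).trans_lt (by linarith)

theorem bessel_estimate {H : Type*} [NormedAddCommGroup H] [InnerProductSpace ℂ H] {R : ℕ}
    (ζ : Fin R → H) (η : H) {C ε δ : ℝ} (hε : 0 ≤ ε) (hδ : 0 ≤ δ) (h1 : ∀ r, ‖ζ r‖ ^ 2 ≤ C)
    (h2 : ‖η‖ ^ 2 ≤ C) (h3 : ∀ r, ε ≤ ‖⟪ζ r, η⟫_ℂ‖)
    (h4 : ∀ r s, r ≠ s → ‖⟪ζ r, ζ s⟫_ℂ‖ ≤ δ) :
    (R * ε) ^ 2 ≤ C * (R * C + R * R * δ) := by
  have hC : 0 ≤ C := (sq_nonneg _).trans h2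
  have hθ : ∀ r, ∃ θ : ℂ, ‖θ‖ ≤ 1 ∧ ⟪θ • ζ r, η⟫_ℂ = (‖⟪ζ r, η⟫_ℂ‖ : ℂ) := fun r => by
    rcases eq_or_ne ⟪ζ r, η⟫_ℂ 0 with h | h
    · exact ⟨0, by simp, by simp [h]⟩
    · refine ⟨⟪ζ r, η⟫_ℂ / ‖⟪ζ r, η⟫_ℂ‖, ?_, ?_⟩
      · rw [norm_div, Complex.norm_real, norm_norm, div_self (norm_ne_zero_iff.mpr h)]
      · rw [inner_smul_left, map_div₀, Complex.conj_ofReal, div_mul_eq_mul_div,
          Complex.conj_mul']
        have : (‖⟪ζ r, η⟫_ℂ‖ : ℂ) ≠ 0 := by exact_mod_cast norm_ne_zero_iff.mpr h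
        field_simp
  choose θ hθ1 hθ2 using hθ
  let z : H := ∑ r, θ r • ζ r
  have a1 : R * ε ≤ ‖⟪z, η⟫_ℂ‖ := by
    have : ⟪z, η⟫_ℂ = ((∑ r, ‖⟪ζ r, η⟫_ℂ‖ : ℝ) : ℂ) := by
      simp only [z, sum_inner, hθ2]; push_cast; rfl
    rw [this, Complex.norm_real, Real.norm_of_nonneg (Finset.sum_nonneg fun _ _ => norm_nonneg _)]
    calc (R : ℝ) * ε = ∑ _r : Fin R, ε := by simp
      _ ≤ _ := Finset.sum_le_sum fun r _ => h3 r
  have a2 : ‖z‖ ^ 2 ≤ R * C + R * R * δ := by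
    have e : ‖z‖ ^ 2 = ‖⟪z, z⟫_ℂ‖ := by rw [inner_self_eq_norm_sq_to_K]; simp
    rw [e]
    simp only [z, sum_inner, inner_sum]
    have b : ∀ r s, ‖⟪θ r • ζ r, θ s • ζ s⟫_ℂ‖ ≤ (if r = s then C else 0) + δ := fun r s => by
      have : ‖⟪θ r • ζ r, θ s • ζ s⟫_ℂ‖ ≤ ‖⟪ζ r, ζ s⟫_ℂ‖ := by
        rw [inner_smul_left, inner_smul_right, norm_mul, norm_mul, RCLike.norm_conj]
        calc ‖θ r‖ * (‖θ s‖ * ‖⟪ζ r, ζ s⟫_ℂ‖) ≤ 1 * (1 * ‖⟪ζ r, ζ s⟫_ℂ‖) := by
              gcongr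
              · exact hθ1 r
              · exact hθ1 s
          _ = _ := by ring
      refine this.trans ?_
      split_ifs with hrs
      · subst hrs
        rw [inner_self_eq_norm_sq_to_K]
        have := h1 r
        simp only [norm_pow, RCLike.norm_ofReal, abs_norm]
        linarith
      · simpa using h4 r s hrs
    calc _ ≤ ∑ s, ∑ r, ‖⟪θ r • ζ r, θ s • ζ s⟫_ℂ‖ :=
          (norm_sum_le _ _).trans (Finset.sum_le_sum fun s _ => norm_sum_le _ _)
      _ ≤ ∑ s : Fin R, ∑ r : Fin R, ((if r = s then C else 0) + δ) :=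
          Finset.sum_le_sum fun s _ => Finset.sum_le_sum fun r _ => b r s
      _ = R * C + R * R * δ := by
          simp [Finset.sum_add_distrib]; ring
  have a3 : ‖⟪z, η⟫_ℂ‖ ≤ ‖z‖ * ‖η‖ := norm_inner_le_norm _ _
  calc (R * ε) ^ 2 ≤ (‖z‖ * ‖η‖) ^ 2 :=
        pow_le_pow_left₀ (by positivity) (a1.trans a3) 2
    _ = ‖η‖ ^ 2 * ‖z‖ ^ 2 := by ring
    _ ≤ C * (R * C + R * R * δ) := mul_le_mul h2 a2 (sq_nonneg _) hC

end Pool.Agent.MP_75da70_an.H7
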