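import Pool.Agent.MP_75da70_an.H7.Step
import Pool.Agent.MP_75da70_an.H7.G2b

/-
Modules that are essential with respect to a family of orthogonal idempotents.
-/

namespace Pool.Agent.MP_75da70_an.H7

open Filter Topology

universe u

theorem norm_sum_bilin {E F G Λ : Type*} [NormedAddCommGroup E] [NormedSpace ℂ E]
    [NormedAddCommGroup F] [NormedSpace ℂ F] [NormedAddCommGroup G] [NormedSpace ℂ G]
    (β : E →L[ℂ] F →L[ℂ] G) (S : Finset Λ) (x : Λ → E) (y : Λ → F) {a b : ℝ}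
    (hx : ∀ ε : Λ → ℂ, (∀ c, ‖ε c‖ ≤ 1) → ‖∑ c ∈ S, ε c • x c‖ ≤ a)
    (hy : ∀ ε : Λ → ℂ, (∀ c, ‖ε c‖ ≤ 1) → ‖∑ c ∈ S, ε c • y c‖ ≤ b) :
    ‖∑ c ∈ S, β (x c) (y c)‖ ≤ ‖β‖ * a * b := by
  classical
  let e : (S → ℤˣ) → Λ → ℂ := fun ε c => if h : c ∈ S then ((ε ⟨c, h⟩ : ℤ) : ℂ) else 0
  have he : ∀ ε c, ‖e ε c‖ ≤ 1 := fun ε c => by
    simp only [e]; split_ifs
    · exact (norm_sign _).le
    · simp
  have ha : 0 ≤ a := (norm_nonneg _).trans (hx 0 (by simp))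
  have hN : (0 : ℝ) < Fintype.card (S → ℤˣ) := by exact_mod_cast Fintype.card_pos
  have h1 : ∑ ε : S → ℤˣ, β (∑ c ∈ S, e ε c • x c) (∑ c ∈ S, e ε c • y c) =
      (Fintype.card (S → ℤˣ) : ℂ) • ∑ c ∈ S, β (x c) (y c) := by
    simp only [map_sum, map_smul, sum_apply, smul_apply, Finset.smul_sum, smul_smul]
    rw [Finset.sum_comm]
    refine Finset.sum_congr rfl fun c hc => ?_
    rw [Finset.sum_comm, Finset.sum_eq_single c]
    · rw [← Finset.sum_smul]
      simp only [e, dif_pos hc]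
      rw [sum_sign_mul, if_pos rfl]
    · intro c' hc' hne
      rw [← Finset.sum_smul]
      simp only [e, dif_pos hc, dif_pos hc']
      rw [sum_sign_mul, if_neg (by simpa using hne.symm), zero_smul]
    · intro h; exact absurd hc h
  have h2 : ‖∑ ε : S → ℤˣ, β (∑ c ∈ S, e ε c • x c) (∑ c ∈ S, e ε c • y c)‖ ≤
      Fintype.card (S → ℤˣ) * (‖β‖ * a * b) := by
    refine (norm_sum_le _ _).trans ?_
    refine (Finset.sum_le_card_nsmul _ _ (‖β‖ * a * b) fun ε _ => ?_).trans (by simp)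
    refine (β.le_opNorm₂ _ _).trans ?_
    gcongr
    · exact hx _ (he ε)
    · exact hy _ (he ε)
  rw [h1, norm_smul, Complex.norm_natCast] at h2
  exact le_of_mul_le_mul_left h2 hN

variable {A : Type u} [NonUnitalNormedRing A] [NormedSpace ℂ A] {Λ : Type*}

/-- finite sums of the family form an approximate identity for the module. -/
def Ess (e : Λ → A) (Z : BanMod A) : Prop :=
  ∀ z, Tendsto (fun S : Finset Λ => Z.act (∑ v ∈ S, e v) z) atTop (𝓝 z)

variable {e : Λ → A} {Z : BanMod A} {G : Type*} [NormedAddCommGroup G] [NormedSpace ℂ G]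

theorem Ess.ext (h : Ess e Z) {φ ψ : Z.carrier →L[ℂ] G}
    (H : ∀ v z, φ (Z.act (e v) z) = ψ (Z.act (e v) z)) : φ = ψ := by
  ext z
  refine tendsto_nhds_unique ((φ.continuous.tendsto z).comp (h z))
    (((ψ.continuous.tendsto z).comp (h z)).congr fun S => ?_)
  simp [H]

theorem Ess.ext_tm (h : Ess e Z) {E : Type u} [NormedAddCommGroup E] [NormedSpace ℂ E]
    {φ ψ : PT E Z.carrier →L[ℂ] G}
    (H : ∀ f v z, φ (tm E Z.carrier f (Z.act (e v) z)) = ψ (tm E Z.carrier f (Z.act (e v) z)))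
    (t) : φ t = ψ t :=
  DFunLike.congr_fun (PT.ext fun f z => DFunLike.congr_fun (h.ext
    (φ := φ.comp (tm E Z.carrier f)) (ψ := ψ.comp (tm E Z.carrier f)) (H f)) z) t

theorem Ess.exists_sum [CompleteSpace G] (h : Ess e Z) (L : Λ → Z.carrier →L[ℂ] G) (C : ℝ)
    (hb : ∀ (S : Finset Λ) z, ‖∑ v ∈ S, L v z‖ ≤ C * ‖z‖)
    (ho : ∀ v w z, w ≠ v → L w (Z.act (e v) z) = 0) :
    ∃ T : Z.carrier →L[ℂ] G, ∀ v z, T (Z.act (e v) z) = L v (Z.act (e v) z) := by
  classical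
  let p : (Λ →₀ Z.carrier) →ₗ[ℂ] Z.carrier := Finsupp.lsum ℂ fun v => (Z.act (e v)).toLinearMap
  let f : (Λ →₀ Z.carrier) →ₗ[ℂ] G := Finsupp.lsum ℂ fun v => ((L v).comp (Z.act (e v))).toLinearMap
  have hd : DenseRange p := fun z => by
    refine mem_closure_of_tendsto (h z) (Eventually.of_forall fun S => ⟨∑ v ∈ S, .single v z, ?_⟩)
    simp [p]
  have hn : ∀ x, ‖f x‖ ≤ C * ‖p x‖ := fun x => by
    have : f x = ∑ v ∈ x.support, L v (p x) := by
      simp only [f, p, Finsupp.coe_lsum, Finsupp.sum, map_sum, ContinuousLinearMap.coe_coe,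
        ContinuousLinearMap.comp_apply]
      refine Finset.sum_congr rfl fun v hv => ?_
      rw [Finset.sum_eq_single_of_mem v hv fun w _ hw => ho w v _ hw.symm]
    rw [this]; exact hb _ _
  refine ⟨f.extendOfNorm p, fun v z => ?_⟩
  have := LinearMap.extendOfNorm_eq hd ⟨C, hn⟩ (.single v z)
  simpa [p, f] using this

theorem SignBdd.act (he : SignBdd e) (Z : BanMod A) (z : Z.carrier) (S : Finset Λ) (ε : Λ → ℂ)
    (hε : ∀ c, ‖ε c‖ ≤ 1) : ‖∑ c ∈ S, ε c • Z.act (e c) z‖ ≤ ‖Z.act‖ * ‖z‖ := by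
  have h1 : ∑ c ∈ S, ε c • Z.act (e c) z = Z.act (∑ c ∈ S, ε c • e c) z := by simp
  rw [h1]
  refine (Z.norm_act_le _ _).trans (mul_le_mul_of_nonneg_right ?_ (norm_nonneg _))
  exact mul_le_of_le_one_right (ContinuousLinearMap.opNorm_nonneg _) (he S ε hε)

theorem Ess.exists_Q (h : Ess e Z) (he : SignBdd e) (ho : ∀ v w, w ≠ v → e w * e v = 0)
    (hi : ∀ v, e v * e v = e v) (J : BanMod A) :
    ∃ Q : PT J.carrier Z.carrier →L[ℂ] PT J.carrier Z.carrier, ∀ f v z,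
      Q (tm _ _ f (Z.act (e v) z)) = tm _ _ (J.act (e v) f) (Z.act (e v) z) := by
  obtain ⟨T, hT⟩ := h.exists_sum (G := J.carrier →L[ℂ] PT J.carrier Z.carrier)
    (fun v => ((tm J.carrier Z.carrier).bilinearComp (J.act (e v)) (Z.act (e v))).flip)
    (‖tm J.carrier Z.carrier‖ * ‖J.act‖ * ‖Z.act‖) (fun S z => by
      refine ContinuousLinearMap.opNorm_le_bound _ (by positivity) fun f => ?_
      simp only [sum_apply, ContinuousLinearMap.flip_apply, ContinuousLinearMap.bilinearComp_apply]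
      refine (norm_sum_bilin _ S _ _ (he.act J f S) (he.act Z z S)).trans (le_of_eq ?_)
      ring) (fun v w z hw => by
      ext f
      simp [← Z.act_mul, ho v w hw])
  refine ⟨PT.lift T.flip, fun f v z => ?_⟩
  simp [hT, ← Z.act_mul, hi]

theorem Ess.exists_rho (h : Ess e Z) (he : SignBdd e) (ho : ∀ v w, w ≠ v → e w * e v = 0)
    (hi : ∀ v, e v * e v = e v) {E : Type u} [NormedAddCommGroup E] [NormedSpace ℂ E]
    (e' : Λ → E) (he' : SignBdd e') :
    ∃ ρ : Z.carrier →L[ℂ] PT E Z.carrier, ∀ v z,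
      ρ (Z.act (e v) z) = tm _ _ (e' v) (Z.act (e v) z) := by
  obtain ⟨T, hT⟩ := h.exists_sum (fun v => (tm E Z.carrier (e' v)).comp (Z.act (e v)))
    (‖tm E Z.carrier‖ * ‖Z.act‖) (fun S z => by
      simp only [ContinuousLinearMap.comp_apply]
      refine (norm_sum_bilin _ S _ _ (he' S) (he.act Z z S)).trans (le_of_eq ?_)
      ring) (fun v w z hw => by simp [← Z.act_mul, ho v w hw])
  exact ⟨T, fun v z => by simp [hT, ← Z.act_mul, hi]⟩

end Pool.Agent.MP_75da70_an.H7
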