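import Mathlib

/-
Matrices that factor through Hilbert space with bounded vectors.
-/

namespace Pool.Agent.MP_75da70_an.H7

open Filter Topology
open scoped InnerProductSpace ComplexOrder

variable {I J : Type}

/-- `M` is the off-diagonal block of a positive semidefinite kernel with diagonal at most `C`. -/
def G2 (M : I → J → ℂ) (C : ℝ) : Prop :=
  ∃ K : Matrix (I ⊕ J) (I ⊕ J) ℂ, K.PosSemidef ∧ (∀ z, ‖K z z‖ ≤ C) ∧
    ∀ i j, K (Sum.inl i) (Sum.inr j) = M i j

theorem exists_hilbert_of_psd {Z : Type} (K : Matrix Z Z ℂ) (hK : K.PosSemidef) :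
    ∃ (H : Type) (_ : NormedAddCommGroup H) (_ : InnerProductSpace ℂ H) (_ : CompleteSpace H)
      (v : Z → H), ∀ z z', ⟪v z, v z'⟫_ℂ = K z z' := by
  let K' : Matrix Z Z (ℂ →L[ℂ] ℂ) := Matrix.of fun x y => K x y • (1 : ℂ →L[ℂ] ℂ)
  have hK' : K'.PosSemidef := by
    have h := (RKHS.posSemidef_tfae (K := K')).out 2 0
    refine h.mp ⟨?_, fun vv => ?_⟩
    · ext x y
      have := hK.1.apply x y
      simp [K', Matrix.conjTranspose_apply, star_smul, ← this]
    · have h2 := hK.2 vv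
      have h3 : (vv.sum fun x w => vv.sum fun x' w' => ⟪K' x' x w, w'⟫_ℂ) =
          vv.sum fun a b => vv.sum fun j xj => star b * K a j * xj := by
        refine Finsupp.sum_congr fun a _ => Finsupp.sum_congr fun b _ => ?_
        have := hK.1.apply a b
        simp only [K', Matrix.of_apply, smul_apply,
          one_apply_eq_self, smul_eq_mul, RCLike.inner_apply, map_mul]
        rw [← this]
        simp only [RCLike.star_def]
        ring
      rw [h3]
      exact (Complex.le_def.mp h2).1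
  have : Fact K'.PosSemidef := ⟨hK'⟩
  refine ⟨RKHS.OfKernel K', inferInstance, inferInstance, inferInstance,
    fun z => RKHS.kerFun (RKHS.OfKernel K') z 1, fun z z' => ?_⟩
  rw [RKHS.kerFun_inner, RKHS.kerFun_apply, RKHS.OfKernel.kernel_ofKernel]
  simp [K']

theorem G2.hilbert {M : I → J → ℂ} {C : ℝ} (h : G2 M C) :
    ∃ (H : Type) (_ : NormedAddCommGroup H) (_ : InnerProductSpace ℂ H) (_ : CompleteSpace H)
      (ξ : I → H) (η : J → H), (∀ i, ‖ξ i‖ ^ 2 ≤ C) ∧ (∀ j, ‖η j‖ ^ 2 ≤ C) ∧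
        ∀ i j, ⟪ξ i, η j⟫_ℂ = M i j := by
  obtain ⟨K, hK, hd, hM⟩ := h
  obtain ⟨H, i1, i2, i3, v, hv⟩ := exists_hilbert_of_psd K hK
  have hn : ∀ z, ‖v z‖ ^ 2 ≤ C := fun z => by
    have := hd z
    rw [← hv, inner_self_eq_norm_sq_to_K] at this
    simpa using this
  exact ⟨H, i1, i2, i3, fun i => v (.inl i), fun j => v (.inr j), fun i => hn _, fun j => hn _,
    fun i j => by rw [hv, hM]⟩

theorem psd_gram {H : Type*} [NormedAddCommGroup H] [InnerProductSpace ℂ H] {Z : Type}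
    (v : Z → H) : (Matrix.gram ℂ v).PosSemidef := by
  refine ⟨Matrix.isHermitian_gram ℂ v, fun x => ?_⟩
  have : (x.sum fun i xi => x.sum fun j xj => star xi * Matrix.gram ℂ v i j * xj) =
      ⟪x.sum fun i xi => xi • v i, x.sum fun i xi => xi • v i⟫_ℂ := by
    simp only [Finsupp.sum, sum_inner, inner_sum, inner_smul_left, inner_smul_right,
      Matrix.gram_apply, RCLike.star_def, Finset.mul_sum]
    rw [Finset.sum_comm]
    refine Finset.sum_congr rfl fun i _ => Finset.sum_congr rfl fun j _ => ?_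
    ring
  rw [this, inner_self_eq_norm_sq_to_K]
  simp

theorem G2.of_hilbert {H : Type*} [NormedAddCommGroup H] [InnerProductSpace ℂ H]
    {M : I → J → ℂ} {C : ℝ} (ξ : I → H) (η : J → H) (h1 : ∀ i, ‖ξ i‖ ^ 2 ≤ C)
    (h2 : ∀ j, ‖η j‖ ^ 2 ≤ C) (h : ∀ i j, ⟪ξ i, η j⟫_ℂ = M i j) : G2 M C := by
  refine ⟨Matrix.gram ℂ (Sum.elim ξ η), psd_gram _, fun z => ?_, fun i j => ?_⟩
  · rw [Matrix.gram_apply, inner_self_eq_norm_sq_to_K]
    rcases z with i | j
    · simpa using h1 i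
    · simpa using h2 j
  · rw [Matrix.gram_apply]; exact h i j

theorem G2.norm_le {M : I → J → ℂ} {C : ℝ} (h : G2 M C) (i : I) (j : J) : ‖M i j‖ ≤ C := by
  obtain ⟨H, _, _, _, ξ, η, h1, h2, h⟩ := h.hilbert
  rw [← h]
  have := norm_inner_le_norm (𝕜 := ℂ) (ξ i) (η j)
  nlinarith [h1 i, h2 j, norm_nonneg (ξ i), norm_nonneg (η j), sq_nonneg (‖ξ i‖ - ‖η j‖)]

theorem G2.mono {M : I → J → ℂ} {C C' : ℝ} (h : G2 M C) (hC : C ≤ C') : G2 M C' := by
  obtain ⟨K, hK, hd, hM⟩ := h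
  exact ⟨K, hK, fun z => (hd z).trans hC, hM⟩

theorem G2.congr {M M' : I → J → ℂ} {C : ℝ} (h : G2 M C) (hM : ∀ i j, M i j = M' i j) :
    G2 M' C := by
  have : M = M' := by funext i j; exact hM i j
  exact this ▸ h

theorem G2.zero {C : ℝ} (hC : 0 ≤ C) : G2 (fun (_ : I) (_ : J) => (0 : ℂ)) C :=
  ⟨0, Matrix.PosSemidef.zero, fun z => by simpa using hC, fun _ _ => rfl⟩

theorem G2.add {M M' : I → J → ℂ} {C C' : ℝ} (h : G2 M C) (h' : G2 M' C') :
    G2 (fun i j => M i j + M' i j) (C + C') := by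
  obtain ⟨K, hK, hd, hM⟩ := h
  obtain ⟨K', hK', hd', hM'⟩ := h'
  refine ⟨K + K', hK.add hK', fun z => ?_, fun i j => by simp [hM, hM']⟩
  exact (norm_add_le _ _).trans (add_le_add (hd z) (hd' z))

/-- multiplication by a row function and a column function bounded by one. -/
theorem G2.mul_row_col {M : I → J → ℂ} {C : ℝ} (h : G2 M C) (a : I → ℂ) (b : J → ℂ)
    (ha : ∀ i, ‖a i‖ ≤ 1) (hb : ∀ j, ‖b j‖ ≤ 1) : G2 (fun i j => a i * b j * M i j) C := by
  obtain ⟨H, _, _, _, ξ, η, h1, h2, h⟩ := h.hilbert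
  refine G2.of_hilbert (fun i => (starRingEnd ℂ) (a i) • ξ i) (fun j => b j • η j) (fun i => ?_)
    (fun j => ?_) (fun i j => ?_)
  · rw [norm_smul, mul_pow, RCLike.norm_conj]
    have : ‖a i‖ ^ 2 ≤ 1 := pow_le_one₀ (norm_nonneg _) (ha i)
    nlinarith [h1 i, sq_nonneg ‖ξ i‖]
  · rw [norm_smul, mul_pow]
    have : ‖b j‖ ^ 2 ≤ 1 := pow_le_one₀ (norm_nonneg _) (hb j)
    nlinarith [h2 j, sq_nonneg ‖η j‖]
  · rw [inner_smul_left, inner_smul_right, h]; simp [mul_assoc]

theorem G2.smul_real {M : I → J → ℂ} {C : ℝ} (h : G2 M C) {r : ℝ} (hr : 0 ≤ r) :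
    G2 (fun i j => (r : ℂ) * M i j) (r * C) := by
  obtain ⟨H, _, _, _, ξ, η, h1, h2, h⟩ := h.hilbert
  have hs : ‖((√r : ℝ) : ℂ)‖ ^ 2 = r := by
    rw [Complex.norm_real, Real.norm_of_nonneg (Real.sqrt_nonneg _), Real.sq_sqrt hr]
  refine G2.of_hilbert (fun i => ((√r : ℝ) : ℂ) • ξ i) (fun j => ((√r : ℝ) : ℂ) • η j)
    (fun i => ?_) (fun j => ?_) (fun i j => ?_)
  · rw [norm_smul, mul_pow, hs]; exact mul_le_mul_of_nonneg_left (h1 i) hr
  · rw [norm_smul, mul_pow, hs]; exact mul_le_mul_of_nonneg_left (h2 j) hr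
  · rw [inner_smul_left, inner_smul_right, h, Complex.conj_ofReal, ← mul_assoc,
      ← Complex.ofReal_mul, Real.mul_self_sqrt hr]

theorem G2.mul_row {M : I → J → ℂ} {C : ℝ} (h : G2 M C) (a : I → ℂ) {r : ℝ} (hr : 0 ≤ r)
    (ha : ∀ i, ‖a i‖ ≤ r) : G2 (fun i j => a i * M i j) (r * C) := by
  rcases hr.eq_or_lt with rfl | hr'
  · refine (G2.zero (by simp)).congr fun i j => ?_
    have : a i = 0 := norm_le_zero_iff.mp (ha i)
    simp [this]
  · refine ((h.smul_real hr).mul_row_col (fun i => a i / r) (fun _ => 1) (fun i => ?_)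
      (by simp)).congr fun i j => ?_
    · rw [norm_div, Complex.norm_real, Real.norm_of_nonneg hr, div_le_one hr']; exact ha i
    · have : (r : ℂ) ≠ 0 := by exact_mod_cast hr'.ne'
      field_simp

theorem G2.mul_col {M : I → J → ℂ} {C : ℝ} (h : G2 M C) (b : J → ℂ) {r : ℝ} (hr : 0 ≤ r)
    (hb : ∀ j, ‖b j‖ ≤ r) : G2 (fun i j => b j * M i j) (r * C) := by
  rcases hr.eq_or_lt with rfl | hr'
  · refine (G2.zero (by simp)).congr fun i j => ?_
    have : b j = 0 := norm_le_zero_iff.mp (hb j)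
    simp [this]
  · refine ((h.smul_real hr).mul_row_col (fun _ => 1) (fun j => b j / r) (by simp)
      (fun j => ?_)).congr fun i j => ?_
    · rw [norm_div, Complex.norm_real, Real.norm_of_nonneg hr, div_le_one hr']; exact hb j
    · have : (r : ℂ) ≠ 0 := by exact_mod_cast hr'.ne'
      field_simp

theorem G2.smul {M : I → J → ℂ} {C : ℝ} (h : G2 M C) (c : ℂ) :
    G2 (fun i j => c * M i j) (‖c‖ * C) :=
  h.mul_row (fun _ => c) (norm_nonneg c) (fun _ => le_rfl)

theorem G2.neg {M : I → J → ℂ} {C : ℝ} (h : G2 M C) : G2 (fun i j => - M i j) C := by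
  simpa using h.smul (-1)

theorem G2.sub {M M' : I → J → ℂ} {C C' : ℝ} (h : G2 M C) (h' : G2 M' C') :
    G2 (fun i j => M i j - M' i j) (C + C') := by
  simpa [sub_eq_add_neg] using h.add h'.neg

theorem G2.one : G2 (fun (_ : I) (_ : J) => (1 : ℂ)) 1 :=
  G2.of_hilbert (H := ℂ) (fun _ => 1) (fun _ => 1) (by simp) (by simp) (by simp)

theorem G2.col (b : J → ℂ) {r : ℝ} (hr : 0 ≤ r) (hb : ∀ j, ‖b j‖ ≤ r) :
    G2 (fun (_ : I) j => b j) r := by
  simpa using G2.one.mul_col (I := I) b hr hb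

theorem G2.comp {I' J' : Type} {M : I → J → ℂ} {C : ℝ} (h : G2 M C) (a : I' → I) (b : J' → J) :
    G2 (fun i j => M (a i) (b j)) C := by
  obtain ⟨H, _, _, _, ξ, η, h1, h2, h⟩ := h.hilbert
  exact G2.of_hilbert (fun i => ξ (a i)) (fun j => η (b j)) (fun _ => h1 _) (fun _ => h2 _)
    (fun _ _ => h _ _)

theorem G2.sum {ι : Type*} (s : Finset ι) {M : ι → I → J → ℂ} {C : ι → ℝ}
    (h : ∀ k ∈ s, G2 (M k) (C k)) : G2 (fun i j => ∑ k ∈ s, M k i j) (∑ k ∈ s, C k) := by
  classical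
  induction s using Finset.induction_on with
  | empty => simpa using G2.zero (I := I) (J := J) le_rfl
  | insert a s ha ih =>
    simp only [Finset.sum_insert ha]
    exact (h a (Finset.mem_insert_self _ _)).add
      (ih fun k hk => h k (Finset.mem_insert_of_mem hk))

theorem exists_ulim {ι : Type*} (U : Ultrafilter ι) (f : ι → ℂ) {B : ℝ}
    (hf : ∀ᶠ k in (U : Filter ι), ‖f k‖ ≤ B) : ∃ c, Tendsto f U (𝓝 c) := by
  have hc : IsCompact (Metric.closedBall (0 : ℂ) B) := isCompact_closedBall _ _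
  obtain ⟨c, -, hc⟩ := hc.ultrafilter_le_nhds (U.map f) (by
    simp only [Ultrafilter.coe_map, le_principal_iff, mem_map]
    filter_upwards [hf] with k hk
    simpa using hk)
  exact ⟨c, hc⟩

/-- closure under pointwise limits. -/
theorem G2.of_tendsto {ι : Type*} (F : Filter ι) [F.NeBot] {Ms : ι → I → J → ℂ} {Cs : ι → ℝ}
    {M : I → J → ℂ} {C : ℝ} (h : ∀ᶠ k in F, G2 (Ms k) (Cs k)) (hC : Tendsto Cs F (𝓝 C))
    (hM : ∀ i j, Tendsto (fun k => Ms k i j) F (𝓝 (M i j))) : G2 M C := by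
  classical
  let U := Ultrafilter.of F
  have hU : (U : Filter ι) ≤ F := Ultrafilter.of_le F
  let Ks : ι → Matrix (I ⊕ J) (I ⊕ J) ℂ := fun k =>
    if hk : G2 (Ms k) (Cs k) then hk.choose else 0
  have hKs : ∀ᶠ k in (U : Filter ι), (Ks k).PosSemidef ∧ (∀ z, ‖Ks k z z‖ ≤ Cs k) ∧
      ∀ i j, Ks k (Sum.inl i) (Sum.inr j) = Ms k i j := by
    filter_upwards [hU h] with k hk
    have hk' : G2 (Ms k) (Cs k) := hk
    simp only [Ks, dif_pos hk']
    exact hk'.choose_spec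
  have hCb : ∀ᶠ k in (U : Filter ι), Cs k ≤ C + 1 :=
    (hC.mono_left hU).eventually (eventually_le_nhds (by linarith))
  have hb : ∀ z z', ∀ᶠ k in (U : Filter ι), ‖Ks k z z'‖ ≤ C + 1 := fun z z' => by
    filter_upwards [hKs, hCb] with k hk hk'
    obtain ⟨H, _, _, _, v, hv⟩ := exists_hilbert_of_psd _ hk.1
    have hn : ∀ z, ‖v z‖ ^ 2 ≤ C + 1 := fun z => by
      have := (hk.2.1 z).trans hk'
      rw [← hv, inner_self_eq_norm_sq_to_K] at this
      simpa using this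
    rw [← hv]
    have := norm_inner_le_norm (𝕜 := ℂ) (v z) (v z')
    nlinarith [hn z, hn z', norm_nonneg (v z), norm_nonneg (v z'), sq_nonneg (‖v z‖ - ‖v z'‖)]
  choose K hK using fun z z' => exists_ulim U (fun k => Ks k z z') (hb z z')
  refine ⟨Matrix.of K, ⟨?_, fun x => ?_⟩, fun z => ?_, fun i j => ?_⟩
  · ext z z'
    simp only [Matrix.conjTranspose_apply, Matrix.of_apply]
    refine tendsto_nhds_unique ((hK z' z).star.congr' ?_) (hK z z')
    filter_upwards [hKs] with k hk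
    exact hk.1.1.apply z z'
  · have ht : Tendsto (fun k => x.sum fun i xi => x.sum fun j xj => star xi * Ks k i j * xj) U
        (𝓝 (x.sum fun i xi => x.sum fun j xj => star xi * (Matrix.of K) i j * xj)) := by
      simp only [Finsupp.sum]
      refine tendsto_finsetSum _ fun i _ => tendsto_finsetSum _ fun j _ => ?_
      exact ((hK i j).const_mul _).mul_const _
    refine ge_of_tendsto ht ?_
    filter_upwards [hKs] with k hk
    exact hk.1.2 x
  · refine le_of_tendsto_of_tendsto (hK z z).norm (hC.mono_left hU) ?_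
    filter_upwards [hKs] with k hk
    exact hk.2.1 z
  · refine tendsto_nhds_unique (hK _ _) (((hM i j).mono_left hU).congr' ?_)
    filter_upwards [hKs] with k hk
    exact (hk.2.2 i j).symm

end Pool.Agent.MP_75da70_an.H7
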