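import Pool.Agent.MP_75da70_an.H7.Defs

/-
Bar cochains on lists and the comparison lemma.
-/

namespace Pool.Agent.MP_75da70_an.H7

universe u

variable {A : Type u} [NonUnitalNormedRing A] [NormedSpace ℂ A]

/-- build a module from an unbundled action. -/
noncomputable def BanMod.mk' (V : Type u) [NormedAddCommGroup V] [NormedSpace ℂ V]
    [CompleteSpace V] (act : A → V → V)
    (h1 : ∀ a b x, act (a + b) x = act a x + act b x)
    (h2 : ∀ (c : ℂ) a x, act (c • a) x = c • act a x)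
    (h3 : ∀ a x y, act a (x + y) = act a x + act a y)
    (h4 : ∀ (c : ℂ) a x, act a (c • x) = c • act a x)
    (C : ℝ) (hb : ∀ a x, ‖act a x‖ ≤ C * ‖a‖ * ‖x‖)
    (hm : ∀ a b x, act (a * b) x = act a (act b x)) : BanMod A where
  carrier := V
  act := (LinearMap.mk₂ ℂ act h1 h2 h3 h4).mkContinuous₂ C hb
  act_mul := hm

theorem BanMod.norm_act_le (X : BanMod A) (a : A) (x : X.carrier) :
    ‖X.act a x‖ ≤ ‖X.act‖ * ‖a‖ * ‖x‖ := X.act.le_opNorm₂ a x

/-- the kernel of a morphism. -/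
noncomputable def BanMod.ker (X Y : BanMod A) (f : X.carrier →L[ℂ] Y.carrier)
    (hf : IsMor X Y f) : BanMod A :=
  haveI : CompleteSpace (f.ker) := f.isClosed_ker.completeSpace_coe
  BanMod.mk' (f.ker)
    (fun a x => ⟨X.act a x, by
      have := x.2
      simp only [LinearMap.mem_ker, ContinuousLinearMap.coe_coe] at this ⊢
      rw [hf, this, map_zero]⟩)
    (fun a b x => Subtype.ext (by simp)) (fun c a x => Subtype.ext (by simp))
    (fun a x y => Subtype.ext (by simp)) (fun c a x => Subtype.ext (by simp))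
    ‖X.act‖ (fun a x => X.norm_act_le a x) (fun a b x => Subtype.ext (X.act_mul a b x))

/-- lifting through a morphism onto the kernel of the next one. -/
theorem IsProjective.lift_ker {P Y Z W : BanMod A} (hP : IsProjective P)
    (f : Y.carrier →L[ℂ] Z.carrier) (hf : IsMor Y Z f)
    (g : Z.carrier →L[ℂ] W.carrier) (hg : IsMor Z W g) (hgf : ∀ y, g (f y) = 0)
    (τ : Z.carrier →L[ℂ] Y.carrier) (hτ : ∀ z, g z = 0 → f (τ z) = z)
    (φ : P.carrier →L[ℂ] Z.carrier) (hφ : IsMor P Z φ) (hgφ : ∀ p, g (φ p) = 0) :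
    ∃ ψ : P.carrier →L[ℂ] Y.carrier, IsMor P Y ψ ∧ ∀ p, f (ψ p) = φ p := by
  let K := BanMod.ker Z W g hg
  let σ : Y.carrier →L[ℂ] K.carrier := f.codRestrict g.ker (fun y => by simpa using hgf y)
  let φ' : P.carrier →L[ℂ] K.carrier := φ.codRestrict g.ker (fun y => by simpa using hgφ y)
  let τ' : K.carrier →L[ℂ] Y.carrier := τ.comp g.ker.subtypeL
  obtain ⟨ψ, h1, h2⟩ := hP Y K σ (fun a y => Subtype.ext (hf a y))
    ⟨τ', fun z => Subtype.ext (hτ z.1 (by simpa using z.2))⟩ φ'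
    (fun a y => Subtype.ext (hφ a y))
  exact ⟨ψ, h1, fun p => congrArg Subtype.val (h2 p)⟩

variable (X : BanMod A)

/-- the inner part of the bar coboundary. -/
noncomputable def D {V : Type*} [AddCommGroup V] :
    List A → (List A → X.carrier → V) → X.carrier → V
  | [], _, _ => 0
  | [f], θ, g => θ [] (X.act f g)
  | f1 :: f2 :: l, θ, g => θ ((f1 * f2) :: l) g - D (f2 :: l) (fun l' => θ (f1 :: l')) g

/-- the bar coboundary. -/
noncomputable def δ (Y : BanMod A) (θ : List A → X.carrier → Y.carrier) : List A → X.carrier → Y.carrier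
  | [], _ => 0
  | f :: l, g => Y.act f (θ l g) - D X (f :: l) θ g

variable {X}

theorem D_congr {V : Type*} [AddCommGroup V] :
    ∀ (l : List A) (θ θ' : List A → X.carrier → V),
      (∀ l', l'.length + 1 = l.length → ∀ g, θ l' g = θ' l' g) → ∀ g, D X l θ g = D X l θ' g
  | [], _, _, _, _ => rfl
  | [f], θ, θ', h, g => h [] rfl _
  | f1 :: f2 :: l, θ, θ', h, g => by
    simp only [D]
    rw [h _ (by simp), D_congr (f2 :: l) _ (fun l' => θ' (f1 :: l'))]
    intro l' hl' g
    exact h _ (by simp at hl' ⊢; omega) g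

theorem D_map {V W : Type*} [AddCommGroup V] [AddCommGroup W] (T : V →+ W) :
    ∀ (l : List A) (θ : List A → X.carrier → V) (g),
      D X l (fun l g => T (θ l g)) g = T (D X l θ g)
  | [], _, _ => by simp [D]
  | [f], θ, g => rfl
  | f1 :: f2 :: l, θ, g => by
    simp only [D, map_sub]
    rw [D_map T (f2 :: l) (fun l' => θ (f1 :: l'))]

theorem D_add {V : Type*} [AddCommGroup V] :
    ∀ (l : List A) (θ θ' : List A → X.carrier → V) (g),
      D X l (fun l g => θ l g + θ' l g) g = D X l θ g + D X l θ' g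
  | [], _, _, _ => by simp [D]
  | [f], θ, θ', g => rfl
  | f1 :: f2 :: l, θ, θ', g => by
    simp only [D]
    rw [D_add (f2 :: l) (fun l' => θ (f1 :: l')) (fun l' => θ' (f1 :: l'))]
    abel

theorem D_sub {V : Type*} [AddCommGroup V] :
    ∀ (l : List A) (θ θ' : List A → X.carrier → V) (g),
      D X l (fun l g => θ l g - θ' l g) g = D X l θ g - D X l θ' g
  | [], _, _, _ => by simp [D]
  | [f], θ, θ', g => rfl
  | f1 :: f2 :: l, θ, θ', g => by
    simp only [D]
    rw [D_sub (f2 :: l) (fun l' => θ (f1 :: l')) (fun l' => θ' (f1 :: l'))]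
    abel

theorem D_smul {V : Type*} [AddCommGroup V] [Module ℂ V] (c : ℂ) (l : List A)
    (θ : List A → X.carrier → V) (g) : D X l (fun l g => c • θ l g) g = c • D X l θ g :=
  D_map (DistribSMul.toAddMonoidHom V c) l θ g

theorem D_zero {V : Type*} [AddCommGroup V] (l : List A) (g) :
    D X l (fun _ _ => (0 : V)) g = 0 := by
  have := D_sub (X := X) l (fun _ _ => (0 : V)) (fun _ _ => (0 : V)) g
  simpa using this

theorem DD {V : Type*} [AddCommGroup V] :
    ∀ (l : List A) (f1 f2 : A) (θ : List A → X.carrier → V) (g),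
      D X (f1 :: f2 :: l) (fun l g => D X l θ g) g = 0
  | [], f1, f2, θ, g => by simp [D, X.act_mul]
  | f3 :: l, f1, f2, θ, g => by
    have ih := DD l f2 f3 (fun l' => θ (f1 :: l')) g
    simp only [D] at ih ⊢
    rw [D_sub (f3 :: l) (fun l' => θ ((f1 * f2) :: l'))
      (fun l' => D X (f2 :: l') (fun l' => θ (f1 :: l')))]
    rw [mul_assoc, ← ih]
    abel

variable {Y Z : BanMod A}

theorem δ_congr (l : List A) (θ θ' : List A → X.carrier → Y.carrier)
    (h : ∀ l', l'.length + 1 = l.length → ∀ g, θ l' g = θ' l' g) (g) :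
    δ X Y θ l g = δ X Y θ' l g := by
  cases l with
  | nil => rfl
  | cons f l => simp only [δ]; rw [h l rfl, D_congr _ θ θ' h]

theorem δ_map (T : Y.carrier →L[ℂ] Z.carrier) (hT : IsMor Y Z T) (l : List A)
    (θ : List A → X.carrier → Y.carrier) (g) :
    δ X Z (fun l g => T (θ l g)) l g = T (δ X Y θ l g) := by
  cases l with
  | nil => simp [δ]
  | cons f l =>
    simp only [δ, map_sub]
    rw [hT]
    exact congrArg _ (D_map (T : Y.carrier →+ Z.carrier) _ θ g)

theorem δ_sub (l : List A) (θ θ' : List A → X.carrier → Y.carrier) (g) :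
    δ X Y (fun l g => θ l g - θ' l g) l g = δ X Y θ l g - δ X Y θ' l g := by
  cases l with
  | nil => simp [δ]
  | cons f l => simp only [δ, map_sub, D_sub]; abel

theorem δ_zero (l : List A) (g) : δ X Y (fun _ _ => 0) l g = 0 := by
  cases l with
  | nil => simp [δ]
  | cons f l => simp [δ, D_zero]

theorem δδ (f1 f2 : A) (l : List A) (θ : List A → X.carrier → Y.carrier) (g) :
    δ X Y (δ X Y θ) (f1 :: f2 :: l) g = 0 := by
  have h := DD l f1 f2 θ g
  have h2 : D X (f2 :: l) (fun l' => δ X Y θ (f1 :: l')) g =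
      Y.act f1 (D X (f2 :: l) θ g) - D X (f2 :: l) (fun l' => D X (f1 :: l') θ) g := by
    have := D_sub (f2 :: l) (fun l' g => Y.act f1 (θ l' g)) (fun l' => D X (f1 :: l') θ) g
    have h3 : D X (f2 :: l) (fun l' g => Y.act f1 (θ l' g)) g = Y.act f1 (D X (f2 :: l) θ g) :=
      D_map (Y.act f1 : Y.carrier →+ Y.carrier) _ θ g
    rw [h3] at this
    exact this
  simp only [D] at h
  have h4 : δ X Y (δ X Y θ) (f1 :: f2 :: l) g = Y.act f1 (δ X Y θ (f2 :: l) g) -
      (δ X Y θ ((f1 * f2) :: l) g - D X (f2 :: l) (fun l' => δ X Y θ (f1 :: l')) g) := rfl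
  rw [h4, h2, ← h]
  simp only [δ, map_sub, Y.act_mul]
  abel

/-- multilinear and bounded on lists of length `k`. -/
def ML {V : Type*} [NormedAddCommGroup V] [NormedSpace ℂ V] :
    ℕ → (List A → X.carrier → V) → ℝ → Prop
  | 0, θ, C => (∀ g g', θ [] (g + g') = θ [] g + θ [] g') ∧
      (∀ (c : ℂ) g, θ [] (c • g) = c • θ [] g) ∧ ∀ g, ‖θ [] g‖ ≤ C * ‖g‖
  | k + 1, θ, C =>
      (∀ l, l.length = k → ∀ f f' g, θ ((f + f') :: l) g = θ (f :: l) g + θ (f' :: l) g) ∧
      (∀ l, l.length = k → ∀ (c : ℂ) f g, θ ((c • f) :: l) g = c • θ (f :: l) g) ∧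
      ∀ f, ML k (fun l => θ (f :: l)) (C * ‖f‖)

section ML

variable {V W : Type*} [NormedAddCommGroup V] [NormedSpace ℂ V] [NormedAddCommGroup W]
  [NormedSpace ℂ W]

theorem ML.mono : ∀ {k : ℕ} {θ : List A → X.carrier → V} {C C' : ℝ}, ML k θ C → C ≤ C' → ML k θ C'
  | 0, _, _, _, h, hC => ⟨h.1, h.2.1, fun g =>
      (h.2.2 g).trans (mul_le_mul_of_nonneg_right hC (norm_nonneg _))⟩
  | _ + 1, _, _, _, h, hC => ⟨h.1, h.2.1, fun f =>
      (h.2.2 f).mono (mul_le_mul_of_nonneg_right hC (norm_nonneg _))⟩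

theorem ML.congr : ∀ {k : ℕ} {θ θ' : List A → X.carrier → V} {C : ℝ}, ML k θ C →
    (∀ l, l.length = k → ∀ g, θ l g = θ' l g) → ML k θ' C
  | 0, θ, θ', _, h, he => by
    have : θ [] = θ' [] := funext (he [] rfl)
    simp only [ML] at h ⊢
    rwa [← this]
  | k + 1, θ, θ', _, h, he => by
    refine ⟨fun l hl f f' g => ?_, fun l hl c f g => ?_, fun f => (h.2.2 f).congr fun l hl g => ?_⟩
    · rw [← he _ (by simp [hl]), ← he _ (by simp [hl]), ← he _ (by simp [hl]), h.1 l hl]
    · rw [← he _ (by simp [hl]), ← he _ (by simp [hl]), h.2.1 l hl]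
    · exact he _ (by simp [hl]) g

theorem ML.sub : ∀ {k : ℕ} {θ θ' : List A → X.carrier → V} {C C' : ℝ}, ML k θ C → ML k θ' C' →
    ML k (fun l g => θ l g - θ' l g) (C + C')
  | 0, θ, θ', _, _, h, h' => by
    refine ⟨fun g g' => ?_, fun c g => ?_, fun g => ?_⟩
    · simp only [h.1, h'.1]; abel
    · simp only [h.2.1, h'.2.1, smul_sub]
    · rw [add_mul]
      exact (norm_sub_le _ _).trans (add_le_add (h.2.2 g) (h'.2.2 g))
  | k + 1, θ, θ', _, _, h, h' => by
    refine ⟨fun l hl f f' g => ?_, fun l hl c f g => ?_, fun f => ?_⟩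
    · simp only [h.1 l hl, h'.1 l hl]; abel
    · simp only [h.2.1 l hl, h'.2.1 l hl, smul_sub]
    · rw [add_mul]
      exact (h.2.2 f).sub (h'.2.2 f)

theorem ML.comp (T : V →L[ℂ] W) : ∀ {k : ℕ} {θ : List A → X.carrier → V} {C : ℝ}, ML k θ C →
    ML k (fun l g => T (θ l g)) (‖T‖ * C)
  | 0, θ, _, h => by
    refine ⟨fun g g' => ?_, fun c g => ?_, fun g => ?_⟩
    · simp only [h.1, map_add]
    · simp only [h.2.1, map_smul]
    · rw [mul_assoc]
      exact (T.le_opNorm _).trans (mul_le_mul_of_nonneg_left (h.2.2 g) (norm_nonneg _))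
  | k + 1, θ, _, h => by
    refine ⟨fun l hl f f' g => ?_, fun l hl c f g => ?_, fun f => ?_⟩
    · simp only [h.1 l hl, map_add]
    · simp only [h.2.1 l hl, map_smul]
    · rw [mul_assoc]
      exact (h.2.2 f).comp T

variable [IsScalarTower ℂ A A] [SMulCommClass ℂ A A]

theorem ML.D : ∀ {k : ℕ} {θ : List A → X.carrier → V} {C : ℝ}, 0 ≤ C → ML k θ C →
    ML (k + 1) (fun l g => D X l θ g) ((k + ‖X.act‖) * C)
  | 0, θ, C, hC, h => by
    refine ⟨fun l hl f f' g => ?_, fun l hl c f g => ?_, fun f => ⟨fun g g' => ?_, fun c g => ?_,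
      fun g => ?_⟩⟩
    · obtain rfl := List.length_eq_zero_iff.mp hl
      simp only [H7.D, map_add, add_apply, h.1]
    · obtain rfl := List.length_eq_zero_iff.mp hl
      simp only [H7.D, map_smul, smul_apply, h.2.1]
    · simp only [H7.D, map_add, h.1]
    · simp only [H7.D, map_smul, h.2.1]
    · simp only [H7.D]
      refine (h.2.2 _).trans ?_
      have := mul_le_mul_of_nonneg_left (X.norm_act_le f g) hC
      refine this.trans (le_of_eq ?_)
      push_cast; ring
  | k + 1, θ, C, hC, h => by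
    refine ⟨fun l hl f f' g => ?_, fun l hl c f g => ?_, fun f => ?_⟩
    · obtain ⟨f2, l, rfl⟩ := List.exists_cons_of_length_eq_add_one hl
      have hl' : l.length = k := by simpa using hl
      simp only [H7.D, add_mul, h.1 l hl']
      rw [D_congr (f2 :: l) _ (fun l' g => θ (f :: l') g + θ (f' :: l') g)
        (fun l' hl'' g => h.1 l' (by simp at hl''; omega) f f' g), D_add]
      abel
    · obtain ⟨f2, l, rfl⟩ := List.exists_cons_of_length_eq_add_one hl
      have hl' : l.length = k := by simpa using hl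
      simp only [H7.D, smul_mul_assoc, h.2.1 l hl']
      rw [D_congr (f2 :: l) _ (fun l' g => c • θ (f :: l') g)
        (fun l' hl'' g => h.2.1 l' (by simp at hl''; omega) c f g), D_smul, smul_sub]
    · have h1 : ML (k + 1) (fun l g => match l with
          | [] => (0 : V)
          | f2 :: l => θ ((f * f2) :: l) g) (C * ‖f‖) := by
        refine ⟨fun l hl f2 f2' g => ?_, fun l hl c f2 g => ?_, fun f2 => ?_⟩
        · simp only [mul_add, h.1 l hl]
        · simp only [mul_smul_comm, h.2.1 l hl]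
        · refine (h.2.2 (f * f2)).mono ?_
          rw [mul_assoc]
          exact mul_le_mul_of_nonneg_left (norm_mul_le _ _) hC
      have h2 := (h.2.2 f).D (mul_nonneg hC (norm_nonneg _))
      refine ((h1.sub h2).congr fun l hl g => ?_).mono (le_of_eq ?_)
      · obtain ⟨f2, l, rfl⟩ := List.exists_cons_of_length_eq_add_one hl
        rfl
      · push_cast; ring

theorem ML.δ {k : ℕ} {θ : List A → X.carrier → Y.carrier} {C : ℝ} (hC : 0 ≤ C) (h : ML k θ C) :
    ML (k + 1) (δ X Y θ) (‖Y.act‖ * C + (k + ‖X.act‖) * C) := by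
  have h1 : ML (k + 1) (fun l g => match l with
      | [] => (0 : Y.carrier)
      | f :: l => Y.act f (θ l g)) (‖Y.act‖ * C) := by
    refine ⟨fun l hl f2 f2' g => by simp, fun l hl c f2 g => by simp, fun f => ?_⟩
    refine (h.comp (Y.act f)).mono ?_
    have := mul_le_mul_of_nonneg_right (Y.act.le_opNorm f) hC
    linarith
  refine (h1.sub (h.D hC)).congr fun l hl g => ?_
  obtain ⟨f2, l, rfl⟩ := List.exists_cons_of_length_eq_add_one hl
  rfl

end ML

/-- there is a nonnegative multilinear bound. -/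
def MLB {V : Type*} [NormedAddCommGroup V] [NormedSpace ℂ V] (k : ℕ)
    (θ : List A → X.carrier → V) : Prop := ∃ C, 0 ≤ C ∧ ML k θ C

section MLB

variable {V W : Type*} [NormedAddCommGroup V] [NormedSpace ℂ V] [NormedAddCommGroup W]
  [NormedSpace ℂ W]

theorem MLB.sub {k : ℕ} {θ θ' : List A → X.carrier → V} (h : MLB k θ) (h' : MLB k θ') :
    MLB k (fun l g => θ l g - θ' l g) := by
  obtain ⟨C, hC, h⟩ := h
  obtain ⟨C', hC', h'⟩ := h'
  exact ⟨_, add_nonneg hC hC', h.sub h'⟩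

theorem MLB.comp (T : V →L[ℂ] W) {k : ℕ} {θ : List A → X.carrier → V} (h : MLB k θ) :
    MLB k (fun l g => T (θ l g)) := by
  obtain ⟨C, hC, h⟩ := h
  exact ⟨_, mul_nonneg (norm_nonneg _) hC, h.comp T⟩

theorem MLB.δ [IsScalarTower ℂ A A] [SMulCommClass ℂ A A] {k : ℕ}
    {θ : List A → X.carrier → Y.carrier} (h : MLB k θ) : MLB (k + 1) (δ X Y θ) := by
  obtain ⟨C, hC, h⟩ := h
  exact ⟨_, by positivity, h.δ hC⟩

end MLB

theorem δδ' {k : ℕ} (l : List A) (hl : l.length = k + 2) (θ : List A → X.carrier → Y.carrier) (g) :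
    δ X Y (δ X Y θ) l g = 0 := by
  match l, hl with
  | f1 :: f2 :: l, _ => exact δδ f1 f2 l θ g

/-- comparison of a finite projective resolution with an admissible complex `Q`. -/
theorem comparison [IsScalarTower ℂ A A] [SMulCommClass ℂ A A] (Q : ℕ → BanMod A)
    (bd : ∀ k, (Q (k + 1)).carrier →L[ℂ] (Q k).carrier)
    (H : ∀ k, (Q k).carrier →L[ℂ] (Q (k + 1)).carrier)
    (hbd : ∀ k, IsMor (Q (k + 1)) (Q k) (bd k)) (hbb : ∀ k u, bd k (bd (k + 1) u) = 0)
    (hH0 : ∀ u, bd 0 (H 0 u) = u) (hH : ∀ k u, bd (k + 1) (H (k + 1) u) + H k (bd k u) = u)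
    (ι : ∀ k, List A → (Q 0).carrier → (Q (k + 1)).carrier) (hι : ∀ k, MLB k (ι k))
    (hι0 : ∀ g, bd 0 (ι 0 [] g) = g)
    (hιS : ∀ k l, l.length = k + 1 → ∀ g, bd (k + 1) (ι (k + 1) l g) = δ (Q 0) (Q (k + 1)) (ι k) l g)
    {n : ℕ} (hres : HasProjRes (Q 0) n) :
    ∃ r : List A → (Q 0).carrier → (Q (n + 1)).carrier, MLB n r ∧ (∀ l g, bd n (r l g) = 0) ∧
      ∀ l, l.length = n + 1 → ∀ g, δ (Q 0) (Q (n + 1)) r l g = δ (Q 0) (Q (n + 1)) (ι n) l g := by
  obtain ⟨P, ε, d, t, s, hP, hε, hd, hεd, hdd, hεt, hs0, hs, hz⟩ := hres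
  have hHc : ∀ k u, bd k u = 0 → bd (k + 1) (H (k + 1) u) = u := fun k u hu => by
    simpa [hu] using hH k u
  have inv : ∀ k, ∃ (φ : List A → (Q 0).carrier → (P k).carrier)
      (ψ : (P k).carrier →L[ℂ] (Q (k + 1)).carrier)
      (h : List A → (Q 0).carrier → (Q (k + 2)).carrier),
      MLB k φ ∧ IsMor (P k) (Q (k + 1)) ψ ∧ MLB k h ∧
      (∀ l, l.length = k + 1 → ∀ g, d k (s k (δ (Q 0) (P k) φ l g)) = δ (Q 0) (P k) φ l g) ∧
      (∀ p, bd k (ψ (d k p)) = 0) ∧
      (∀ l, l.length = k + 1 → ∀ g,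
        δ (Q 0) (Q (k + 1)) (fun l g => ι k l g - ψ (φ l g) - bd (k + 1) (h l g)) l g = 0) := by
    intro k
    induction k with
    | zero =>
      obtain ⟨ψ, hψ, hψ'⟩ := hP 0 (Q 1) (Q 0) (bd 0) (hbd 0) ⟨H 0, hH0⟩ ε hε
      have hφ : MLB 0 (fun (_ : List A) (g : (Q 0).carrier) => t g) :=
        ⟨‖t‖, norm_nonneg _, by simp, by simp, t.le_opNorm⟩
      refine ⟨fun _ g => t g, ψ, fun l g => H 1 (ι 0 l g - ψ (t g)), hφ, hψ,
        ((hι 0).sub (hφ.comp ψ)).comp (H 1), fun l hl g => ?_, fun p => by rw [hψ', hεd],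
        fun l hl g => ?_⟩
      · obtain ⟨f, rfl⟩ := List.length_eq_one_iff.mp hl
        have : ε (δ (Q 0) (P 0) (fun _ g => t g) [f] g) = 0 := by
          simp only [δ, D, map_sub]
          rw [hε, hεt, hεt, sub_self]
        simpa [this] using hs0 (δ (Q 0) (P 0) (fun _ g => t g) [f] g)
      · rw [δ_congr l _ (fun _ _ => 0), δ_zero]
        intro l' hl' g
        obtain rfl : l' = [] := List.length_eq_zero_iff.mp (by omega)
        rw [hHc 0, sub_self]
        rw [map_sub, hι0, hψ', hεt, sub_self]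
    | succ k ih =>
      obtain ⟨φ, ψ, h, hφ, hψ, hh, ha, hb, hc⟩ := ih
      obtain ⟨ψ', hψ', hψ''⟩ := (hP (k + 1)).lift_ker (bd (k + 1)) (hbd (k + 1)) (bd k) (hbd k)
        (hbb k) (H (k + 1)) (hHc k) (ψ.comp (d k))
        (fun a p => by simp only [ContinuousLinearMap.comp_apply]; rw [hd, hψ]) hb
      let φ' : List A → (Q 0).carrier → (P (k + 1)).carrier :=
        fun l g => s k (δ (Q 0) (P k) φ l g)
      have hφ' : MLB (k + 1) φ' := hφ.δ.comp (s k)
      let w : List A → (Q 0).carrier → (Q (k + 2)).carrier :=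
        fun l g => ι (k + 1) l g - ψ' (φ' l g) - δ (Q 0) (Q (k + 2)) h l g
      have hw : MLB (k + 1) w := ((hι (k + 1)).sub (hφ'.comp ψ')).sub hh.δ
      have hw0 : ∀ l, l.length = k + 1 → ∀ g, bd (k + 1) (w l g) = 0 := fun l hl g => by
        have := hc l hl g
        rw [δ_sub, δ_sub, δ_map _ hψ, δ_map _ (hbd _)] at this
        simp only [w, φ', map_sub]
        rw [hιS k l hl, hψ'', ContinuousLinearMap.comp_apply, ha l hl, this]
      refine ⟨φ', ψ', fun l g => H (k + 2) (w l g), hφ', hψ', hw.comp _, fun l hl g => ?_,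
        fun p => ?_, fun l hl g => ?_⟩
      · have : d k (δ (Q 0) (P (k + 1)) φ' l g) = 0 := by
          rw [← δ_map _ (hd k), δ_congr l _ (δ (Q 0) (P k) φ), δδ' l hl]
          intro l' hl' g
          exact ha l' (by omega) g
        simpa [this] using hs k (δ (Q 0) (P (k + 1)) φ' l g)
      · rw [hψ'', ContinuousLinearMap.comp_apply, hdd, map_zero]
      · rw [δ_congr l _ (δ (Q 0) (Q (k + 2)) h), δδ' l hl]
        intro l' hl' g
        rw [hHc (k + 1) _ (hw0 l' (by omega) g)]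
        simp only [w]
        abel
  obtain ⟨φ, ψ, h, hφ, hψ, hh, ha, hb, hc⟩ := inv n
  refine ⟨fun l g => bd (n + 1) (h l g), hh.comp _, fun l g => hbb _ _, fun l hl g => ?_⟩
  have := hc l hl g
  rw [δ_sub, δ_sub, δ_map _ hψ, ← ha l hl g, hz (n + 1) (Nat.lt_succ_self n) (s n _), map_zero,
    map_zero, sub_zero, sub_eq_zero] at this
  exact this.symm

end Pool.Agent.MP_75da70_an.H7
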