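import Mathlib

/-
Relative (topological) homology of left Banach modules over a Banach algebra.
-/

namespace Pool.Agent.MP_75da70_an.H7

universe u

/-- A left Banach module over `A`: a complex Banach space with a bounded bilinear associative
action of `A` (no unit condition). -/
structure LMod (A : Type u) [NonUnitalNormedRing A] [NormedSpace ℂ A] : Type (u + 1) where
  carrier : Type u
  [grp : NormedAddCommGroup carrier]
  [spc : NormedSpace ℂ carrier]
  [cpl : CompleteSpace carrier]
  act : A → carrier → carrier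
  bilin : IsBoundedBilinearMap ℂ fun p : A × carrier => act p.1 p.2
  act_mul : ∀ (a b : A) (x : carrier), act (a * b) x = act a (act b x)

attribute [instance] LMod.grp LMod.spc LMod.cpl

variable {A : Type u} [NonUnitalNormedRing A] [NormedSpace ℂ A]

/-- `f` is a bounded linear map between the underlying Banach spaces. -/
def BddLin (X Y : LMod A) (f : X.carrier → Y.carrier) : Prop :=
  IsBoundedLinearMap ℂ f

/-- `f` is a morphism: a bounded module map. -/
def Mor (X Y : LMod A) (f : X.carrier → Y.carrier) : Prop :=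
  BddLin X Y f ∧ ∀ (a : A) (x : X.carrier), f (X.act a x) = Y.act a (f x)

/-- `σ` is an admissible epimorphism: a morphism with a bounded linear right inverse. -/
def AdmEpi (Y X : LMod A) (σ : Y.carrier → X.carrier) : Prop :=
  Mor Y X σ ∧ ∃ τ : X.carrier → Y.carrier, BddLin X Y τ ∧ ∀ x, σ (τ x) = x

/-- `P` is projective: morphisms out of `P` lift along admissible epimorphisms. -/
def Proj (P : LMod A) : Prop :=
  ∀ (Y X : LMod A) (σ : Y.carrier → X.carrier), AdmEpi Y X σ →
    ∀ φ : P.carrier → X.carrier, Mor P X φ →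
      ∃ ψ : P.carrier → Y.carrier, Mor P Y ψ ∧ ∀ p, σ (ψ p) = φ p

/-- `0 ← X ← P 0 ← P 1 ← ⋯` is a complex of modules and morphisms. -/
def IsCx (X : LMod A) (P : ℕ → LMod A) (ε : (P 0).carrier → X.carrier)
    (d : ∀ k, (P (k + 1)).carrier → (P k).carrier) : Prop :=
  Mor (P 0) X ε ∧ (∀ k, Mor (P (k + 1)) (P k) (d k)) ∧
    (∀ p, ε (d 0 p) = 0) ∧ ∀ k p, d k (d (k + 1) p) = 0

/-- The complex has a bounded linear contracting homotopy `t`, `s k`: it is exact and splits as a
complex of Banach spaces. -/
def Splits (X : LMod A) (P : ℕ → LMod A) (ε : (P 0).carrier → X.carrier)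
    (d : ∀ k, (P (k + 1)).carrier → (P k).carrier) : Prop :=
  ∃ (t : X.carrier → (P 0).carrier) (s : ∀ k, (P k).carrier → (P (k + 1)).carrier),
    BddLin X (P 0) t ∧ (∀ k, BddLin (P k) (P (k + 1)) (s k)) ∧
    (∀ x, ε (t x) = x) ∧ (∀ p, d 0 (s 0 p) + t (ε p) = p) ∧
    ∀ k p, d (k + 1) (s (k + 1) p) + s k (d k p) = p

/-- `X` has a projective resolution with `P k = 0` for all `k > n`. -/
def HasRes (X : LMod A) (n : ℕ) : Prop :=
  ∃ (P : ℕ → LMod A) (ε : (P 0).carrier → X.carrier)
    (d : ∀ k, (P (k + 1)).carrier → (P k).carrier),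
    (∀ k, Proj (P k)) ∧ IsCx X P ε d ∧ Splits X P ε d ∧ ∀ k, n < k → ∀ p : (P k).carrier, p = 0

/-- Homological dimension of a module: the least length of a projective resolution, `⊤` if there is
no resolution of finite length. -/
noncomputable def homDim (X : LMod A) : ℕ∞ :=
  ⨅ (n : ℕ) (_ : HasRes X n), (n : ℕ∞)

variable (A) in
/-- Global dimension: the supremum of `homDim X` over all left Banach modules. -/
noncomputable def globDim : ℕ∞ :=
  ⨆ X : LMod A, homDim X

end Pool.Agent.MP_75da70_an.H7
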