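import Mathlib

/-
A gliding hump lemma for functionals on a space of bounded functions.
-/

namespace Pool.Agent.MP_75da70_an.H7

open Filter Topology Set

variable {V : Type*} [NormedAddCommGroup V] [NormedSpace ℂ V] {Y : Type*}

/-- `φ` is bounded by `c` on functions bounded by one and supported over `S`. -/
def SmallOn (ev : V →ₗ[ℂ] Y → ℂ) (π : Y → ℕ) (φ : V →L[ℂ] ℂ) (S : Set ℕ) (c : ℝ) : Prop :=
  ∀ v, (∀ y, ‖ev v y‖ ≤ 1) → (∀ y, π y ∉ S → ev v y = 0) → ‖φ v‖ ≤ c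

theorem exists_sign (a b : ℂ) : ∃ θ : ℂ, ‖θ‖ ≤ 1 ∧ ‖b‖ ≤ ‖a + θ * b‖ := by
  by_cases h : ‖b‖ ≤ ‖a + 1 * b‖
  · exact ⟨1, by simp, h⟩
  · refine ⟨-1, by simp, ?_⟩
    have h1 : ‖(a + 1 * b) - (a + -1 * b)‖ = 2 * ‖b‖ := by
      have : (a + 1 * b) - (a + -1 * b) = 2 * b := by ring
      rw [this, norm_mul]; simp
    have := norm_sub_le (a + 1 * b) (a + -1 * b)
    linarith

theorem exists_unimod (a : ℂ) : ∃ θ : ℂ, ‖θ‖ ≤ 1 ∧ θ * a = (‖a‖ : ℂ) := by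
  rcases eq_or_ne a 0 with h | h
  · exact ⟨0, by simp, by simp [h]⟩
  · have : (‖a‖ : ℂ) ≠ 0 := by exact_mod_cast norm_ne_zero_iff.mpr h
    refine ⟨‖a‖ / a, ?_, by field_simp⟩
    rw [norm_div, Complex.norm_real, norm_norm, div_self (norm_ne_zero_iff.mpr h)]

theorem SmallOn.half {ev : V →ₗ[ℂ] Y → ℂ} {π : Y → ℕ} {φ : V →L[ℂ] ℂ} {S : Set ℕ} {c : ℝ}
    (h : SmallOn ev π φ S c) (hS : S.Infinite) :
    ∃ S' ⊆ S, S'.Infinite ∧ SmallOn ev π φ S' (c / 2) := by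
  obtain ⟨S1, S2, h1, h2, hd, h1S, h2S⟩ : ∃ S1 S2 : Set ℕ, S1.Infinite ∧ S2.Infinite ∧
      Disjoint S1 S2 ∧ S1 ⊆ S ∧ S2 ⊆ S := by
    let e := hS.natEmbedding
    have he : Function.Injective fun k => (e k : ℕ) := Subtype.val_injective.comp e.injective
    refine ⟨range fun k => (e (2 * k) : ℕ), range fun k => (e (2 * k + 1) : ℕ),
      infinite_range_of_injective fun a b hab => by have := he hab; omega,
      infinite_range_of_injective fun a b hab => by have := he hab; omega, ?_, ?_, ?_⟩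
    · rw [disjoint_left]
      rintro _ ⟨a, rfl⟩ ⟨b, hb⟩
      have := he hb; omega
    · rintro _ ⟨a, rfl⟩; exact (e _).2
    · rintro _ ⟨a, rfl⟩; exact (e _).2
  by_contra hcon
  push Not at hcon
  have a1 := hcon S1 h1S h1
  have a2 := hcon S2 h2S h2
  simp only [SmallOn, not_forall, not_le] at a1 a2
  obtain ⟨v1, hv1, hs1, hc1⟩ := a1
  obtain ⟨v2, hv2, hs2, hc2⟩ := a2
  obtain ⟨θ1, ht1, he1⟩ := exists_unimod (φ v1)
  obtain ⟨θ2, ht2, he2⟩ := exists_unimod (φ v2)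
  have := h (θ1 • v1 + θ2 • v2) (fun y => ?_) (fun y hy => ?_)
  · simp only [map_add, map_smul, smul_eq_mul, he1, he2] at this
    rw [← Complex.ofReal_add, Complex.norm_real, Real.norm_of_nonneg (by positivity)] at this
    linarith
  · simp only [map_add, map_smul, Pi.add_apply, Pi.smul_apply, smul_eq_mul]
    by_cases hy : π y ∈ S1
    · rw [hs2 y (disjoint_left.mp hd hy), mul_zero, add_zero, norm_mul]
      exact mul_le_one₀ ht1 (norm_nonneg _) (hv1 y)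
    · rw [hs1 y hy, mul_zero, zero_add, norm_mul]
      exact mul_le_one₀ ht2 (norm_nonneg _) (hv2 y)
  · simp [hs1 y fun h => hy (h1S h), hs2 y fun h => hy (h2S h)]

theorem exists_smallOn {ev : V →ₗ[ℂ] Y → ℂ} (hn : ∀ v, (∀ y, ‖ev v y‖ ≤ 1) → ‖v‖ ≤ 1)
    (π : Y → ℕ) (φ : V →L[ℂ] ℂ) {S : Set ℕ} (hS : S.Infinite) {ε : ℝ} (hε : 0 < ε) :
    ∃ S' ⊆ S, S'.Infinite ∧ SmallOn ev π φ S' ε := by
  have key : ∀ N : ℕ, ∃ S' ⊆ S, S'.Infinite ∧ SmallOn ev π φ S' (‖φ‖ * (1 / 2) ^ N) := by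
    intro N
    induction N with
    | zero =>
      refine ⟨S, Subset.rfl, hS, fun v hv _ => (φ.le_opNorm v).trans ?_⟩
      simpa using mul_le_of_le_one_right (norm_nonneg φ) (hn v hv)
    | succ N ih =>
      obtain ⟨S', h1, h2, h3⟩ := ih
      obtain ⟨S'', h4, h5, h6⟩ := h3.half h2
      refine ⟨S'', h4.trans h1, h5, ?_⟩
      convert h6 using 1
      ring
  have ht : Tendsto (fun N : ℕ => ‖φ‖ * (1 / 2 : ℝ) ^ N) atTop (𝓝 0) := by
    simpa using (tendsto_pow_atTop_nhds_zero_of_lt_one (r := (1 / 2 : ℝ)) (by norm_num)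
      (by norm_num)).const_mul ‖φ‖
  obtain ⟨N, hN⟩ := (ht.eventually (gt_mem_nhds hε)).exists
  obtain ⟨S', h1, h2, h3⟩ := key N
  exact ⟨S', h1, h2, fun v hv hs => (h3 v hv hs).trans hN.le⟩

theorem hump [DecidableEq Y] {ev : V →ₗ[ℂ] Y → ℂ} (hn : ∀ v, (∀ y, ‖ev v y‖ ≤ 1) → ‖v‖ ≤ 1)
    (hs : ∀ g : Y → ℂ, (∀ y, ‖g y‖ ≤ 1) → ∃ v, ev v = g) (π : Y → ℕ)
    (φ : ℕ → ℕ → V →L[ℂ] ℂ) (yy : ℕ → ℕ → Y) (hπ : ∀ i γ, π (yy i γ) = γ) (dl : Y → V)
    (hdl : ∀ y, ev (dl y) = Pi.single y 1) {ε : ℝ} (hε : 0 < ε)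
    (h : ∀ i, ∀ᶠ γ in (hyperfilter ℕ : Filter ℕ), ε ≤ ‖φ i γ (dl (yy i γ))‖) :
    ∃ (v : V) (γ : ℕ → ℕ), ∀ i, ε / 2 ≤ ‖φ i (γ i) v‖ := by
  classical
  obtain ⟨a, ha, ha'⟩ : ∃ a : ℕ → ℕ, StrictMono a ∧
      ∀ n, ∀ i ≤ n, ε ≤ ‖φ i (a n) (dl (yy i (a n)))‖ := by
    refine extraction_forall_of_frequently (P := fun n γ => ∀ i ≤ n, ε ≤ ‖φ i γ (dl (yy i γ))‖)
      fun n => ?_
    have : ∀ᶠ γ in (hyperfilter ℕ : Filter ℕ), ∀ i ∈ Finset.range (n + 1),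
        ε ≤ ‖φ i γ (dl (yy i γ))‖ := (eventually_all_finset _).mpr fun i _ => h i
    refine (this.frequently.filter_mono Nat.hyperfilter_le_atTop).mono fun γ hγ i hi => ?_
    exact hγ i (Finset.mem_range.mpr (Nat.lt_succ_of_le hi))
  let T := {S : Set ℕ // S.Infinite ∧ S ⊆ range a}
  have step : ∀ (i : ℕ) (S : T), ∃ (γ : ℕ) (S' : T), γ ∈ S.1 ∧ γ ∉ S'.1 ∧ S'.1 ⊆ S.1 ∧
      ε ≤ ‖φ i γ (dl (yy i γ))‖ ∧ SmallOn ev π (φ i γ) S'.1 (ε / 2) := by
    rintro i ⟨S, hS, hSa⟩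
    obtain ⟨γ, hγ, hγ'⟩ := hS.exists_notMem_finite ((finite_lt_nat i).image a)
    obtain ⟨n, rfl⟩ := hSa hγ
    have hin : i ≤ n := not_lt.mp fun hlt => hγ' ⟨n, hlt, rfl⟩
    obtain ⟨S', h1, h2, h3⟩ := exists_smallOn hn π (φ i (a n)) (hS.sdiff (finite_singleton (a n)))
      (half_pos hε)
    exact ⟨a n, ⟨S', h2, fun x hx => hSa (h1 hx).1⟩, hγ, fun hx => (h1 hx).2 rfl,
      fun x hx => (h1 hx).1, ha' n i hin, h3⟩
  choose g nx hg1 hg2 hg3 hg4 hg5 using step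
  let S : ℕ → T := fun n => Nat.rec ⟨range a, infinite_range_of_injective ha.injective, Subset.rfl⟩
    (fun i S => nx i S) n
  have hS : ∀ i, S (i + 1) = nx i (S i) := fun _ => rfl
  let γ : ℕ → ℕ := fun i => g i (S i)
  have hanti : Antitone fun i => (S i).1 := antitone_nat_of_succ_le fun i => hg3 i (S i)
  have hmem : ∀ i j, i < j → γ j ∈ (S (i + 1)).1 := fun i j hij => hanti hij (hg1 j (S j))
  have hinj : Function.Injective fun i => yy i (γ i) := by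
    intro i j hij
    have e : γ i = γ j := by simpa [hπ] using congrArg π hij
    rcases lt_trichotomy i j with h | h | h
    · have := hmem i j h
      rw [← e] at this
      exact absurd this (hg2 i (S i))
    · exact h
    · have := hmem j i h
      rw [e] at this
      exact absurd this (hg2 j (S j))
  choose θ' hθ1 hθ2 using fun i (s : V) => exists_sign (φ i (γ i) s) (φ i (γ i) (dl (yy i (γ i))))
  let s : ℕ → V := fun n => Nat.rec 0 (fun i s => s + θ' i s • dl (yy i (γ i))) n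
  have hs0 : s 0 = 0 := rfl
  have hsS : ∀ i, s (i + 1) = s i + θ' i (s i) • dl (yy i (γ i)) := fun _ => rfl
  let θ : ℕ → ℂ := fun i => θ' i (s i)
  have hsv : ∀ n, (∀ j < n, ev (s n) (yy j (γ j)) = θ j) ∧
      ∀ y, (∀ j < n, yy j (γ j) ≠ y) → ev (s n) y = 0 := by
    intro n
    induction n with
    | zero => simp [hs0]
    | succ n ih =>
      refine ⟨fun j hj => ?_, fun y hy => ?_⟩
      · rw [hsS, map_add, map_smul, hdl, Pi.add_apply, Pi.smul_apply]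
        rcases (Nat.lt_succ_iff.mp hj).eq_or_lt with rfl | hlt
        · rw [ih.2 _ fun k hk e => absurd (hinj e) hk.ne]; simp [θ]
        · rw [ih.1 j hlt, Pi.single_eq_of_ne fun e => absurd (hinj e) hlt.ne]; simp
      · rw [hsS, map_add, map_smul, hdl, Pi.add_apply, Pi.smul_apply,
          ih.2 y fun j hj => hy j (Nat.lt_succ_of_lt hj),
          Pi.single_eq_of_ne (hy n (Nat.lt_succ_self n)).symm]
        simp
  obtain ⟨v, hv⟩ := hs (Function.extend (fun i => yy i (γ i)) θ 0) fun y => by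
    by_cases hy : ∃ i, yy i (γ i) = y
    · obtain ⟨i, rfl⟩ := hy
      rw [hinj.extend_apply]; exact hθ1 _ _
    · rw [Function.extend_apply' _ _ _ hy]; simp
  refine ⟨v, γ, fun i => ?_⟩
  have key : ∀ y, ev (v - s (i + 1)) y = 0 ∨ ∃ j, i < j ∧ y = yy j (γ j) ∧
      ev (v - s (i + 1)) y = θ j := fun y => by
    rw [map_sub, Pi.sub_apply, hv]
    by_cases hy : ∃ j, yy j (γ j) = y
    · obtain ⟨j, rfl⟩ := hy
      rw [hinj.extend_apply]
      by_cases hj : j < i + 1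
      · left; rw [(hsv _).1 j hj, sub_self]
      · right
        refine ⟨j, by omega, rfl, ?_⟩
        rw [(hsv (i + 1)).2 _ fun k hk e => hj (by have : k = j := hinj e; omega), sub_zero]
    · left
      rw [Function.extend_apply' _ _ _ hy, (hsv (i + 1)).2 y fun j _ e => hy ⟨j, e⟩]; simp
  have t1 : ‖φ i (γ i) (v - s (i + 1))‖ ≤ ε / 2 := by
    refine hg5 i (S i) _ (fun y => ?_) fun y hy => ?_
    · rcases key y with h | ⟨j, -, -, h⟩
      · simp [h]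
      · rw [h]; exact hθ1 _ _
    · rcases key y with h | ⟨j, hj, rfl, -⟩
      · exact h
      · exact absurd (by simpa [hπ] using hmem i j hj) hy
  have t2 : ε ≤ ‖φ i (γ i) (s (i + 1))‖ := by
    rw [hsS, map_add, map_smul, smul_eq_mul]
    exact (hg4 i (S i)).trans (hθ2 i (s i))
  have t3 : φ i (γ i) (s (i + 1)) = φ i (γ i) v - φ i (γ i) (v - s (i + 1)) := by simp
  have := norm_sub_le (φ i (γ i) v) (φ i (γ i) (v - s (i + 1)))
  rw [← t3] at this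
  linarith

end Pool.Agent.MP_75da70_an.H7
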