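import Pool.Agent.MP_75da70_an.H7.Delta

/-
The functionals attached to a chain of points and nested functions.
-/

namespace Pool.Agent.MP_75da70_an.H7

open Filter Topology Set

universe u

/-- the first `n` values of a sequence. -/
def Fl {α : Type*} (E : ℕ → α) (n : ℕ) : List α := (List.range n).map E

theorem Fl_succ {α : Type*} (E : ℕ → α) (n : ℕ) :
    Fl E (n + 1) = E 0 :: Fl (fun i => E (i + 1)) n := by
  simp [Fl, List.range_succ_eq_map, Function.comp_def]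

theorem Fl_zero {α : Type*} (E : ℕ → α) : Fl E 0 = [] := rfl

theorem Fl_length {α : Type*} (E : ℕ → α) (n : ℕ) : (Fl E n).length = n := by simp [Fl]

theorem Fl_map {α β : Type*} (E : ℕ → α) (n : ℕ) (f : α → β) :
    (Fl E n).map f = Fl (fun i => f (E i)) n := by simp [Fl, Function.comp_def]

theorem mem_Fl {α : Type*} {E : ℕ → α} {n : ℕ} {a : α} : a ∈ Fl E n ↔ ∃ i < n, E i = a := by
  simp [Fl]

theorem Fl_congr {α : Type*} {E E' : ℕ → α} {n : ℕ} (h : ∀ i < n, E i = E' i) :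
    Fl E n = Fl E' n :=
  List.map_congr_left fun i hi => h i (List.mem_range.mp hi)

/-- the first `n + 1` values with the `j`-th one omitted. -/
def Om {α : Type*} (E : ℕ → α) (n j : ℕ) : List α :=
  Fl (fun i => if i < j then E i else E (i + 1)) n

variable {Ω : Type u}

theorem chn_Fl : ∀ (n : ℕ) (W : ℕ → Ω),
    chn (W 0) (Fl (fun i => W (i + 1)) n) = Fl (fun i => (W i, W (i + 1))) n ∧
      (Fl (fun i => W (i + 1)) n).getLastD (W 0) = W n
  | 0, _ => ⟨rfl, rfl⟩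
  | n + 1, W => by
    have := chn_Fl n (fun i => W (i + 1))
    rw [Fl_succ, Fl_succ, chn, List.getLastD_cons]
    exact ⟨congrArg _ this.1, this.2⟩

variable [TopologicalSpace Ω]

theorem DS_Fl (p : Ω) : ∀ (n : ℕ) (E : ℕ → C(Ω, ℂ)) (θ : List C(Ω, ℂ) → ℂ),
    (∀ i < n, E i * E (i + 1) = E (i + 1)) → E n p = 1 →
      DS p (Fl E (n + 1)) θ = ∑ j ∈ Finset.range (n + 1), (-1) ^ j * θ (Om E n j)
  | 0, E, θ, _, h1 => by simp [Fl_succ, Fl_zero, DS, h1, Om]
  | n + 1, E, θ, h, h1 => by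
    have ih := DS_Fl p n (fun i => E (i + 1)) (fun l => θ (E 0 :: l))
      (fun i hi => h (i + 1) (by omega)) h1
    rw [Finset.sum_range_succ', Fl_succ, Fl_succ, DS, ← Fl_succ (fun i => E (i + 1)), ih,
      h 0 (by omega), ← Fl_succ (fun i => E (i + 1))]
    have e1 : Om E (n + 1) 0 = Fl (fun i => E (i + 1)) (n + 1) := by simp [Om]
    have e2 : ∀ j, Om E (n + 1) (j + 1) = E 0 :: Om (fun i => E (i + 1)) n j := fun j => by
      simp [Om, Fl_succ]
    simp only [e1, e2, pow_succ, mul_neg, mul_one, neg_mul, Finset.sum_neg_distrib, pow_zero,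
      one_mul]
    ring

theorem Dl_prodF : ∀ (n : ℕ) (P : ℕ → Ω × Ω) (F : ℕ → C(Ω, ℂ)),
    Dl (Fl P n) (prodF (Fl F n)) = ∏ i ∈ Finset.range n, (F i (P i).1 - F i (P i).2)
  | 0, _, _ => by simp [Fl_zero, Dl, prodF]
  | n + 1, P, F => by
    rw [Fl_succ, Fl_succ, Finset.prod_range_succ', Dl]
    simp only [prodF]
    rw [Dl_mul, Dl_mul, Dl_prodF n]
    ring

/-- the functional of a chain, applied to the family with the `j`-th function omitted. -/
noncomputable def Lam (R : List C(Ω, ℂ) → Ω → List Ω → ℂ) (n j : ℕ) (W : ℕ → Ω)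
    (E : ℕ → C(Ω, ℂ)) : ℂ :=
  Dl (Fl (fun i => (W (i + 1), W (i + 2))) n) fun as => R (Om E n j) (W (n + 1)) (W 0 :: as)

theorem Om_congr {α : Type*} {E E' : ℕ → α} {n j : ℕ} (h : ∀ i ≤ n, i ≠ j → E i = E' i) :
    Om E n j = Om E' n j :=
  Fl_congr fun i hi => by
    split_ifs with hij
    · exact h i hi.le hij.ne
    · exact h (i + 1) hi (by omega)

theorem Lam_congr (R : List C(Ω, ℂ) → Ω → List Ω → ℂ) {n j : ℕ} {W W' : ℕ → Ω}
    {E E' : ℕ → C(Ω, ℂ)} (hW : ∀ i ≤ n + 1, W i = W' i) (hE : ∀ i ≤ n, i ≠ j → E i = E' i) :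
    Lam R n j W E = Lam R n j W' E' := by
  simp only [Lam]
  rw [Om_congr hE, hW 0 (by omega), hW (n + 1) le_rfl,
    Fl_congr (E' := fun i => (W' (i + 1), W' (i + 2)))]
  intro i hi
  rw [hW (i + 1) (by omega), hW (i + 2) (by omega)]

variable [CompactSpace Ω] {n : ℕ} {R : List C(Ω, ℂ) → Ω → List Ω → ℂ} {C : ℝ}

theorem RData.exists_big (h : RData n R C) {W : ℕ → Ω} {E : ℕ → C(Ω, ℂ)}
    (hmul : ∀ i < n, E i * E (i + 1) = E (i + 1))
    (h1 : ∀ i k, i < k → k ≤ n + 1 → E i (W k) = 1)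
    (h0 : ∀ i k, k ≤ i → i ≤ n → E i (W k) = 0) :
    ∃ j ≤ n, 1 / (n + 1 : ℝ) ≤ ‖Lam R n j W E‖ := by
  have hc : ∀ as, ∑ j ∈ Finset.range (n + 1), (-1) ^ j * R (Om E n j) (W (n + 1)) (W 0 :: as) =
      ∑ j ∈ Finset.range (n + 1), (-1) ^ j * prodF (Om E n j) as := fun as => by
    have := h.cob (E 0) (Fl (fun i => E (i + 1)) n) (Fl_length _ _) (W 0) as (W (n + 1))
    rw [h0 0 0 le_rfl (Nat.zero_le _), ← Fl_succ, DS_Fl _ n E _ hmul (h1 _ _ (by omega) le_rfl),
      DS_Fl _ n E _ hmul (h1 _ _ (by omega) le_rfl)] at this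
    linear_combination -this
  have h2 : ∑ j ∈ Finset.range (n + 1), (-1) ^ j * Lam R n j W E = (-1) ^ n := by
    simp only [Lam, ← Dl_mul]
    rw [← Dl_sum]
    simp only [hc]
    rw [Dl_sum, Finset.sum_range_succ', Finset.sum_eq_zero, zero_add]
    · simp only [pow_zero, one_mul, Om]
      rw [Dl_prodF, Finset.prod_congr rfl (g := fun _ => -1)]
      · simp
      · intro i hi
        have := Finset.mem_range.mp hi
        simp [h0 (i + 1) (i + 1) le_rfl this, h1 (i + 1) (i + 2) (by omega) (by omega)]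
    · intro j hj
      have := Finset.mem_range.mp hj
      rw [Dl_mul, Om, Dl_prodF, Finset.prod_eq_zero (i := 0) (Finset.mem_range.mpr (by omega)),
        mul_zero]
      simp [h1 0 1 (by omega) (by omega), h1 0 2 (by omega) (by omega)]
  by_contra hcon
  push Not at hcon
  have h3 : ‖∑ j ∈ Finset.range (n + 1), (-1) ^ j * Lam R n j W E‖ <
      ∑ _j ∈ Finset.range (n + 1), 1 / (n + 1 : ℝ) := by
    refine (norm_sum_le _ _).trans_lt (Finset.sum_lt_sum_of_nonempty (by simp) fun j hj => ?_)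
    simpa using hcon j (Nat.lt_succ_iff.mp (Finset.mem_range.mp hj))
  rw [h2] at h3
  simp only [norm_pow, norm_neg, norm_one, one_pow, Finset.sum_const, Finset.card_range,
    nsmul_eq_mul] at h3
  push_cast at h3
  rw [mul_one_div_cancel (by positivity)] at h3
  exact lt_irrefl _ h3

theorem RData.Lam_small (h : RData n R C) (hn : 1 ≤ n) {j : ℕ} (hj : j ≤ n) {W : ℕ → Ω}
    {E : ℕ → C(Ω, ℂ)} {ε : ℝ} (hε : 0 ≤ ε) (hg : Gd (R (Om E n j)) ε (W j) (W (j + 1))) :
    ‖Lam R n j W E‖ ≤ 2 ^ n * ε := by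
  have hs : ∀ l l', Sw (W j) (W (j + 1)) l l' →
      ‖R (Om E n j) (W (n + 1)) (W 0 :: l) - R (Om E n j) (W (n + 1)) (W 0 :: l')‖ ≤ ε :=
    fun l l' hl => hg _ _ _ (hl.cons _)
  cases j with
  | zero =>
    obtain ⟨n, rfl⟩ : ∃ m, n = m + 1 := ⟨n - 1, by omega⟩
    have hc := chn_Fl n (fun i => W (i + 2))
    simp only [Lam]
    rw [Fl_succ, ← hc.1, Dl_cycle (v := R (Om E (n + 1) 0) (W (n + 1 + 1)))
      (fun l => by rw [hc.2]; exact h.cyc _ _ _)]
    refine (Dl_small hε _ _ hs (Or.inr (by simp))).trans (le_of_eq ?_)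
    rw [hc.1, List.length_cons, Fl_length]
  | succ j =>
    refine (Dl_small hε _ _ hs (Or.inl (mem_Fl.mpr ⟨j, by omega, rfl⟩))).trans (le_of_eq ?_)
    rw [Fl_length]

theorem RData.Lam_g2 (h : RData n R C) {I J : Type} {j : ℕ} {W : ℕ → I → J → Ω}
    {E : ℕ → I → J → C(Ω, ℂ)} (hW : ∀ i ≤ n + 1, OneSide (W i)) (p : J → Ω)
    (hp : ∀ r c, W (n + 1) r c = p c) (hE : ∀ i ≤ n, i ≠ j → Adm (E i)) :
    G2 (fun r c => Lam R n j (fun i => W i r c) (fun i => E i r c)) (2 ^ n * C) := by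
  have h1 := h.g2 I J (Om E n j) p (Fl_length _ _) fun F hF => by
    obtain ⟨i, hi, rfl⟩ := mem_Fl.mp hF
    split_ifs with hij
    · exact hE i hi.le hij.ne
    · exact hE (i + 1) hi (by omega)
  have h2 := GBF.Dl (Fl (fun i => (W (i + 1), W (i + 2))) n) (C := C)
    (U := fun r c l => R ((Om E n j).map fun F => F r c) (p c) (W 0 r c :: l))
    (by rw [Fl_length]; exact h1.cons (hW 0 (by omega))) fun q hq => by
      obtain ⟨i, hi, rfl⟩ := mem_Fl.mp hq
      exact ⟨hW _ (by omega), hW _ (by omega)⟩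
  rw [Fl_length] at h2
  refine h2.congr fun r c => ?_
  simp only [Lam, Om, Fl_map, hp, apply_ite (fun F : I → J → C(Ω, ℂ) => F r c)]

end Pool.Agent.MP_75da70_an.H7
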