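import Pool.Agent.MP_75da70_an.H7.Ess

/-
The induction step for tensor modules.
-/

namespace Pool.Agent.MP_75da70_an.H7

universe u

variable {A : Type u} [NonUnitalNormedRing A] [NormedSpace ℂ A] {Λ : Type*}

theorem Res2.step_tm (hc : ∀ a b : A, a * b = b * a) {e : Λ → A} (he : SignBdd e)
    (ho : ∀ v w, w ≠ v → e w * e v = 0) (hi : ∀ v, e v * e v = e v)
    {J J' Y Y' : BanMod A} (pJ : IsProjective J) (pJ' : IsProjective J')
    (eY : Ess e Y) (eY' : Ess e Y') (e' : Λ → J.carrier) (he' : SignBdd e')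
    (val : J.carrier →L[ℂ] A) (hv1 : ∀ v, val (e' v) = e v)
    (hv2 : ∀ a f, val (J.act a f) = a * val f) (hv3 : ∀ v, J.act (e v) (e' v) = e' v)
    (j : J'.carrier →L[ℂ] J.carrier) (mj : IsMor J' J j) (κ : J.carrier →L[ℂ] J'.carrier)
    (χ : Λ → J.carrier → ℂ) (k1 : ∀ v f, κ (J.act (e v) f) = J'.act (e v) (κ f))
    (k2 : ∀ f, κ (j f) = f) (k3 : ∀ v f, j (κ (J.act (e v) f)) = J.act (e v) f - χ v f • e' v)
    (i : Y'.carrier →L[ℂ] Y.carrier) (mi : IsMor Y' Y i) (hinj : Function.Injective i)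
    (m10 : PT J'.carrier Y.carrier →L[ℂ] Y'.carrier)
    (hm : ∀ f z, i (m10 (tm _ _ f z)) = Y.act (val (j f)) z) (h : Res2 Y') : Res2 Y := by
  have hcJ : ∀ (Z : BanMod A) a b z, Z.act a (Z.act b z) = Z.act b (Z.act a z) := fun Z a b z => by
    rw [← Z.act_mul, ← Z.act_mul, hc]
  have hiJ : ∀ (Z : BanMod A) v z, Z.act (e v) (Z.act (e v) z) = Z.act (e v) z := fun Z v z => by
    rw [← Z.act_mul, hi]
  obtain ⟨Q00, h00⟩ := eY.exists_Q he ho hi J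
  obtain ⟨Q01, h01⟩ := eY'.exists_Q he ho hi J
  obtain ⟨Q10, h10⟩ := eY.exists_Q he ho hi J'
  obtain ⟨Q11, h11⟩ := eY'.exists_Q he ho hi J'
  obtain ⟨ρ0, r0⟩ := eY.exists_rho he ho hi e' he'
  obtain ⟨ρ1, r1⟩ := eY'.exists_rho he ho hi e' he'
  have mQ : ∀ (J Z : BanMod A), Ess e Z → ∀ Q : PT J.carrier Z.carrier →L[ℂ] PT J.carrier Z.carrier,
      (∀ f v z, Q (tm _ _ f (Z.act (e v) z)) = tm _ _ (J.act (e v) f) (Z.act (e v) z)) →
      IsMor (TM J Z.carrier) (TM J Z.carrier) Q ∧ ∀ t, Q (Q t) = Q t := fun J Z hZ Q hQ =>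
    ⟨fun a => hZ.ext_tm (φ := Q.comp (TMact J Z.carrier a)) (ψ := (TMact J Z.carrier a).comp Q)
      fun f v z => by simp [hQ, hcJ J a], hZ.ext_tm (φ := Q.comp Q) (ψ := Q)
        fun f v z => by simp [hQ, hiJ]⟩
  have key : ∀ (Z : BanMod A), Ess e Z → ∀ Q : PT J.carrier Z.carrier →L[ℂ] PT J.carrier Z.carrier,
      (∀ f v z, Q (tm _ _ f (Z.act (e v) z)) = tm _ _ (J.act (e v) f) (Z.act (e v) z)) →
      ∀ ρ : Z.carrier →L[ℂ] PT J.carrier Z.carrier,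
      (∀ v z, ρ (Z.act (e v) z) = tm _ _ (e' v) (Z.act (e v) z)) →
      (∀ y, Q (ρ y) = ρ y) ∧ (∀ y, PT.lift (Z.act.comp val) (ρ y) = y) ∧
      ∀ t, Q t = PT.map j (.id ℂ _) (PT.map κ (.id ℂ _) (Q t)) + ρ (PT.lift (Z.act.comp val) (Q t) -
        PT.lift (Z.act.comp val) (PT.map j (.id ℂ _) (PT.map κ (.id ℂ _) (Q t)))) := by
    intro Z hZ Q hQ ρ hρ
    refine ⟨DFunLike.congr_fun (hZ.ext (φ := Q.comp ρ) (ψ := ρ) fun v z => by simp [hQ, hρ, hv3]),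
      DFunLike.congr_fun (hZ.ext (φ := (PT.lift (Z.act.comp val)).comp ρ) (ψ := .id ℂ _)
        fun v z => by simp [hρ, hv1, hiJ]), ?_⟩
    refine hZ.ext_tm (φ := Q) (ψ := (PT.map j (.id ℂ _)).comp ((PT.map κ (.id ℂ _)).comp Q) +
      ρ.comp ((PT.lift (Z.act.comp val)).comp Q - (PT.lift (Z.act.comp val)).comp
        ((PT.map j (.id ℂ _)).comp ((PT.map κ (.id ℂ _)).comp Q)))) fun f v z => ?_
    simp [hQ, k3, hv1, hiJ, hρ]
  obtain ⟨mQ00, q00⟩ := mQ J Y eY Q00 h00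
  obtain ⟨mQ01, q01⟩ := mQ J Y' eY' Q01 h01
  obtain ⟨mQ10, q10⟩ := mQ J' Y eY Q10 h10
  obtain ⟨mQ11, q11⟩ := mQ J' Y' eY' Q11 h11
  obtain ⟨c0, a5, key0⟩ := key Y eY Q00 h00 ρ0 r0
  obtain ⟨c1, a6, key1⟩ := key Y' eY' Q01 h01 ρ1 r1
  refine Res2.step (pJ.tm Y.carrier) (pJ.tm Y'.carrier) (pJ'.tm Y.carrier) (pJ'.tm Y'.carrier) i
    (PT.map (.id ℂ _) i) (PT.map (.id ℂ _) i) (PT.map j (.id ℂ _)) (PT.map j (.id ℂ _))
    (PT.map κ (.id ℂ _)) (PT.map κ (.id ℂ _)) (PT.lift (Y.act.comp val))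
    (PT.lift (Y'.act.comp val)) m10 ρ0 ρ1 Q00 Q01 Q10 Q11 mi
    (isMor_TM fun a f z => by simp) (isMor_TM fun a f z => by simp)
    (isMor_TM fun a f z => by simp [mj a]) (isMor_TM fun a f z => by simp [mj a])
    (isMor_TM fun a f z => by simp [hv2, Y.act_mul])
    (isMor_TM fun a f z => by simp [hv2, Y'.act_mul])
    (isMor_TM fun a f z => hinj (by rw [mi, hm, hm, mj, hv2, Y.act_mul]))
    mQ00 mQ01 mQ10 mQ11 q00 q01 q10 q11 ?_ ?_ ?_ ?_ ?_ ?_ c0 c1 ?_ ?_ ?_ ?_ a5 a6 ?_ ?_ ?_ ?_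
    key0 key1 h
  · exact eY'.ext_tm (φ := Q00.comp (PT.map (.id ℂ _) i)) (ψ := (PT.map (.id ℂ _) i).comp Q01)
      fun f v z => by simp [h00, h01, mi (e v)]
  · exact eY'.ext_tm (φ := Q10.comp (PT.map (.id ℂ _) i)) (ψ := (PT.map (.id ℂ _) i).comp Q11)
      fun f v z => by simp [h10, h11, mi (e v)]
  · exact eY.ext_tm (φ := Q00.comp (PT.map j (.id ℂ _))) (ψ := (PT.map j (.id ℂ _)).comp Q10)
      fun f v z => by simp [h00, h10, mj (e v)]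
  · exact eY'.ext_tm (φ := Q01.comp (PT.map j (.id ℂ _))) (ψ := (PT.map j (.id ℂ _)).comp Q11)
      fun f v z => by simp [h01, h11, mj (e v)]
  · exact eY.ext_tm (φ := Q10.comp (PT.map κ (.id ℂ _))) (ψ := (PT.map κ (.id ℂ _)).comp Q00)
      fun f v z => by simp [h00, h10, k1]
  · exact eY'.ext_tm (φ := Q11.comp (PT.map κ (.id ℂ _))) (ψ := (PT.map κ (.id ℂ _)).comp Q01)
      fun f v z => by simp [h01, h11, k1]
  · exact DFunLike.congr_fun (PT.ext (φ := (PT.lift (Y.act.comp val)).comp (PT.map (.id ℂ _) i))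
      (ψ := i.comp (PT.lift (Y'.act.comp val))) fun f z => by simp [mi (val f)])
  · exact DFunLike.congr_fun (PT.ext (φ := (PT.lift (Y.act.comp val)).comp (PT.map j (.id ℂ _)))
      (ψ := i.comp m10) fun f z => by simp [hm])
  · exact DFunLike.congr_fun (PT.ext (φ := (PT.map (.id ℂ _) i).comp (PT.map j (.id ℂ _)))
      (ψ := (PT.map j (.id ℂ _)).comp (PT.map (.id ℂ _) i)) fun f z => by simp)
  · exact DFunLike.congr_fun (PT.ext (φ := (PT.lift (Y'.act.comp val)).comp (PT.map j (.id ℂ _)))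
      (ψ := m10.comp (PT.map (.id ℂ _) i)) fun f z => hinj (by simp [hm, mi (val (j f))]))
  · exact DFunLike.congr_fun (eY'.ext (φ := (PT.map (.id ℂ _) i).comp ρ1) (ψ := ρ0.comp i)
      fun v z => by simp [r0, r1, mi (e v)])
  · exact DFunLike.congr_fun (PT.ext (φ := (PT.map κ (.id ℂ _)).comp (PT.map j (.id ℂ _)))
      (ψ := .id ℂ _) fun f z => by simp [k2])
  · exact DFunLike.congr_fun (PT.ext (φ := (PT.map κ (.id ℂ _)).comp (PT.map j (.id ℂ _)))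
      (ψ := .id ℂ _) fun f z => by simp [k2])
  · exact DFunLike.congr_fun (PT.ext (φ := (PT.map κ (.id ℂ _)).comp (PT.map (.id ℂ _) i))
      (ψ := (PT.map (.id ℂ _) i).comp (PT.map κ (.id ℂ _))) fun f z => by simp)

end Pool.Agent.MP_75da70_an.H7
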