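import Mathlib

/-
Trees of points and functions in a compact space of large Cantor-Bendixson height, and product
ultrafilters on lists.
-/

namespace Pool.Agent.MP_75da70_an.H7

open Filter Topology Set

universe u

/-- product ultrafilter on lists of length `k`. -/
noncomputable def UL : ℕ → Ultrafilter (List ℕ)
  | 0 => pure []
  | k + 1 => (hyperfilter ℕ).bind fun a => (UL k).map fun l => a :: l

theorem UL_zero (P : List ℕ → Prop) : (∀ᶠ l in (UL 0 : Filter (List ℕ)), P l) ↔ P [] := Iff.rfl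

theorem UL_succ (k : ℕ) (P : List ℕ → Prop) : (∀ᶠ l in (UL (k + 1) : Filter (List ℕ)), P l) ↔
    ∀ᶠ a in (hyperfilter ℕ : Filter ℕ), ∀ᶠ l in (UL k : Filter (List ℕ)), P (a :: l) :=
  Filter.eventually_bind

theorem UL_add : ∀ (k k' : ℕ) (P : List ℕ → Prop),
    (∀ᶠ l in (UL (k + k') : Filter (List ℕ)), P l) ↔
      ∀ᶠ s in (UL k : Filter (List ℕ)), ∀ᶠ s' in (UL k' : Filter (List ℕ)), P (s ++ s')
  | 0, k', P => by rw [zero_add, UL_zero]; rfl
  | k + 1, k', P => by
    rw [show k + 1 + k' = (k + k') + 1 by omega, UL_succ, UL_succ]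
    simp only [UL_add k k', List.cons_append]

theorem UL_length : ∀ k : ℕ, ∀ᶠ l in (UL k : Filter (List ℕ)), l.length = k
  | 0 => (UL_zero _).mpr rfl
  | k + 1 => (UL_succ _ _).mpr (Eventually.of_forall fun _ => (UL_length k).mono fun l hl => by
      simp [hl])

theorem UL_sorted : ∀ (k b : ℕ), ∀ᶠ l in (UL k : Filter (List ℕ)), (b :: l).Pairwise (· < ·)
  | 0, b => (UL_zero _).mpr (by simp)
  | k + 1, b => by
    rw [UL_succ]
    filter_upwards [Nat.hyperfilter_le_atTop (eventually_gt_atTop b)] with a ha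
    filter_upwards [UL_sorted k a] with l hl
    rw [List.pairwise_cons]
    refine ⟨fun x hx => ?_, hl⟩
    rcases List.mem_cons.mp hx with rfl | hx
    · exact ha
    · exact ha.trans ((List.pairwise_cons.mp hl).1 x hx)

variable {Ω : Type u} [TopologicalSpace Ω]

variable (Ω) in
/-- finite iterates of the derived set. -/
def Dm (m : ℕ) : Set Ω := derivedSet^[m] univ

theorem Dm_succ (m : ℕ) : Dm Ω (m + 1) = derivedSet (Dm Ω m) := Function.iterate_succ_apply' _ _ _

structure IsTree (m : ℕ) (G : Set Ω) (t : List ℕ → Ω) (e : List ℕ → C(Ω, ℂ)) : Prop where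
  mem : ∀ s, t s ∈ G
  supp : ∀ s x, x ∉ G → e s x = 0
  bd : ∀ s x, ‖e s x‖ ≤ 1
  lim : ∀ s, s.length < m → Tendsto (fun a => t (s ++ [a])) (hyperfilter ℕ) (𝓝 (t s))
  one : ∀ s s', (s ++ s').length ≤ m → e s (t (s ++ s')) = 1
  zero : ∀ s a s', (s ++ a :: s').length ≤ m → e (s ++ a :: s') (t s) = 0
  mul : ∀ s a s', (s ++ a :: s').length ≤ m → e s * e (s ++ a :: s') = e (s ++ a :: s')
  disj : ∀ s s', s.length = s'.length → s.length ≤ m → s ≠ s' → ∀ x, e s x = 0 ∨ e s' x = 0

theorem IsTree.lim' {m : ℕ} {G : Set Ω} {t : List ℕ → Ω} {e : List ℕ → C(Ω, ℂ)}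
    (h : IsTree m G t e) : ∀ (k : ℕ) (s : List ℕ), s.length + k ≤ m →
      Tendsto (fun s' => t (s ++ s')) (UL k) (𝓝 (t s))
  | 0, s, _ => by
    rw [tendsto_nhds]
    intro V _ hs
    exact (UL_zero _).mpr (by simpa using hs)
  | k + 1, s, hk => by
    rw [tendsto_nhds]
    intro V hV hs
    refine (UL_succ k fun l => t (s ++ l) ∈ V).mpr ?_
    filter_upwards [h.lim s (by omega) (hV.mem_nhds hs)] with a ha
    have := h.lim' k (s ++ [a]) (by simp; omega) (hV.mem_nhds ha)
    filter_upwards [this] with l hl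
    simpa using hl

theorem exists_ury [NormalSpace Ω] {K G : Set Ω} (hK : IsClosed K) (hG : IsOpen G) (h : K ⊆ G) :
    ∃ f : C(Ω, ℂ), (∀ x ∈ K, f x = 1) ∧ (∀ x, x ∉ G → f x = 0) ∧ ∀ x, ‖f x‖ ≤ 1 := by
  obtain ⟨f, h0, h1, h2⟩ := exists_continuous_zero_one_of_isClosed hG.isClosed_compl hK
    (disjoint_compl_left_iff_subset.mpr h)
  refine ⟨⟨fun x => (f x : ℂ), by fun_prop⟩, fun x hx => ?_, fun x hx => ?_, fun x => ?_⟩
  · simp [h1 hx]
  · simp [h0 hx]
  · simp only [ContinuousMap.coe_mk, Complex.norm_real, Real.norm_eq_abs]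
    exact abs_le.mpr ⟨by linarith [(h2 x).1], (h2 x).2⟩

theorem exists_disjoint_opens [T2Space Ω] {S G : Set Ω} {x : Ω} (hx : AccPt x (𝓟 S))
    (hG : IsOpen G) (hxG : x ∈ G) : ∃ U : ℕ → Set Ω, (∀ n, (U n ∩ S).Nonempty ∧ IsOpen (U n) ∧
      U n ⊆ G) ∧ Pairwise (Function.onFun Disjoint U) := by
  suffices ∃ U : ℕ → Set Ω, (∀ n, (U n ∩ S).Nonempty ∧ IsOpen (U n) ∧ U n ⊆ G ∧ (U n)ᶜ ∈ 𝓝 x) ∧
      Pairwise (Function.onFun Disjoint U) by
    rcases this with ⟨U, hU, hd⟩
    exact ⟨U, fun n => ⟨(hU n).1, (hU n).2.1, (hU n).2.2.1⟩, hd⟩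
  have : Std.Symm (α := Set Ω) Disjoint := ⟨fun _ _ h => h.symm⟩
  refine exists_seq_of_forall_finset_exists'
    (fun U : Set Ω => (U ∩ S).Nonempty ∧ IsOpen U ∧ U ⊆ G ∧ Uᶜ ∈ 𝓝 x) Disjoint fun T hT => ?_
  have h1 : G ∩ ⋂ U ∈ T, interior (Uᶜ) ∈ 𝓝 x := inter_mem (hG.mem_nhds hxG)
    ((biInter_finset_mem _).2 fun U hU => interior_mem_nhds.2 (hT _ hU).2.2.2)
  obtain ⟨y, ⟨hyU, hyS⟩, hyx⟩ := accPt_iff_nhds.mp hx _ h1
  rcases t2_separation hyx with ⟨V, W, hVo, hWo, hyV, hxW, hVW⟩
  refine ⟨V ∩ (G ∩ ⋂ U ∈ T, interior (Uᶜ)), ⟨⟨y, ⟨hyV, hyU⟩, hyS⟩, ?_, fun z hz => hz.2.1, ?_⟩,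
    fun U hU => ?_⟩
  · exact hVo.inter (hG.inter (isOpen_biInter_finset fun _ _ => isOpen_interior))
  · refine mem_of_superset (hWo.mem_nhds hxW) fun z hzW hz => ?_
    exact disjoint_left.1 hVW hz.1 hzW
  · exact disjoint_left.2 fun z hzU hz => interior_subset (mem_iInter₂.1 hz.2.2 U hU) hzU

theorem exists_tree [CompactSpace Ω] [T2Space Ω] : ∀ (m : ℕ) (G : Set Ω), IsOpen G →
    (G ∩ Dm Ω m).Nonempty → ∃ t e, IsTree m G t e
  | 0, G, hG, ⟨x, hx, _⟩ => by
    obtain ⟨f, h1, h0, h2⟩ := exists_ury (isClosed_singleton (x := x)) hG (by simpa using hx)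
    refine ⟨fun _ => x, fun _ => f, fun _ => hx, fun _ => h0, fun _ => h2, fun s hs => by omega,
      fun _ _ _ => h1 x rfl, fun s a s' hs => by simp at hs, fun s a s' hs => by simp at hs,
      fun s s' h1 h2 h3 => ?_⟩
    obtain rfl : s = [] := List.length_eq_zero_iff.mp (by omega)
    obtain rfl : s' = [] := List.length_eq_zero_iff.mp (by omega)
    exact absurd rfl h3
  | m + 1, G, hG, ⟨x, hx, hxD⟩ => by
    rw [Dm_succ] at hxD
    obtain ⟨K, hK, hKc, hKG⟩ := exists_mem_nhds_isClosed_subset (hG.mem_nhds hx)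
    obtain ⟨U, hU, hd⟩ := exists_disjoint_opens hxD isOpen_interior
      (mem_interior_iff_mem_nhds.mpr hK)
    choose t e h using fun a => exists_tree m (U a) (hU a).2.1 (hU a).1
    obtain ⟨f, h1, h0, h2⟩ := exists_ury hKc hG hKG
    have hUK : ∀ a, U a ⊆ K := fun a => (hU a).2.2.trans interior_subset
    obtain ⟨z, hzK, hz⟩ := hKc.isCompact.ultrafilter_le_nhds ((hyperfilter ℕ).map fun a => t a [])
      (by
        simp only [Ultrafilter.coe_map, le_principal_iff, mem_map]
        exact univ_mem' fun a => hUK a ((h a).mem _))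
    have hzU : ∀ a, z ∉ U a := fun a hza => by
      have h3 : ∀ᶠ b in (hyperfilter ℕ : Filter ℕ), t b [] ∈ U a := hz ((hU a).2.1.mem_nhds hza)
      obtain ⟨b, hb, hab⟩ := (h3.and (Nat.hyperfilter_le_atTop (eventually_gt_atTop a))).exists
      exact disjoint_left.mp (hd hab.ne) hb ((h b).mem _)
    let t' : List ℕ → Ω := fun s => match s with
      | [] => z
      | a :: s => t a s
    let e' : List ℕ → C(Ω, ℂ) := fun s => match s with
      | [] => f
      | a :: s => e a s
    have hK' : ∀ s, t' s ∈ K := fun s => by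
      cases s with
      | nil => exact hzK
      | cons a s => exact hUK a ((h a).mem s)
    refine ⟨t', e', fun s => hKG (hK' s), fun s y hy => ?_, fun s y => ?_, fun s hs => ?_,
      fun s s' hs => ?_, fun s a s' hs => ?_, fun s a s' hs => ?_, fun s s' h3 h4 h5 y => ?_⟩
    · cases s with
      | nil => exact h0 y hy
      | cons a s => exact (h a).supp s y fun hy' => hy (hKG (hUK a hy'))
    · cases s with
      | nil => exact h2 y
      | cons a s => exact (h a).bd s y
    · cases s with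
      | nil => exact hz
      | cons a s => exact (h a).lim s (by simpa using hs)
    · cases s with
      | nil => exact h1 _ (hK' _)
      | cons a s => exact (h a).one s s' (by simpa using hs)
    · cases s with
      | nil => exact (h a).supp s' z (hzU a)
      | cons b s => exact (h b).zero s a s' (by simp at hs ⊢; omega)
    · cases s with
      | nil =>
        ext y
        change f y * e a s' y = e a s' y
        by_cases hy : y ∈ U a
        · rw [h1 y (hUK a hy), one_mul]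
        · rw [(h a).supp s' y hy, mul_zero]
      | cons b s => exact (h b).mul s a s' (by simp at hs ⊢; omega)
    · match s, s', h3, h4, h5 with
      | [], [], _, _, h5 => exact absurd rfl h5
      | a :: s, b :: s', h3, h4, h5 =>
        by_cases hab : a = b
        · subst hab
          exact (h a).disj s s' (by simpa using h3) (by simpa using h4) (by simpa using h5) y
        · by_cases hy : y ∈ U a
          · exact Or.inr ((h b).supp s' y (disjoint_left.mp (hd hab) hy))
          · exact Or.inl ((h a).supp s y hy)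

end Pool.Agent.MP_75da70_an.H7
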