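import Pool.Agent.MP_75da70_an.H7.Lam
import Pool.Agent.MP_75da70_an.H7.Tree

/-
Compact spaces of infinite Cantor-Bendixson height: the test module has no finite resolution.
-/

namespace Pool.Agent.MP_75da70_an.H7

open Filter Topology Set
open scoped InnerProductSpace

universe u

variable {Ω : Type u} [TopologicalSpace Ω]

noncomputable def eK (e : List ℕ → C(Ω, ℂ)) (k : ℕ) (s : List ℕ) : C(Ω, ℂ) :=
  if s.length = k then e s else 0

def cW (t : List ℕ → Ω) (x : ℕ → ℕ) (π : List ℕ) (i : ℕ) : Ω := t (π.take (x (2 * i)))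

noncomputable def cE (e : List ℕ → C(Ω, ℂ)) (x : ℕ → ℕ) (π : List ℕ) (i : ℕ) : C(Ω, ℂ) :=
  eK e (x (2 * i + 1)) (π.take (x (2 * i + 1)))

def Big (R : List C(Ω, ℂ) → Ω → List Ω → ℂ) (n m : ℕ) (t : List ℕ → Ω) (e : List ℕ → C(Ω, ℂ))
    (j : ℕ) (x : ℕ → ℕ) : Prop :=
  ∀ᶠ π in (UL m : Filter (List ℕ)), 1 / (n + 1 : ℝ) ≤ ‖Lam R n j (cW t x π) (cE e x π)‖

def Pos (n m : ℕ) (x : ℕ → ℕ) : Prop :=
  (∀ a b, a < b → b ≤ 2 * n + 2 → x a < x b) ∧ x (2 * n + 2) = m

theorem Pos.le {n m : ℕ} {x : ℕ → ℕ} (h : Pos n m x) {a b : ℕ} (hab : a ≤ b)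
    (hb : b ≤ 2 * n + 2) : x a ≤ x b := by
  rcases hab.eq_or_lt with rfl | hab
  · exact le_rfl
  · exact (h.1 a b hab hb).le

theorem Pos.le_m {n m : ℕ} {x : ℕ → ℕ} (h : Pos n m x) {a : ℕ} (ha : a ≤ 2 * n + 2) : x a ≤ m :=
  h.2 ▸ h.le ha le_rfl

theorem take_split (π : List ℕ) {a b : ℕ} (hab : a < b) (hb : b ≤ π.length) :
    ∃ c s, π.take b = π.take a ++ c :: s := by
  have h1 : π.take b = π.take a ++ (π.take b).drop a := by
    conv_lhs => rw [← List.take_append_drop a (π.take b)]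
    rw [List.take_take, min_eq_left hab.le]
  have h2 : (π.take b).drop a ≠ [] := by
    rw [Ne, List.drop_eq_nil_iff, List.length_take]; omega
  obtain ⟨c, s, h3⟩ := List.exists_cons_of_ne_nil h2
  exact ⟨c, s, h3 ▸ h1⟩

variable [CompactSpace Ω] {n : ℕ} {R : List C(Ω, ℂ) → Ω → List Ω → ℂ} {C : ℝ}
  {m : ℕ} {G : Set Ω} {t : List ℕ → Ω} {e : List ℕ → C(Ω, ℂ)}

theorem RData.exists_Big (h : RData n R C) (hT : IsTree m G t e) {x : ℕ → ℕ} (hx : Pos n m x) :
    ∃ j ≤ n, Big R n m t e j x := by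
  by_contra hcon
  push Not at hcon
  have h1 : ∀ᶠ π in (UL m : Filter (List ℕ)), ∀ j ∈ Finset.range (n + 1),
      ¬ 1 / (n + 1 : ℝ) ≤ ‖Lam R n j (cW t x π) (cE e x π)‖ :=
    (eventually_all_finset _).mpr fun j hj => Ultrafilter.eventually_not.mpr
      (hcon j (Nat.lt_succ_iff.mp (Finset.mem_range.mp hj)))
  obtain ⟨π, h2, h3⟩ := (h1.and (UL_length m)).exists
  have hE : ∀ i ≤ n, cE e x π i = e (π.take (x (2 * i + 1))) := fun i hi => by
    have := hx.le_m (a := 2 * i + 1) (by omega)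
    simp only [cE, eK]
    rw [if_pos (by rw [List.length_take]; omega)]
  obtain ⟨j, hj, h4⟩ := h.exists_big (W := cW t x π) (E := cE e x π) (fun i hi => by
    rw [hE i hi.le, hE (i + 1) hi]
    have hb := hx.le_m (a := 2 * (i + 1) + 1) (by omega)
    obtain ⟨c, s, hs⟩ := take_split π (hx.1 (2 * i + 1) (2 * (i + 1) + 1) (by omega) (by omega))
      (by omega)
    rw [hs]
    exact hT.mul _ _ _ (by rw [← hs, List.length_take]; omega)) (fun i k hik hk => by
    rw [hE i (by omega), cW]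
    have hb := hx.le_m (a := 2 * k) (by omega)
    obtain ⟨c, s, hs⟩ := take_split π (hx.1 (2 * i + 1) (2 * k) (by omega) (by omega)) (by omega)
    rw [hs]
    exact hT.one _ _ (by rw [← hs, List.length_take]; omega)) (fun i k hik hi => by
    rw [hE i hi, cW]
    have hb := hx.le_m (a := 2 * i + 1) (by omega)
    obtain ⟨c, s, hs⟩ := take_split π (hx.1 (2 * k) (2 * i + 1) (by omega) (by omega)) (by omega)
    rw [hs]
    exact hT.zero _ _ _ (by rw [← hs, List.length_take]; omega))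
  exact h2 j (Finset.mem_range.mpr (Nat.lt_succ_of_le hj)) h4

theorem RData.not_Big_last (h : RData n R C) (hn : 1 ≤ n) (hT : IsTree m G t e) {x : ℕ → ℕ}
    (hx : Pos n m x) : ¬ Big R n m t e n x := by
  intro hB
  obtain ⟨k, hk⟩ := Nat.exists_eq_add_of_le (hx.le_m (a := 2 * n) (by omega))
  rw [Big, hk, UL_add] at hB
  obtain ⟨σ, h1, hσ⟩ := (hB.and (UL_length _)).exists
  have hε : (0 : ℝ) < 1 / (n + 1) / 2 / 2 ^ n := by positivity
  have h2 := h.uc_ultra (UL k) (hT.lim' k σ (by omega)) (Om (cE e x σ) n n) (Fl_length _ _) hε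
  obtain ⟨τ, ⟨h3, h4⟩, hτ⟩ := ((h1.and h2).and (UL_length _)).exists
  have h5 := h.Lam_small hn le_rfl (W := cW t x (σ ++ τ)) (E := cE e x (σ ++ τ)) hε.le (by
    rw [Om_congr (E' := cE e x σ)]
    · convert h4 using 1
      · rw [cW, ← hσ, List.take_left]
      · rw [cW, List.take_of_length_le]
        rw [List.length_append, hσ, hτ, ← hk, ← hx.2]; exact le_rfl
    · intro i hi hne
      have := hx.le (a := 2 * i + 1) (b := 2 * n) (by omega) (by omega)
      simp only [cE]
      rw [List.take_append_of_le_length (by omega)])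
  have h6 : (2 : ℝ) ^ n * (1 / (n + 1) / 2 / 2 ^ n) = 1 / (n + 1) / 2 := by field_simp
  have h7 : (0 : ℝ) < 1 / (n + 1) := by positivity
  linarith

theorem IsTree.signBdd (hT : IsTree m G t e) {k : ℕ} (hk : k ≤ m) : SignBdd (eK e k) := by
  refine signBdd_of_disjoint _ (fun s y => ?_) fun s s' hs y => ?_
  · simp only [eK]; split_ifs
    · exact hT.bd s y
    · simp
  · simp only [eK]; split_ifs with h1 h2
    · exact hT.disj s s' (by omega) (by omega) hs y
    all_goals simp

theorem RData.Big_mid (h : RData n R C) (hT : IsTree m G t e) {j : ℕ} (hj : j < n) {N : ℕ}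
    (x : Fin N → ℕ → ℕ) (x0 : ℕ → ℕ) (hx : ∀ r, Pos n m (x r))
    (hx0 : ∀ r i, i < 2 * j ∨ 2 * j + 2 < i → x r i = x0 i)
    (hlt : ∀ r s, r < s → x r (2 * j + 2) ≤ x s (2 * j)) (hB : ∀ r, Big R n m t e j (x r)) :
    N * (1 / (n + 1 : ℝ)) ^ 2 ≤ (2 ^ n * C) ^ 2 := by
  rcases Nat.eq_zero_or_pos N with rfl | hN
  · simp only [Nat.cast_zero, zero_mul]; positivity
  let r0 : Fin N := ⟨0, hN⟩
  let Wm : ℕ → Fin N × List ℕ → List ℕ → Ω := fun i r c =>
    if i ≤ j + 1 then cW t (x r.1) r.2 i else cW t x0 c i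
  let Em : ℕ → Fin N × List ℕ → List ℕ → C(Ω, ℂ) := fun i r c =>
    if i ≤ j then cE e x0 r.2 i else cE e x0 c i
  have hG := h.Lam_g2 (j := j) (W := Wm) (E := Em) (fun i _ => by
      by_cases hi : i ≤ j + 1
      · simp only [Wm, if_pos hi]; exact OneSide.row _
      · simp only [Wm, if_neg hi]; exact OneSide.col _)
    (fun c => cW t x0 c (n + 1)) (fun r c => if_neg (by omega)) fun i hi hij => by
      have hs : SignBdd (eK e (x0 (2 * i + 1))) := hT.signBdd (by
        rw [← hx0 r0 _ (by omega)]; exact (hx r0).le_m (by omega))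
      by_cases hi' : i ≤ j
      · exact ⟨_, _, fun r _ => r.2.take (x0 (2 * i + 1)), hs, OneSide.row _,
          fun r c => if_pos hi'⟩
      · exact ⟨_, _, fun _ c => c.take (x0 (2 * i + 1)), hs, OneSide.col _, fun r c => if_neg hi'⟩
  obtain ⟨H, _, _, ξ, η, hξ, hη, hM, hw⟩ := hG.hilbert'
  have hdiag : ∀ r π, ⟪ξ (r, π.take (x r (2 * j + 2))), η π⟫_ℂ =
      Lam R n j (cW t (x r) π) (cE e (x r) π) := fun r π => by
    rw [hM]
    refine Lam_congr R (fun i hi => ?_) fun i hi hij => ?_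
    · simp only [Wm]; split_ifs with hi'
      · simp only [cW]
        rw [List.take_take, min_eq_left ((hx r).le (by omega) (by omega))]
      · simp only [cW]
        rw [hx0 r _ (by omega)]
    · simp only [Em]; split_ifs with hi'
      · simp only [cE]
        rw [← hx0 r _ (by omega), List.take_take, min_eq_left ((hx r).le (by omega) (by omega))]
      · simp only [cE]
        rw [hx0 r _ (by omega)]
  have hnull : ∀ δ : ℝ, 0 < δ → ∀ r s, r < s → ∀ᶠ π in (UL m : Filter (List ℕ)),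
      ‖⟪ξ (s, π.take (x s (2 * j + 2))), ξ (r, π.take (x r (2 * j + 2)))⟫_ℂ‖ ≤ δ := by
    intro δ hδ r s hrs
    obtain ⟨k, hk⟩ := Nat.exists_eq_add_of_le ((hx s).le (a := 2 * j) (b := 2 * j + 2) (by omega)
      (by omega))
    obtain ⟨k', hk'⟩ := Nat.exists_eq_add_of_le ((hx s).le_m (a := 2 * j + 2) (by omega))
    rw [show m = x s (2 * j) + (k + k') by omega, UL_add]
    filter_upwards [UL_length _] with σ hσ
    rw [UL_add]
    have h1 := hw (List ℕ) (UL k) (fun τ => (s, σ ++ τ)) (fun c => ?_)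
      (r, σ.take (x r (2 * j + 2)))
    · filter_upwards [h1.norm.eventually (gt_mem_nhds (by simpa using hδ)), UL_length k]
        with τ h2 hτ
      refine Eventually.of_forall fun ρ => ?_
      have := hlt r s hrs
      rw [List.take_append_of_le_length (l₁ := σ) (i := x r (2 * j + 2)) (by omega),
        ← List.append_assoc, List.take_left' (by rw [List.length_append]; omega)]
      exact h2.le
    · rw [Metric.tendsto_nhds]
      intro ε hε
      have hε' : (0 : ℝ) < ε / 2 / 2 ^ n := by positivity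
      filter_upwards [h.uc_ultra (UL k) (hT.lim' k σ (by omega))
        (Om (fun i => Em i (s, σ) c) n j) (Fl_length _ _) hε', UL_length k] with τ h2 hτ
      rw [dist_zero_right]
      refine (h.Lam_small (by omega) hj.le hε'.le ?_).trans_lt ?_
      · rw [Om_congr (E' := fun i => Em i (s, σ) c)]
        · convert h2 using 1
          · simp only [Wm, if_pos (Nat.le_succ j), cW]
            rw [← hσ, List.take_left]
          · simp only [Wm, if_pos (le_refl (j + 1)), cW]
            rw [List.take_of_length_le]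
            rw [List.length_append, hσ, hτ, ← hk]; exact le_rfl
        · intro i hi hne
          simp only [Em]; split_ifs with hi'
          · have := (hx s).le (a := 2 * i + 1) (b := 2 * j) (by omega) (by omega)
            simp only [cE]
            rw [← hx0 s _ (by omega), List.take_append_of_le_length (by omega)]
          · rfl
      · have : (2 : ℝ) ^ n * (ε / 2 / 2 ^ n) = ε / 2 := by field_simp
        linarith
  have hC : 0 ≤ 2 ^ n * C := mul_nonneg (by positivity) h.nonneg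
  have key : ∀ δ : ℝ, 0 < δ → (N * (1 / (n + 1 : ℝ))) ^ 2 ≤
      (2 ^ n * C) * (N * (2 ^ n * C) + N * N * δ) := fun δ hδ => by
    have h1 : ∀ᶠ π in (UL m : Filter (List ℕ)), ∀ r s, r < s →
        ‖⟪ξ (s, π.take (x s (2 * j + 2))), ξ (r, π.take (x r (2 * j + 2)))⟫_ℂ‖ ≤ δ :=
      eventually_all.mpr fun r => eventually_all.mpr fun s => eventually_all.mpr fun hrs =>
        hnull δ hδ r s hrs
    obtain ⟨π, h2, h3⟩ := (h1.and (eventually_all.mpr hB)).exists
    refine bessel_estimate (fun r => ξ (r, π.take (x r (2 * j + 2)))) (η π) (by positivity) hδ.le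
      (fun r => hξ _) (hη _) (fun r => ?_) fun r s hrs => ?_
    · rw [hdiag]; exact h3 r
    · rcases lt_or_gt_of_ne hrs with hlt | hlt
      · rw [norm_inner_symm]; exact h2 r s hlt
      · exact h2 s r hlt
  have hN' : (0 : ℝ) < N := by exact_mod_cast hN
  have key2 : (N * (1 / (n + 1 : ℝ))) ^ 2 ≤ (2 ^ n * C) * (N * (2 ^ n * C)) := by
    have ht : Tendsto (fun δ : ℝ => (2 ^ n * C) * (N * (2 ^ n * C) + N * N * δ)) (𝓝[>] 0)
        (𝓝 ((2 ^ n * C) * (N * (2 ^ n * C) + N * N * 0))) :=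
      (Continuous.tendsto (by fun_prop) 0).mono_left nhdsWithin_le_nhds
    have := ge_of_tendsto ht (eventually_mem_nhdsWithin.mono fun δ hδ => key δ hδ)
    simpa using this
  refine le_of_mul_le_mul_left ?_ hN'
  nlinarith

theorem getD_mid (pre mid mid' post : List ℕ) (h : mid.length = mid'.length) (i : ℕ)
    (hi : i < pre.length ∨ pre.length + mid.length ≤ i) :
    (pre ++ (mid ++ post)).getD i 0 = (pre ++ (mid' ++ post)).getD i 0 := by
  rcases hi with hi | hi
  · rw [List.getD_append _ _ _ _ hi, List.getD_append _ _ _ _ hi]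
  · rw [List.getD_append_right _ _ _ _ (by omega), List.getD_append_right _ _ _ _ (by omega),
      List.getD_append_right pre _ _ _ (by omega), List.getD_append_right _ _ _ _ (by omega), h]

theorem not_RData [T2Space Ω] (hΩ : ∀ m, (Dm Ω m).Nonempty) (hn : 1 ≤ n) : ¬ RData n R C := by
  intro h
  choose t e hT using fun m => exists_tree (Ω := Ω) m univ isOpen_univ (by simpa using hΩ m)
  let X : List ℕ → ℕ → ℕ := fun q i => q.getD i 0
  have hpos : ∀ᶠ q in (UL (2 * n + 3) : Filter (List ℕ)), Pos n (X q (2 * n + 2)) (X q) := by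
    filter_upwards [UL_length _, UL_sorted _ 0] with q h1 h2
    refine ⟨fun a b hab hb => ?_, rfl⟩
    simp only [X]
    rw [List.getD_eq_getElem _ _ (by omega), List.getD_eq_getElem _ _ (by omega)]
    exact List.pairwise_iff_getElem.mp (List.pairwise_cons.mp h2).2 a b _ _ hab
  obtain ⟨j, hj, hB⟩ : ∃ j ≤ n, ∀ᶠ q in (UL (2 * n + 3) : Filter (List ℕ)),
      Big R n (X q (2 * n + 2)) (t (X q (2 * n + 2))) (e (X q (2 * n + 2))) j (X q) := by
    by_contra hcon
    push Not at hcon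
    have h1 : ∀ᶠ q in (UL (2 * n + 3) : Filter (List ℕ)), ∀ j ∈ Finset.range (n + 1),
        ¬ Big R n (X q (2 * n + 2)) (t (X q (2 * n + 2))) (e (X q (2 * n + 2))) j (X q) :=
      (eventually_all_finset _).mpr fun j hj =>
        hcon j (Nat.lt_succ_iff.mp (Finset.mem_range.mp hj))
    obtain ⟨q, h2, h3⟩ := (h1.and hpos).exists
    obtain ⟨j, hj, h4⟩ := h.exists_Big (hT _) h3
    exact h2 j (Finset.mem_range.mpr (Nat.lt_succ_of_le hj)) h4
  rcases hj.eq_or_lt with rfl | hj
  · obtain ⟨q, h2, h3⟩ := (hB.and hpos).exists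
    exact h.not_Big_last hn (hT _) h3 h2
  have h1 := hB.and hpos
  rw [show 2 * n + 3 = 2 * j + (3 + (2 * n - 2 * j)) by omega, UL_add] at h1
  obtain ⟨pre, h2, hpre⟩ := (h1.and (UL_length _)).exists
  rw [UL_add] at h2
  choose F hF using fun b => ((h2.and (UL_length 3)).and (UL_sorted 3 b)).exists
  let b : ℕ → ℕ := fun r => Nat.rec 0 (fun _ c => (F c).getD 2 0) r
  have hb : ∀ r, b (r + 1) = (F (b r)).getD 2 0 := fun _ => rfl
  have hF' : ∀ c, c < (F c).getD 0 0 ∧ c < (F c).getD 2 0 := fun c => by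
    obtain ⟨a1, a2, a3, h3⟩ := List.length_eq_three.mp (hF c).1.2
    have := (hF c).2
    rw [h3] at this ⊢
    simp only [List.pairwise_cons, List.mem_cons, List.not_mem_nil, or_false, forall_eq_or_imp,
      forall_eq] at this
    exact ⟨this.1.1, this.1.2.2⟩
  have hmono : Monotone b := monotone_nat_of_le_succ fun r => by rw [hb]; exact (hF' _).2.le
  obtain ⟨N, hN⟩ := exists_nat_gt ((2 ^ n * C) ^ 2 / (1 / (n + 1 : ℝ)) ^ 2)
  obtain ⟨post, h3⟩ := (eventually_all.mpr fun r : Fin N => (hF (b r)).1.1).exists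
  let x0 := X (pre ++ ([0, 0, 0] ++ post))
  have hx0 : ∀ (r : Fin N) i, i < 2 * j ∨ 2 * j + 2 < i →
      X (pre ++ (F (b r) ++ post)) i = x0 i := fun r i hi =>
    getD_mid _ _ _ _ (hF _).1.2 i (by rw [hpre, (hF _).1.2]; omega)
  have hm : ∀ r : Fin N, X (pre ++ (F (b r) ++ post)) (2 * n + 2) = x0 (2 * n + 2) :=
    fun r => hx0 r _ (by omega)
  have hmid : ∀ (r : Fin N) i, i < 3 →
      X (pre ++ (F (b r) ++ post)) (2 * j + i) = (F (b r)).getD i 0 := fun r i hi => by
    simp only [X]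
    rw [List.getD_append_right _ _ _ _ (by omega), hpre, Nat.add_sub_cancel_left,
      List.getD_append _ _ _ _ (by rw [(hF _).1.2]; exact hi)]
  have := h.Big_mid (hT (x0 (2 * n + 2))) hj (fun r : Fin N => X (pre ++ (F (b r) ++ post))) x0
    (fun r => hm r ▸ (h3 r).2) hx0 (fun r s hrs => ?_) fun r => hm r ▸ (h3 r).1
  · rw [div_lt_iff₀ (by positivity)] at hN
    linarith
  · have h4 := hmid s 0 (by omega)
    rw [add_zero] at h4
    rw [hmid r 2 (by omega), h4, ← hb]
    exact (hmono (show (r : ℕ) + 1 ≤ s from hrs)).trans (hF' _).1.le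

omit [TopologicalSpace Ω] [CompactSpace Ω] in
theorem HasProjRes.mono {A : Type u} [NonUnitalNormedRing A] [NormedSpace ℂ A] {X : BanMod A}
    {k k' : ℕ} (h : HasProjRes X k) (hk : k ≤ k') : HasProjRes X k' := by
  obtain ⟨P, ε, d, t, s, h1, h2, h3, h4, h5, h6, h7, h8, h9⟩ := h
  exact ⟨P, ε, d, t, s, h1, h2, h3, h4, h5, h6, h7, h8, fun i hi => h9 i (by omega)⟩

theorem dg_eq_top [T2Space Ω] (hΩ : ∀ m, (Dm Ω m).Nonempty) : dg C(Ω, ℂ) = ⊤ := by
  refine top_le_iff.mp (le_trans ?_ (le_iSup dh (QM Ω 0)))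
  refine le_iInf fun k => le_iInf fun hk => ?_
  obtain ⟨R, C, h⟩ := exists_RData (hk.mono (Nat.le_succ k))
  exact absurd h (not_RData hΩ (by omega))

end Pool.Agent.MP_75da70_an.H7
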