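import Pool.Agent.MP_75da70_an.H7.Upper
import Pool.Agent.MP_75da70_an.H7.Step2
import Pool.Agent.MP_75da70_an.H7.ThmA

/-
The global dimension of an algebra of continuous functions is at most two or at least four.
-/

namespace Pool.Agent.MP_75da70_an.H7

open Filter Topology Set

universe u

variable {Ω : Type u} [TopologicalSpace Ω] [CompactSpace Ω] {U : Set Ω} {r : Ω → Ω}

theorem PP.res2_step (h : PP U r) (hU' : DU {x | x ∈ U ∧ r x ≠ x}) (X : BanMod C(Ω, ℂ))
    (hres : Res2 (XM X {x | x ∈ U ∧ r x ≠ x})) : Res2 (XM X U) := by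
  have hsub : {x | x ∈ U ∧ r x ≠ x} ⊆ U := fun x hx => hx.1
  obtain ⟨κ, hκ⟩ := h.exists_kappa
  obtain ⟨m, hm⟩ := exists_mul X {x | x ∈ U ∧ r x ≠ x} U {x | x ∈ U ∧ r x ≠ x}
    fun f hf x _ => XS_mem X hf x
  have k1 : ∀ v (f : JS U), κ (Jact U (ee U r v) f) = Jact _ (ee U r v) (κ f) := fun v f => by
    refine DFunLike.congr_fun ((h.ess_J Subset.rfl).ext (φ := κ.comp (Jact U (ee U r v)))
      (ψ := (Jact _ (ee U r v)).comp κ) fun w g => Subtype.ext ?_) f
    have e1 := hκ v (Jact U (ee U r w) g)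
    have e2 := hκ w g
    simp only [ContinuousLinearMap.comp_apply, Jact_val] at e1 e2 ⊢
    rw [e1, e2, ContinuousMap.mul_apply, mul_comm (ee U r w v), mul_smul, h.ee_smul, mul_sub,
      mul_smul_comm]
    rcases eq_or_ne w v with rfl | hne
    · rfl
    · simp [h.ee_orth v w hne, h.ee_orth w v hne.symm]
  refine Res2.step_tm mul_comm h.signBdd h.ee_orth h.ee_idem (J := JM U)
    (J' := JM {x | x ∈ U ∧ r x ≠ x}) (DU.projective ⟨r, h⟩) hU'.projective
    (h.ess_X X Subset.rfl) (h.ess_X X hsub) _ h.signBdd' (JS U).subtypeL (fun _ => rfl)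
    (fun _ _ => rfl) (fun v => Subtype.ext (h.ee_idem v))
    ((JS _).subtypeL.codRestrict _ fun f => JS_mono hsub f.2) (fun _ _ => rfl) κ
    (fun v f => f.1 v) k1 (fun f => ?_) (fun v f => Subtype.ext (hκ v f))
    ((XS X _).subtypeL.codRestrict _ fun z => XS_mono X hsub z.2) (fun _ _ => rfl)
    (fun z z' e => Subtype.ext (congrArg (fun w : XS X U => (w : X.carrier)) e)) m (fun f z => Subtype.ext (hm f z)) hres
  refine DFunLike.congr_fun ((h.ess_J hsub).ext (φ := κ.comp ((JS _).subtypeL.codRestrict _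
    fun f => JS_mono hsub f.2)) (ψ := .id ℂ _) fun v g => Subtype.ext ?_) f
  refine (hκ v ⟨g.1, JS_mono hsub g.2⟩).trans ?_
  have : g.1 v • ee U r v = 0 := by
    ext y
    simp only [ContinuousMap.smul_apply, h.ee_apply, smul_eq_mul, ContinuousMap.zero_apply]
    split_ifs with hy
    · rw [g.2 v fun hv => hv.2 (by rw [← hy.2, (h.1 y hy.1).2]), zero_mul]
    · simp
  change ee U r v * g.1 - g.1 v • ee U r v = ee U r v * g.1
  rw [this, sub_zero]

theorem res2_XM [T2Space Ω] [TotallyDisconnectedSpace Ω] (hG : ∀ o : Ω, DU {o}ᶜ)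
    (X : BanMod C(Ω, ℂ)) : ∀ (k : ℕ) (U : Set Ω), DU U → U ∩ Dm Ω k = ∅ → Res2 (XM X U)
  | 0, U, _, hD => by
    have hU : U = ∅ := by simpa [Dm] using hD
    refine Res2.of_subsingleton fun z => Subtype.ext ?_
    refine XS_le (S := ⊥) (by simp) (fun f hf x => ?_) z.2
    have : f = 0 := by ext y; exact hf y (by simp [hU])
    simp [this]
  | k + 1, U, hU, hD => by
    obtain ⟨r, h, hr⟩ := hU.refine hD
    exact h.res2_step (h.DU_diff hG) X (res2_XM hG X k _ (h.DU_diff hG)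
      (eq_empty_iff_forall_notMem.mpr fun x hx => hx.1.2 (hr x ⟨hx.1.1, hx.2⟩)))

theorem dg_le_two [T2Space Ω] {H : ℕ} (hH : Dm Ω H = ∅) (hG : ∀ o : Ω, DU {o}ᶜ) :
    dg C(Ω, ℂ) ≤ 2 := by
  have := totDisc hH
  refine iSup_le fun X => iInf₂_le 2 (Res2.hasProjRes ?_)
  refine Res2.of_essential 1 mul_one (XS X univ) (isClosed_XS X univ) (XS_act X univ)
    (fun x => XS_mem X (fun _ hx => absurd trivial hx) x) (fun x hx => ?_)
    (res2_XM hG X H univ (DU.of_clopen isClopen_univ) (by simp [hH]))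
  have := XS_le (S := (X.act 1 - ContinuousLinearMap.id ℂ _).ker) (ContinuousLinearMap.isClosed_ker _)
    (fun f _ x => by simp [← X.act_mul]) hx
  simpa [sub_eq_zero] using this

theorem four_le_dg [T2Space Ω] {H : ℕ} (hH : Dm Ω H = ∅) {o : Ω} (ho : ¬ DU {o}ᶜ) :
    4 ≤ dg C(Ω, ℂ) := by
  refine le_trans ?_ (le_iSup dh (QM Ω 0))
  refine le_iInf fun k => le_iInf fun hk => ?_
  by_contra hlt
  have hk3 : k ≤ 3 := by
    have : (k : ℕ∞) < (4 : ℕ) := not_le.mp hlt
    have := Nat.cast_lt.mp this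
    omega
  obtain ⟨R, C, h⟩ := exists_RData (hk.mono hk3)
  exact not_RData_three hH ho h

theorem dg_dichotomy [T2Space Ω] : dg C(Ω, ℂ) ≤ 2 ∨ 4 ≤ dg C(Ω, ℂ) := by
  by_cases h : ∀ m, (Dm Ω m).Nonempty
  · right; rw [dg_eq_top h]; exact le_top
  · push Not at h
    obtain ⟨H, hH⟩ := h
    by_cases hG : ∀ o : Ω, DU {o}ᶜ
    · exact Or.inl (dg_le_two hH hG)
    · push Not at hG
      obtain ⟨o, ho⟩ := hG
      exact Or.inr (four_le_dg hH ho)

theorem dg_ne_three [T2Space Ω] : dg C(Ω, ℂ) ≠ 3 := by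
  intro h
  rcases dg_dichotomy (Ω := Ω) with h1 | h1 <;> rw [h] at h1 <;> norm_num at h1

end Pool.Agent.MP_75da70_an.H7
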