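import Pool.Agent.MP_75da70_an.H7.QSpace

/-
Differential, contracting homotopy and the canonical cochains of the test complex.
-/

namespace Pool.Agent.MP_75da70_an.H7

open Filter Topology Set

universe u

section General

variable {A : Type u} [NonUnitalNormedRing A] [NormedSpace ℂ A]

/-- canonical cochains of an admissible complex. -/
noncomputable def iot (Q : ℕ → BanMod A) (H : ∀ k, (Q k).carrier →L[ℂ] (Q (k + 1)).carrier) :
    ∀ k, List A → (Q 0).carrier → (Q (k + 1)).carrier
  | 0, _, g => H 0 g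
  | _ + 1, [], _ => 0
  | k + 1, f :: fs, g => H (k + 1) ((Q (k + 1)).act f (iot Q H k fs g))

theorem iot_mlb (Q : ℕ → BanMod A) (H : ∀ k, (Q k).carrier →L[ℂ] (Q (k + 1)).carrier) :
    ∀ k, MLB k (iot Q H k)
  | 0 => ⟨‖H 0‖, norm_nonneg _, by simp [iot], by simp [iot], (H 0).le_opNorm⟩
  | k + 1 => by
    obtain ⟨C, hC, h⟩ := iot_mlb Q H k
    refine ⟨‖H (k + 1)‖ * (‖(Q (k + 1)).act‖ * C), by positivity, fun l hl f f' g => by simp [iot],
      fun l hl c f g => by simp [iot], fun f => ?_⟩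
    refine ((h.comp ((Q (k + 1)).act f)).comp (H (k + 1))).mono ?_
    have := mul_le_mul_of_nonneg_right ((Q (k + 1)).act.le_opNorm f) hC
    have := mul_le_mul_of_nonneg_left this (norm_nonneg (H (k + 1)))
    linarith

theorem comparison' [IsScalarTower ℂ A A] [SMulCommClass ℂ A A] (Q : ℕ → BanMod A)
    (bd : ∀ k, (Q (k + 1)).carrier →L[ℂ] (Q k).carrier)
    (H : ∀ k, (Q k).carrier →L[ℂ] (Q (k + 1)).carrier)
    (hbd : ∀ k, IsMor (Q (k + 1)) (Q k) (bd k)) (hbb : ∀ k u, bd k (bd (k + 1) u) = 0)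
    (hH0 : ∀ u, bd 0 (H 0 u) = u) (hH : ∀ k u, bd (k + 1) (H (k + 1) u) + H k (bd k u) = u)
    {n : ℕ} (hres : HasProjRes (Q 0) n) :
    ∃ r : List A → (Q 0).carrier → (Q (n + 1)).carrier, MLB n r ∧ (∀ l g, bd n (r l g) = 0) ∧
      ∀ l, l.length = n + 1 → ∀ g,
        δ (Q 0) (Q (n + 1)) r l g = δ (Q 0) (Q (n + 1)) (iot Q H n) l g := by
  refine comparison Q bd H hbd hbb hH0 hH (iot Q H) (iot_mlb Q H) hH0 ?_ hres
  intro k
  induction k with
  | zero =>
    intro l hl g
    obtain ⟨f, rfl⟩ := List.length_eq_one_iff.mp hl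
    simp only [iot, δ, D]
    have h1 := hH 0 ((Q 1).act f (H 0 g))
    rw [hbd, hH0] at h1
    exact eq_sub_of_add_eq h1
  | succ k ih =>
    intro l hl g
    match l, hl with
    | f :: f2 :: l, hl =>
      have hl' : (f2 :: l).length = k + 1 := by simpa using hl
      have h1 := hH (k + 1) ((Q (k + 2)).act f (iot Q H (k + 1) (f2 :: l) g))
      rw [hbd, ih _ hl'] at h1
      have h2 : D (Q 0) (f2 :: l) (fun l' => iot Q H (k + 1) (f :: l')) g =
          H (k + 1) ((Q (k + 1)).act f (D (Q 0) (f2 :: l) (iot Q H k) g)) :=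
        D_map (((H (k + 1)).comp ((Q (k + 1)).act f) :
          (Q (k + 1)).carrier →L[ℂ] (Q (k + 2)).carrier) :
            (Q (k + 1)).carrier →+ (Q (k + 2)).carrier) (f2 :: l) (iot Q H k) g
      have h3 : δ (Q 0) (Q (k + 2)) (iot Q H (k + 1)) (f :: f2 :: l) g =
          (Q (k + 2)).act f (iot Q H (k + 1) (f2 :: l) g) -
            (iot Q H (k + 1) ((f * f2) :: l) g -
              D (Q 0) (f2 :: l) (fun l' => iot Q H (k + 1) (f :: l')) g) := rfl
      rw [h3, h2, eq_sub_iff_add_eq, ← h1]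
      simp only [iot, δ, map_sub, BanMod.act_mul]

end General

variable {Ω : Type u}

/-- the simplicial boundary with last vertex `p`. -/
def bdF (p : Ω) : List Ω → (List Ω → ℂ) → ℂ
  | [], u => u [p]
  | x :: l, u => u (x :: x :: l) - bdF p l (fun l' => u (x :: l'))

theorem bdF_congr (p : Ω) : ∀ (l : List Ω) (u v : List Ω → ℂ),
    (∀ l', l'.length = l.length + 1 → u l' = v l') → bdF p l u = bdF p l v
  | [], u, v, h => h _ rfl
  | x :: l, u, v, h => by
    simp only [bdF]
    rw [h _ (by simp), bdF_congr p l _ (fun l' => v (x :: l'))]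
    intro l' hl'
    exact h _ (by simp [hl'])

theorem bdF_add (p : Ω) : ∀ (l : List Ω) (u v : List Ω → ℂ),
    bdF p l (fun l' => u l' + v l') = bdF p l u + bdF p l v
  | [], _, _ => rfl
  | x :: l, u, v => by
    simp only [bdF]
    rw [bdF_add p l (fun l' => u (x :: l')) (fun l' => v (x :: l'))]
    ring

theorem bdF_mul (p : Ω) (c : ℂ) : ∀ (l : List Ω) (u : List Ω → ℂ),
    bdF p l (fun l' => c * u l') = c * bdF p l u
  | [], _ => rfl
  | x :: l, u => by
    simp only [bdF]
    rw [bdF_mul p c l (fun l' => u (x :: l'))]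
    ring

theorem bdF_sub (p : Ω) (l : List Ω) (u v : List Ω → ℂ) :
    bdF p l (fun l' => u l' - v l') = bdF p l u - bdF p l v := by
  have := bdF_add p l u (fun l' => (-1) * v l')
  rw [bdF_mul] at this
  simpa [sub_eq_add_neg] using this

theorem bdF_zero (p : Ω) (l : List Ω) : bdF p l (fun _ => 0) = 0 := by
  simpa using bdF_mul p 0 l (fun _ => 0)

theorem bdF_bdF (p : Ω) : ∀ (l : List Ω) (u : List Ω → ℂ),
    bdF p l (fun l' => bdF p l' u) = 0
  | [], u => by simp [bdF]
  | x :: l, u => by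
    have ih := bdF_bdF p l (fun l' => u (x :: l'))
    simp only [bdF] at ih ⊢
    rw [bdF_sub p l (fun l' => u (x :: x :: l')) (fun l' => bdF p l' (fun l' => u (x :: l'))), ih]
    cases l with
    | nil => simp [bdF]
    | cons x' l => simp [bdF]

theorem bdF_tendsto {ι : Type*} (F : Filter ι) (p : Ω) : ∀ (l : List Ω) (us : ι → List Ω → ℂ)
    (u : List Ω → ℂ), (∀ l', Tendsto (fun k => us k l') F (𝓝 (u l'))) →
      Tendsto (fun k => bdF p l (us k)) F (𝓝 (bdF p l u))
  | [], _, _, h => h _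
  | x :: l, us, u, h =>
    (h _).sub (bdF_tendsto F p l (fun k l' => us k (x :: l')) (fun l' => u (x :: l'))
      fun _ => h _)

/-- matrix bound for all one-sided substitutions. -/
def GBF {I J : Type} (k : ℕ) (U : I → J → List Ω → ℂ) (C : ℝ) : Prop :=
  ∀ cs : List (I → J → Ω), cs.length = k → (∀ c ∈ cs, OneSide c) →
    G2 (fun i j => U i j (cs.map fun c => c i j)) C

theorem GBF.cons {I J : Type} {k : ℕ} {U : I → J → List Ω → ℂ} {C : ℝ} (h : GBF (k + 1) U C)
    {c : I → J → Ω} (hc : OneSide c) : GBF k (fun i j l => U i j (c i j :: l)) C :=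
  fun cs h1 h2 => h (c :: cs) (by simp [h1]) (by simpa [hc] using h2)

theorem GBF.bdF {I J : Type} {C : ℝ} {p : I → J → Ω} (hp : OneSide p) :
    ∀ {k : ℕ} {U : I → J → List Ω → ℂ}, GBF (k + 1) U C →
      GBF k (fun i j l => bdF (p i j) l (U i j)) ((k + 1) * C) := by
  intro k
  induction k with
  | zero =>
    intro U h cs h1 h2
    obtain rfl := List.length_eq_zero_iff.mp h1
    simpa [H7.bdF] using h [p] rfl (by simpa using hp)
  | succ k ih =>
    intro U h cs h1 h2
    obtain ⟨c, cs, rfl⟩ := List.exists_cons_of_length_eq_add_one h1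
    have hc := h2 c (by simp)
    have a := h (c :: c :: cs) (by simpa using h1) (by simpa [hc] using h2)
    have b := ih (h.cons hc) cs (by simpa using h1) (fun c hc => h2 c (by simp [hc]))
    refine ((a.sub b).mono (le_of_eq ?_)).congr fun i j => rfl
    push_cast; ring

theorem bdF_close {E : Set (Ω × Ω)} {p : Ω} (hp : (p, p) ∈ E) {ε : ℝ} {l l' : List Ω}
    (h : List.Forall₂ (fun a b => (a, b) ∈ E) l l') : ∀ u v : List Ω → ℂ,
      (∀ m m', List.Forall₂ (fun a b => (a, b) ∈ E) m m' → ‖u m - v m'‖ ≤ ε) →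
        ‖bdF p l u - bdF p l' v‖ ≤ (l.length + 1) * ε := by
  induction h with
  | nil => intro u v h; simpa [bdF] using h [p] [p] (by simpa using hp)
  | @cons a b l l' hab hl ih =>
    intro u v h
    have h1 := h (a :: a :: l) (b :: b :: l') (by simp [hab, hl])
    have h2 := ih (fun l' => u (a :: l')) (fun l' => v (b :: l'))
      fun m m' hm => h _ _ (by simp [hab, hm])
    simp only [bdF]
    calc _ = ‖(u (a :: a :: l) - v (b :: b :: l')) - ((bdF p l fun l' => u (a :: l')) -
          (bdF p l' fun l' => v (b :: l')))‖ := by congr 1; ring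
      _ ≤ _ := (norm_sub_le _ _).trans (by simp only [List.length_cons]; push_cast; linarith)

variable [TopologicalSpace Ω]

noncomputable def Qt.bd {k : ℕ} (u : Qt Ω (k + 1)) : Qt Ω k :=
  Qt.mk (fun l y => bdF y.2 l fun l' => u.val l' y)
    (fun l hl y => by
      beta_reduce
      rw [bdF_congr _ _ _ (fun _ => 0), bdF_zero]
      intro l' hl'
      exact u.supp l' (by omega) y)
    (fun ε hε => by
      obtain ⟨E, hE, h⟩ := u.uc (ε / (k + 1)) (by positivity)
      refine ⟨E, hE, fun l l' hl y => ?_⟩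
      beta_reduce
      by_cases hk : l.length = k
      · refine (bdF_close (mem_of_mem_nhdsSet_diag hE y.2) hl _ _ fun m m' hm => h m m' hm y).trans
          (le_of_eq ?_)
        rw [hk]; field_simp
      · have hk' : l'.length ≠ k := by rwa [← hl.length_eq]
        rw [bdF_congr _ l _ (fun _ => 0), bdF_congr _ l' _ (fun _ => 0), bdF_zero, bdF_zero]
        · simpa using hε.le
        · intro m hm
          exact u.supp m (by omega) y
        · intro m hm
          exact u.supp m (by omega) y)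
    (C := (k + 1) * ‖u‖) (by positivity)
    (fun I J cs y h1 h2 => GBF.bdF (U := fun _ j l => u.val l (y j)) (OneSide.col fun j => (y j).2)
      (fun cs h1 h2 => u.gb I J cs y h1 h2) cs h1 h2)

theorem Qt.bd_val {k : ℕ} (u : Qt Ω (k + 1)) (l y) :
    u.bd.val l y = bdF y.2 l fun l' => u.val l' y := rfl

theorem Qt.norm_bd {k : ℕ} (u : Qt Ω (k + 1)) : ‖u.bd‖ ≤ (k + 1) * ‖u‖ :=
  Qt.norm_le (by positivity)
    (fun I J cs y h1 h2 => GBF.bdF (U := fun _ j l => u.val l (y j)) (OneSide.col fun j => (y j).2)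
      (fun cs h1 h2 => u.gb I J cs y h1 h2) cs h1 h2)

/-- forget the first point. -/
def shF (u : Fn Ω) : Fn Ω
  | [], _ => 0
  | _ :: l, y => u l y

omit [TopologicalSpace Ω] in
theorem GB.shF {k : ℕ} {u : Fn Ω} {C : ℝ} (h : GB k u C) : GB (k + 1) (shF u) C := by
  intro I J cs y h1 h2
  obtain ⟨c, cs, rfl⟩ := List.exists_cons_of_length_eq_add_one h1
  exact h I J cs y (by simpa using h1) fun c hc => h2 c (by simp [hc])

noncomputable def Qt.sh {k : ℕ} (u : Qt Ω k) : Qt Ω (k + 1) :=
  Qt.mk (shF u.val)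
    (fun l hl y => by
      cases l with
      | nil => rfl
      | cons x l => exact u.supp l (by simpa using hl) y)
    (fun ε hε => by
      obtain ⟨E, hE, h⟩ := u.uc ε hε
      refine ⟨E, hE, fun l l' hl y => ?_⟩
      cases hl with
      | nil => simpa using hε.le
      | cons _ hl => exact h _ _ hl y)
    (norm_nonneg u) u.gb.shF

theorem Qt.sh_val {k : ℕ} (u : Qt Ω k) : u.sh.val = shF u.val := rfl

variable [CompactSpace Ω]

variable (Ω) in
noncomputable def Qbd (k : ℕ) : (QM Ω (k + 1)).carrier →L[ℂ] (QM Ω k).carrier :=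
  LinearMap.mkContinuous
    { toFun := Qt.bd
      map_add' := fun _ _ => Qt.ext fun _ _ => bdF_add _ _ _ _
      map_smul' := fun _ _ => Qt.ext fun _ _ => bdF_mul _ _ _ _ } (k + 1) Qt.norm_bd

variable (Ω) in
noncomputable def QH (k : ℕ) : (QM Ω k).carrier →L[ℂ] (QM Ω (k + 1)).carrier :=
  LinearMap.mkContinuous
    { toFun := Qt.sh
      map_add' := fun u v => Qt.ext fun l y => by
        cases l with
        | nil => exact (add_zero _).symm
        | cons x l => rfl
      map_smul' := fun c u => Qt.ext fun l y => by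
        cases l with
        | nil => exact (mul_zero _).symm
        | cons x l => rfl } 1
    (fun u => by rw [one_mul]; exact Qt.norm_le (norm_nonneg _) (Qt.gb u).shF)

theorem Qbd_val {k : ℕ} (u : (QM Ω (k + 1)).carrier) (l y) :
    Qt.val (Qbd Ω k u) l y = bdF y.2 l fun l' => Qt.val u l' y := rfl

theorem QH_val {k : ℕ} (u : (QM Ω k).carrier) : Qt.val (QH Ω k u) = shF (Qt.val u) := rfl

theorem Qbd_mor (k : ℕ) : IsMor (QM Ω (k + 1)) (QM Ω k) (Qbd Ω k) := fun a u =>
  Qt.ext fun l y => by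
    rw [Qbd_val, QM_act_val, Qbd_val]
    cases l with
    | nil => rfl
    | cons x l =>
      simp only [bdF, QM_act_val, hd]
      rw [bdF_mul]; ring

/-- product of values of functions at points. -/
noncomputable def prodF : List C(Ω, ℂ) → List Ω → ℂ
  | [], [] => 1
  | f :: fs, a :: as => f a * prodF fs as
  | _, _ => 0

theorem iot_val : ∀ (k : ℕ) (fs : List C(Ω, ℂ)), fs.length = k → ∀ (g : (QM Ω 0).carrier) (x : Ω)
    (as : List Ω) (y : ℕ × Ω),
    Qt.val (iot (QM Ω) (QH Ω) k fs g) (x :: as) y = prodF fs as * Qt.val g [] y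
  | 0, [], _, g, x, as, y => by
    simp only [iot, QH_val, shF]
    cases as with
    | nil => simp [prodF]
    | cons a as => simp [prodF, (Qt.supp g) (a :: as) (by simp) y]
  | k + 1, f :: fs, h, g, x, as, y => by
    simp only [iot, QH_val, shF, QM_act_val]
    cases as with
    | nil => simp [prodF, (Qt.supp (iot (QM Ω) (QH Ω) k fs g)) [] (by simp) y]
    | cons a as => rw [iot_val k fs (by simpa using h)]; simp [prodF, hd, mul_assoc]

theorem exists_r {n : ℕ} (hres : HasProjRes (QM Ω 0) n) :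
    ∃ r : List C(Ω, ℂ) → (QM Ω 0).carrier → (QM Ω (n + 1)).carrier, MLB n r ∧
      (∀ l g, Qbd Ω n (r l g) = 0) ∧ ∀ l, l.length = n + 1 → ∀ g,
        δ (QM Ω 0) (QM Ω (n + 1)) r l g =
          δ (QM Ω 0) (QM Ω (n + 1)) (iot (QM Ω) (QH Ω) n) l g := by
  refine comparison' (QM Ω) (Qbd Ω) (QH Ω) Qbd_mor (fun k u => Qt.ext fun l y => ?_)
    (fun u => Qt.ext fun l y => ?_) (fun k u => Qt.ext fun l y => ?_) hres
  · exact bdF_bdF y.2 l fun l' => Qt.val u l' y
  · rw [Qbd_val, QH_val]
    cases l with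
    | nil => rfl
    | cons x l =>
      rw [(Qt.supp u) (x :: l) (by simp) y, bdF_congr _ _ _ (fun _ => 0), bdF_zero]
      intro l' hl'
      exact (Qt.supp (QH Ω 0 u)) l' (by simp at hl'; omega) y
  · change Qt.val (Qbd Ω (k + 1) (QH Ω (k + 1) u)) l y + Qt.val (QH Ω k (Qbd Ω k u)) l y = _
    rw [Qbd_val, QH_val, QH_val]
    cases l with
    | nil => simp [bdF, shF]
    | cons x l => simp [bdF, shF, Qbd_val]

end Pool.Agent.MP_75da70_an.H7
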