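import Pool.Agent.MP_75da70_an.H7.Hom
import Pool.Agent.MP_75da70_an.H7.G2b

/-
The admissible complex of test modules.
-/

namespace Pool.Agent.MP_75da70_an.H7

open Filter Topology Set

universe u

variable {Ω : Type u}

/-- functions of a list of points and of an index in `ℕ × Ω`. -/
abbrev Fn (Ω : Type u) : Type u := List Ω → ℕ × Ω → ℂ

def Supp (k : ℕ) (u : Fn Ω) : Prop := ∀ l : List Ω, l.length ≠ k → ∀ y, u l y = 0

def GB (k : ℕ) (u : Fn Ω) (C : ℝ) : Prop :=
  ∀ (I J : Type) (cs : List (I → J → Ω)) (y : J → ℕ × Ω), cs.length = k →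
    (∀ c ∈ cs, OneSide c) → G2 (fun i j => u (cs.map fun c => c i j) (y j)) C

def UC [TopologicalSpace Ω] (u : Fn Ω) : Prop :=
  ∀ ε : ℝ, 0 < ε → ∃ E ∈ 𝓝ˢ (diagonal Ω), ∀ l l' : List Ω,
    List.Forall₂ (fun a b => (a, b) ∈ E) l l' → ∀ y, ‖u l y - u l' y‖ ≤ ε

theorem GB.mono {k : ℕ} {u : Fn Ω} {C C' : ℝ} (h : GB k u C) (hC : C ≤ C') : GB k u C' :=
  fun I J cs y h1 h2 => (h I J cs y h1 h2).mono hC

theorem GB.add {k : ℕ} {u v : Fn Ω} {C C' : ℝ} (h : GB k u C) (h' : GB k v C') :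
    GB k (u + v) (C + C') :=
  fun I J cs y h1 h2 => (h I J cs y h1 h2).add (h' I J cs y h1 h2)

theorem GB.smul {k : ℕ} {u : Fn Ω} {C : ℝ} (h : GB k u C) (c : ℂ) : GB k (c • u) (‖c‖ * C) :=
  fun I J cs y h1 h2 => (h I J cs y h1 h2).smul c

theorem GB.zero (k : ℕ) : GB k (0 : Fn Ω) 0 := fun _ _ _ _ _ _ => G2.zero le_rfl

theorem GB.norm_le {k : ℕ} {u : Fn Ω} {C : ℝ} (h : GB k u C) (l : List Ω) (hl : l.length = k) (y) :
    ‖u l y‖ ≤ C := by
  have := (h Unit Unit (l.map fun a _ _ => a) (fun _ => y) (by simpa using hl) (by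
    intro c hc
    obtain ⟨a, -, rfl⟩ := List.mem_map.mp hc
    exact OneSide.const a)).norm_le () ()
  simpa [Function.comp_def] using this

theorem GB.of_tendsto {ι : Type*} (F : Filter ι) [F.NeBot] {k : ℕ} {us : ι → Fn Ω} {Cs : ι → ℝ}
    {u : Fn Ω} {C : ℝ} (h : ∀ᶠ m in F, GB k (us m) (Cs m)) (hC : Tendsto Cs F (𝓝 C))
    (hu : ∀ l y, Tendsto (fun m => us m l y) F (𝓝 (u l y))) : GB k u C :=
  fun I J cs y h1 h2 => G2.of_tendsto F (h.mono fun _ hm => hm I J cs y h1 h2) hC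
    fun _ _ => hu _ _

theorem forall₂_mono {E E' : Set (Ω × Ω)} (h : E ⊆ E') {l l' : List Ω}
    (hl : List.Forall₂ (fun a b => (a, b) ∈ E) l l') :
    List.Forall₂ (fun a b => (a, b) ∈ E') l l' := hl.imp fun _ _ hab => h hab

variable [TopologicalSpace Ω]

theorem UC.add {u v : Fn Ω} (h : UC u) (h' : UC v) : UC (u + v) := by
  intro ε hε
  obtain ⟨E, hE, h⟩ := h (ε / 2) (by positivity)
  obtain ⟨E', hE', h'⟩ := h' (ε / 2) (by positivity)
  refine ⟨E ∩ E', inter_mem hE hE', fun l l' hl y => ?_⟩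
  have a := h l l' (forall₂_mono inter_subset_left hl) y
  have b := h' l l' (forall₂_mono inter_subset_right hl) y
  calc _ = ‖(u l y - u l' y) + (v l y - v l' y)‖ := by
        congr 1; simp only [Pi.add_apply]; ring
    _ ≤ _ := (norm_add_le _ _).trans (by linarith)

theorem UC.smul {u : Fn Ω} (h : UC u) (c : ℂ) : UC (c • u) := by
  intro ε hε
  obtain ⟨E, hE, h⟩ := h (ε / (‖c‖ + 1)) (by positivity)
  refine ⟨E, hE, fun l l' hl y => ?_⟩
  have a := h l l' hl y
  calc _ = ‖c‖ * ‖u l y - u l' y‖ := by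
        rw [← norm_mul]; congr 1; simp only [Pi.smul_apply, smul_eq_mul]; ring
    _ ≤ (‖c‖ + 1) * (ε / (‖c‖ + 1)) := mul_le_mul (by linarith) a (norm_nonneg _) (by positivity)
    _ = ε := by field_simp

theorem UC.zero : UC (0 : Fn Ω) := fun ε hε => ⟨univ, univ_mem, fun _ _ _ _ => by simpa using hε.le⟩

variable (Ω) in
def QS (k : ℕ) : Submodule ℂ (Fn Ω) where
  carrier := {u | Supp k u ∧ UC u ∧ ∃ C, 0 ≤ C ∧ GB k u C}
  add_mem' := fun {u v} hu hv => by
    obtain ⟨h1, h2, C, hC, h3⟩ := hu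
    obtain ⟨h1', h2', C', hC', h3'⟩ := hv
    exact ⟨fun l hl y => by simp [h1 l hl, h1' l hl], h2.add h2', _, add_nonneg hC hC', h3.add h3'⟩
  zero_mem' := ⟨fun _ _ _ => rfl, UC.zero, 0, le_rfl, GB.zero k⟩
  smul_mem' := fun c u hu => by
    obtain ⟨h1, h2, C, hC, h3⟩ := hu
    exact ⟨fun l hl y => by simp [h1 l hl], h2.smul c, _, mul_nonneg (norm_nonneg _) hC, h3.smul c⟩

variable (Ω) in
/-- the underlying type of the test module in degree `k`. -/
def Qt (k : ℕ) : Type u := QS Ω k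

namespace Qt

variable {k : ℕ}

noncomputable instance : AddCommGroup (Qt Ω k) := inferInstanceAs (AddCommGroup (QS Ω k))
noncomputable instance : Module ℂ (Qt Ω k) := inferInstanceAs (Module ℂ (QS Ω k))

def val (u : Qt Ω k) : Fn Ω := Subtype.val u

def mk (u : Fn Ω) (h1 : Supp k u) (h2 : UC u) {C : ℝ} (hC : 0 ≤ C) (h3 : GB k u C) : Qt Ω k :=
  (⟨u, h1, h2, C, hC, h3⟩ : QS Ω k)

@[simp] theorem val_mk (u : Fn Ω) (h1 : Supp k u) (h2 : UC u) {C : ℝ} (hC : 0 ≤ C)
    (h3 : GB k u C) : (mk u h1 h2 hC h3).val = u := rfl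

theorem ext {u v : Qt Ω k} (h : ∀ l y, u.val l y = v.val l y) : u = v :=
  Subtype.ext (funext fun l => funext fun y => h l y)

@[simp] theorem val_add (u v : Qt Ω k) : (u + v).val = u.val + v.val := rfl
@[simp] theorem val_sub (u v : Qt Ω k) : (u - v).val = u.val - v.val := rfl
@[simp] theorem val_neg (u : Qt Ω k) : (-u).val = -u.val := rfl
@[simp] theorem val_zero : (0 : Qt Ω k).val = 0 := rfl
@[simp] theorem val_smul (c : ℂ) (u : Qt Ω k) : (c • u).val = c • u.val := rfl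

theorem supp (u : Qt Ω k) : Supp k u.val := (Subtype.property u).1
theorem uc (u : Qt Ω k) : UC u.val := (Subtype.property u).2.1
theorem ex (u : Qt Ω k) : ∃ C, 0 ≤ C ∧ GB k u.val C := (Subtype.property u).2.2

noncomputable def nrm (u : Qt Ω k) : ℝ := sInf {C | 0 ≤ C ∧ GB k u.val C}

theorem nrm_nonneg (u : Qt Ω k) : 0 ≤ nrm u := Real.sInf_nonneg fun _ h => h.1

theorem nrm_le {u : Qt Ω k} {C : ℝ} (hC : 0 ≤ C) (h : GB k u.val C) : nrm u ≤ C :=
  csInf_le ⟨0, fun _ h => h.1⟩ ⟨hC, h⟩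

theorem gb_nrm (u : Qt Ω k) : GB k u.val (nrm u) := by
  refine GB.of_tendsto (𝓝[>] (nrm u)) (us := fun _ => u.val) (Cs := id) ?_
    (tendsto_id.mono_left nhdsWithin_le_nhds) fun _ _ => tendsto_const_nhds
  filter_upwards [self_mem_nhdsWithin] with C hC
  obtain ⟨C', hC', hlt⟩ := exists_lt_of_csInf_lt u.ex hC
  exact hC'.2.mono hlt.le

theorem norm_val_le_nrm (u : Qt Ω k) (l y) : ‖u.val l y‖ ≤ nrm u := by
  by_cases hl : l.length = k
  · exact u.gb_nrm.norm_le l hl y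
  · rw [u.supp l hl y, norm_zero]; exact u.nrm_nonneg

noncomputable instance : NormedAddCommGroup (Qt Ω k) :=
  AddGroupNorm.toNormedAddCommGroup
    { toFun := nrm
      map_zero' := le_antisymm (nrm_le le_rfl (GB.zero k)) (nrm_nonneg _)
      add_le' := fun u v => nrm_le (add_nonneg u.nrm_nonneg v.nrm_nonneg) (u.gb_nrm.add v.gb_nrm)
      neg' := fun u => by
        have key : ∀ u : Qt Ω k, nrm (-u) ≤ nrm u := fun u =>
          nrm_le u.nrm_nonneg (by simpa using u.gb_nrm.smul (-1))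
        exact le_antisymm (key u) (by simpa using key (-u))
      eq_zero_of_map_eq_zero' := fun u hu => ext fun l y => by
        have := u.norm_val_le_nrm l y
        rw [hu] at this
        simpa using this }

theorem norm_def (u : Qt Ω k) : ‖u‖ = nrm u := rfl

theorem gb (u : Qt Ω k) : GB k u.val ‖u‖ := u.gb_nrm

theorem norm_le {u : Qt Ω k} {C : ℝ} (hC : 0 ≤ C) (h : GB k u.val C) : ‖u‖ ≤ C := nrm_le hC h

theorem norm_val_le (u : Qt Ω k) (l y) : ‖u.val l y‖ ≤ ‖u‖ := u.norm_val_le_nrm l y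

noncomputable instance : NormedSpace ℂ (Qt Ω k) where
  norm_smul_le c u := norm_le (by positivity) (u.gb.smul c)

instance : CompleteSpace (Qt Ω k) := by
  refine Metric.complete_of_cauchySeq_tendsto fun u hu => ?_
  have hpt : ∀ l y, CauchySeq fun m => (u m).val l y := fun l y => by
    rw [Metric.cauchySeq_iff] at hu ⊢
    intro ε hε
    obtain ⟨N, hN⟩ := hu ε hε
    refine ⟨N, fun m hm n hn => ?_⟩
    have := hN m hm n hn
    rw [dist_eq_norm] at this ⊢
    exact ((u m - u n).norm_val_le l y).trans_lt this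
  choose v hv using fun l y => cauchySeq_tendsto_of_complete (hpt l y)
  have hg : ∀ ε, 0 < ε → ∃ N, ∀ n ≥ N, GB k ((u n).val - v) ε := fun ε hε => by
    obtain ⟨N, hN⟩ := Metric.cauchySeq_iff.mp hu ε hε
    refine ⟨N, fun n hn => GB.of_tendsto atTop (us := fun m => (u n - u m).val)
      (Cs := fun _ => ε) ?_ tendsto_const_nhds fun l y => (hv l y).const_sub _⟩
    filter_upwards [eventually_ge_atTop N] with m hm
    have := hN n hn m hm
    rw [dist_eq_norm] at this
    exact (u n - u m).gb.mono this.le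
  have hs : Supp k v := fun l hl y =>
    tendsto_nhds_unique (hv l y) (by simp [fun m => (u m).supp l hl y])
  have hb : ∀ ε, 0 < ε → ∃ N, ∀ l y, ‖(u N).val l y - v l y‖ ≤ ε := fun ε hε => by
    obtain ⟨N, hN⟩ := hg ε hε
    refine ⟨N, fun l y => ?_⟩
    by_cases hl : l.length = k
    · exact (hN N le_rfl).norm_le l hl y
    · simp [(u N).supp l hl y, hs l hl y, hε.le]
  have huc : UC v := fun ε hε => by
    obtain ⟨N, hN⟩ := hb (ε / 3) (by positivity)
    obtain ⟨E, hE, h⟩ := (u N).uc (ε / 3) (by positivity)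
    refine ⟨E, hE, fun l l' hl y => ?_⟩
    have a := hN l y
    have b := hN l' y
    have c := h l l' hl y
    calc _ = ‖-((u N).val l y - v l y) + ((u N).val l y - (u N).val l' y) +
          ((u N).val l' y - v l' y)‖ := by congr 1; ring
      _ ≤ _ := by
        refine (norm_add₃_le).trans ?_
        rw [norm_neg]; linarith
  obtain ⟨N, hN⟩ := hg 1 one_pos
  have hgv : GB k v (‖u N‖ + 1) := by
    have := (u N).gb.add ((hN N le_rfl).smul (-1))
    simpa using this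
  refine ⟨mk v hs huc (by positivity) hgv, Metric.tendsto_atTop.mpr fun ε hε => ?_⟩
  obtain ⟨N, hN⟩ := hg (ε / 2) (by positivity)
  refine ⟨N, fun n hn => ?_⟩
  rw [dist_eq_norm]
  exact (norm_le (by positivity) (hN n hn)).trans_lt (by linarith)

end Qt

/-- the point through which the algebra acts. -/
def hd : List Ω → ℕ × Ω → Ω
  | [], y => y.2
  | x :: _, _ => x

omit [TopologicalSpace Ω] in
theorem oneSide_hd {I J : Type} (cs : List (I → J → Ω)) (y : J → ℕ × Ω)
    (h : ∀ c ∈ cs, OneSide c) : OneSide fun i j => hd (cs.map fun c => c i j) (y j) := by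
  cases cs with
  | nil => exact OneSide.col fun j => (y j).2
  | cons c cs => exact h c (by simp)

theorem mem_of_mem_nhdsSet_diag {E : Set (Ω × Ω)} (hE : E ∈ 𝓝ˢ (diagonal Ω)) (a : Ω) :
    (a, a) ∈ E := subset_of_mem_nhdsSet hE (mem_diagonal a)

theorem close_mem (f : C(Ω, ℂ)) {ε : ℝ} (hε : 0 < ε) :
    {p : Ω × Ω | ‖f p.1 - f p.2‖ < ε} ∈ 𝓝ˢ (diagonal Ω) := by
  refine IsOpen.mem_nhdsSet (isOpen_lt (by fun_prop) continuous_const) |>.mpr ?_
  rintro ⟨a, b⟩ hab
  have : a = b := hab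
  subst this
  simpa using hε

variable [CompactSpace Ω]

theorem UC.mul {u : Fn Ω} (h : UC u) {B : ℝ} (hB : ∀ l y, ‖u l y‖ ≤ B) (f : C(Ω, ℂ))
    (p : List Ω → ℕ × Ω → Ω)
    (hp : ∀ E ∈ 𝓝ˢ (diagonal Ω), ∀ l l' : List Ω, List.Forall₂ (fun a b => (a, b) ∈ E) l l' →
      ∀ y, (p l y, p l' y) ∈ E) : UC (fun l y => f (p l y) * u l y) := by
  intro ε hε
  have hB' : 0 < |B| + 1 := by positivity
  obtain ⟨E, hE, h⟩ := h (ε / 2 / (‖f‖ + 1)) (by positivity)
  have hE' := inter_mem hE (close_mem f (ε := ε / 2 / (|B| + 1)) (by positivity))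
  refine ⟨_, hE', fun l l' hl y => ?_⟩
  have a := h l l' (forall₂_mono inter_subset_left hl) y
  have b : ‖f (p l y) - f (p l' y)‖ < ε / 2 / (|B| + 1) := (hp _ hE' l l' hl y).2
  have c := hB l' y
  have d := f.norm_coe_le_norm (p l y)
  calc _ = ‖f (p l y) * (u l y - u l' y) + (f (p l y) - f (p l' y)) * u l' y‖ := by
        congr 1; ring
    _ ≤ (‖f‖ + 1) * (ε / 2 / (‖f‖ + 1)) + (ε / 2 / (|B| + 1)) * (|B| + 1) := by
        refine (norm_add_le _ _).trans (add_le_add ?_ ?_)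
        · rw [norm_mul]
          exact mul_le_mul (by linarith) a (norm_nonneg _) (by positivity)
        · rw [norm_mul]
          exact mul_le_mul b.le (c.trans ((le_abs_self _).trans (by linarith))) (norm_nonneg _)
            (by positivity)
    _ = ε := by field_simp; ring

omit [TopologicalSpace Ω] [CompactSpace Ω] in
theorem hd_rel {E : Set (Ω × Ω)} (hE : ∀ a, (a, a) ∈ E) {l l' : List Ω}
    (h : List.Forall₂ (fun a b => (a, b) ∈ E) l l') (y) : (hd l y, hd l' y) ∈ E := by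
  cases h with
  | nil => exact hE _
  | cons h _ => exact h

theorem GB.act {k : ℕ} {u : Fn Ω} {C : ℝ} (h : GB k u C) (f : C(Ω, ℂ)) :
    GB k (fun l y => f (hd l y) * u l y) (‖f‖ * C) := fun I J cs y h1 h2 =>
  (h I J cs y h1 h2).mul_oneSide ((oneSide_hd cs y h2).map f) (norm_nonneg f)
    fun _ _ => f.norm_coe_le_norm _

noncomputable def Qt.act {k : ℕ} (f : C(Ω, ℂ)) (u : Qt Ω k) : Qt Ω k :=
  Qt.mk (fun l y => f (hd l y) * u.val l y) (fun l hl y => by simp [u.supp l hl y])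
    (u.uc.mul u.norm_val_le f hd fun _ hE _ _ hl y => hd_rel (mem_of_mem_nhdsSet_diag hE) hl y)
    (mul_nonneg (norm_nonneg f) (norm_nonneg u)) (u.gb.act f)

theorem Qt.act_val {k : ℕ} (f : C(Ω, ℂ)) (u : Qt Ω k) (l y) :
    (Qt.act f u).val l y = f (hd l y) * u.val l y := rfl

variable (Ω) in
/-- the test module in degree `k`. -/
noncomputable def QM (k : ℕ) : BanMod C(Ω, ℂ) :=
  BanMod.mk' (Qt Ω k) Qt.act
    (fun a b x => Qt.ext fun l y => by simp [Qt.act_val, add_mul])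
    (fun c a x => Qt.ext fun l y => by simp [Qt.act_val, mul_assoc])
    (fun a x y => Qt.ext fun l y => by simp [Qt.act_val, mul_add])
    (fun c a x => Qt.ext fun l y => by simp [Qt.act_val, mul_left_comm])
    1 (fun a x => by rw [one_mul]; exact Qt.norm_le (by positivity) (x.gb.act a))
    (fun a b x => Qt.ext fun l y => by simp [Qt.act_val, mul_assoc])

theorem QM_act_val {k : ℕ} (f : C(Ω, ℂ)) (u : (QM Ω k).carrier) (l y) :
    Qt.val ((QM Ω k).act f u) l y = f (hd l y) * Qt.val u l y := rfl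

end Pool.Agent.MP_75da70_an.H7
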