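import Pool.Agent.MP_75da70_an.H7.QComplex
import Pool.Agent.MP_75da70_an.H7.Hump

/-
The scalar function attached to a finite projective resolution of the test module.
-/

namespace Pool.Agent.MP_75da70_an.H7

open Filter Topology Set

universe u

section General

variable {A : Type u} [NonUnitalNormedRing A] [NormedSpace ℂ A] {X : BanMod A}
  {V : Type*} [NormedAddCommGroup V] [NormedSpace ℂ V]

theorem ML.clm : ∀ {k : ℕ} {θ : List A → X.carrier → V} {C : ℝ}, ML k θ C →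
    ∀ l : List A, l.length = k → ∃ T : X.carrier →L[ℂ] V, ∀ g, θ l g = T g
  | 0, θ, C, h, [], _ =>
    ⟨LinearMap.mkContinuous { toFun := θ [], map_add' := h.1, map_smul' := h.2.1 } C h.2.2,
      fun _ => rfl⟩
  | k + 1, θ, C, h, f :: l, hl => (h.2.2 f).clm l (by simpa using hl)

end General

variable {Ω : Type u} [TopologicalSpace Ω]

/-- the inner part of the scalar coboundary, with last vertex `p`. -/
noncomputable def DS (p : Ω) : List C(Ω, ℂ) → (List C(Ω, ℂ) → ℂ) → ℂ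
  | [], _ => 0
  | [f], θ => f p * θ []
  | f1 :: f2 :: l, θ => θ ((f1 * f2) :: l) - DS p (f2 :: l) (fun l' => θ (f1 :: l'))

theorem DS_tendsto {ι : Type*} (F : Filter ι) (p : Ω) : ∀ (l : List C(Ω, ℂ))
    (θs : ι → List C(Ω, ℂ) → ℂ) (θ : List C(Ω, ℂ) → ℂ),
    (∀ l', Tendsto (fun k => θs k l') F (𝓝 (θ l'))) →
      Tendsto (fun k => DS p l (θs k)) F (𝓝 (DS p l θ))
  | [], _, _, _ => tendsto_const_nhds
  | [_], _, _, h => (h _).const_mul _
  | f1 :: f2 :: l, θs, θ, h =>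
    (h _).sub (DS_tendsto F p (f2 :: l) (fun k l' => θs k (f1 :: l')) (fun l' => θ (f1 :: l'))
      fun _ => h _)

theorem DS_congr (p : Ω) : ∀ (l : List C(Ω, ℂ)) (θ θ' : List C(Ω, ℂ) → ℂ),
    (∀ l', l'.length + 1 = l.length → θ l' = θ' l') → DS p l θ = DS p l θ'
  | [], _, _, _ => rfl
  | [f], θ, θ', h => by simp only [DS]; rw [h [] rfl]
  | f1 :: f2 :: l, θ, θ', h => by
    simp only [DS]
    rw [h _ (by simp), DS_congr p (f2 :: l) _ (fun l' => θ' (f1 :: l'))]
    intro l' hl'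
    exact h _ (by simp at hl' ⊢; omega)

/-- a two-index family of functions taken from a family with bounded signed sums. -/
def Adm [CompactSpace Ω] {I J : Type} (F : I → J → C(Ω, ℂ)) : Prop :=
  ∃ (Λ : Type) (g : Λ → C(Ω, ℂ)) (lab : I → J → Λ), SignBdd g ∧ OneSide lab ∧
    ∀ i j, F i j = g (lab i j)

/-- lists that differ only by exchanging `q` and `w`. -/
def Sw {α : Type*} (q w : α) (l l' : List α) : Prop :=
  List.Forall₂ (fun a b => a = b ∨ (a = q ∧ b = w) ∨ (a = w ∧ b = q)) l l'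

/-- exchanging `q` and `w` changes `u` by at most `ε`. -/
def Gd (u : Ω → List Ω → ℂ) (ε : ℝ) (q w : Ω) : Prop :=
  ∀ p l l', Sw q w l l' → ‖u p l - u p l'‖ ≤ ε

structure RData [CompactSpace Ω] (n : ℕ) (R : List C(Ω, ℂ) → Ω → List Ω → ℂ) (C : ℝ) : Prop where
  nonneg : 0 ≤ C
  cyc : ∀ fs p l, bdF p l (R fs p) = 0
  cob : ∀ f fs, fs.length = n → ∀ x as p,
    f x * R fs p (x :: as) - DS p (f :: fs) (fun fs' => R fs' p (x :: as)) =
      f x * prodF fs as - DS p (f :: fs) (fun fs' => prodF fs' as)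
  g2 : ∀ (I J : Type) (Fs : List (I → J → C(Ω, ℂ))) (p : J → Ω), Fs.length = n →
    (∀ F ∈ Fs, Adm F) → GBF (n + 1) (fun i j => R (Fs.map fun F => F i j) (p j)) C
  uc : ∀ fs, fs.length = n → ∀ ε, 0 < ε → ∀ q (B : Set Ω), B.Countable → q ∈ closure B →
    ∃ w ∈ B, Gd (R fs) ε q w

variable [CompactSpace Ω]

/-- bounded functions as elements of degree zero. -/
noncomputable def emb0 (g : ℕ × Ω → ℂ) (hg : ∀ y, ‖g y‖ ≤ 1) : (QM Ω 0).carrier :=
  Qt.mk (fun l y => match l with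
      | [] => g y
      | _ :: _ => 0)
    (fun l hl y => by
      cases l with
      | nil => exact absurd rfl hl
      | cons x l => rfl)
    (fun ε hε => ⟨univ, univ_mem, fun l l' hl y => by cases hl <;> simpa using hε.le⟩)
    zero_le_one
    (fun I J cs y h1 _ => by
      obtain rfl := List.length_eq_zero_iff.mp h1
      exact G2.col _ zero_le_one fun j => hg _)

theorem norm_Q0 (v : (QM Ω 0).carrier) (hv : ∀ y, ‖Qt.val v [] y‖ ≤ 1) : ‖v‖ ≤ 1 :=
  Qt.norm_le zero_le_one fun I J cs y h1 _ => by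
    obtain rfl := List.length_eq_zero_iff.mp h1
    exact G2.col _ zero_le_one fun j => hv _

open Classical in
noncomputable def dl (y : ℕ × Ω) : (QM Ω 0).carrier :=
  emb0 (Pi.single y 1) fun z => by
    by_cases h : z = y
    · subst h; simp
    · simp [Pi.single_eq_of_ne h]

open Classical in
theorem dl_val (y : ℕ × Ω) : Qt.val (dl y) [] = Pi.single y 1 := rfl

/-- evaluation in degree zero. -/
def ev0 : (QM Ω 0).carrier →ₗ[ℂ] (ℕ × Ω) → ℂ where
  toFun v := Qt.val v []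
  map_add' _ _ := rfl
  map_smul' _ _ := rfl

noncomputable def evL {k : ℕ} (l : List Ω) (y : ℕ × Ω) : (QM Ω k).carrier →L[ℂ] ℂ :=
  LinearMap.mkContinuous
    { toFun := fun v => Qt.val v l y
      map_add' := fun _ _ => rfl
      map_smul' := fun _ _ => rfl } 1 fun v => by rw [one_mul]; exact Qt.norm_val_le v l y

theorem evL_apply {k : ℕ} (l : List Ω) (y : ℕ × Ω) (v : (QM Ω k).carrier) :
    evL l y v = Qt.val v l y := rfl

theorem signBdd_dl : SignBdd (dl (Ω := Ω)) := by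
  classical
  intro S ε hε
  refine norm_Q0 _ fun y => ?_
  change ‖ev0 (∑ c ∈ S, ε c • dl c) y‖ ≤ 1
  rw [map_sum, Finset.sum_apply]
  have : ∀ c, ev0 (ε c • dl c) y = if c = y then ε y else 0 := fun c => by
    rw [map_smul, Pi.smul_apply]
    change ε c • Qt.val (dl c) [] y = _
    rw [dl_val]
    split_ifs with h
    · subst h; simp
    · simp [Pi.single_eq_of_ne (Ne.symm h)]
  simp only [this, Finset.sum_ite_eq']
  split_ifs
  · exact hε y
  · simp

theorem act_dl (f : C(Ω, ℂ)) (y : ℕ × Ω) : (QM Ω 0).act f (dl y) = f y.2 • dl y := by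
  classical
  refine Qt.ext fun l z => ?_
  rw [QM_act_val]
  change _ = f y.2 * Qt.val (dl y) l z
  cases l with
  | nil =>
    simp only [hd, dl_val]
    by_cases h : z = y
    · rw [h]
    · simp [Pi.single_eq_of_ne h]
  | cons x l => simp [Qt.supp (dl y) (x :: l) (by simp) z]

theorem D_dl (y : ℕ × Ω) : ∀ (l : List C(Ω, ℂ)) (θ : List C(Ω, ℂ) → (QM Ω 0).carrier → ℂ),
    (∀ l', l'.length + 1 = l.length → ∀ (c : ℂ) g, θ l' (c • g) = c * θ l' g) →
      D (QM Ω 0) l θ (dl y) = DS y.2 l (fun l' => θ l' (dl y))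
  | [], _, _ => rfl
  | [f], θ, h => by
    simp only [D, DS]
    rw [act_dl]
    exact h [] rfl _ _
  | f1 :: f2 :: l, θ, h => by
    simp only [D, DS]
    rw [D_dl y (f2 :: l) (fun l' => θ (f1 :: l'))]
    intro l' hl'
    exact h _ (by simp at hl' ⊢; omega)

theorem δ_val {n : ℕ} {θ : List C(Ω, ℂ) → (QM Ω 0).carrier → (QM Ω (n + 1)).carrier}
    (hθ : MLB n θ) (f : C(Ω, ℂ)) (fs : List C(Ω, ℂ)) (h : fs.length = n) (x : Ω) (as : List Ω)
    (y : ℕ × Ω) :
    Qt.val (δ (QM Ω 0) (QM Ω (n + 1)) θ (f :: fs) (dl y)) (x :: as) y =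
      f x * Qt.val (θ fs (dl y)) (x :: as) y -
        DS y.2 (f :: fs) (fun fs' => Qt.val (θ fs' (dl y)) (x :: as) y) := by
  obtain ⟨C, -, hC⟩ := hθ
  have h1 := D_map (X := QM Ω 0) ((evL (k := n + 1) (x :: as) y : (QM Ω (n + 1)).carrier →L[ℂ] ℂ) :
    (QM Ω (n + 1)).carrier →+ ℂ) (f :: fs) θ (dl y)
  rw [D_dl] at h1
  · exact congrArg₂ (· - ·) rfl h1.symm
  · intro l' hl' c g
    obtain ⟨T, hT⟩ := hC.clm l' (by simp at hl'; omega)
    simp only [hT, map_smul]
    rfl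

theorem ML.gbf {m : ℕ} {I J : Type} (y : J → ℕ × Ω) :
    ∀ {k : ℕ} {θ : List C(Ω, ℂ) → (QM Ω 0).carrier → Qt Ω m} {C : ℝ}, 0 ≤ C → ML k θ C →
      ∀ Fs : List (I → J → C(Ω, ℂ)), Fs.length = k → (∀ F ∈ Fs, Adm F) →
        GBF m (fun i j l => (θ (Fs.map fun F => F i j) (dl (y j))).val l (y j)) C
  | 0, θ, C, hC, h, [], _, _ => fun cs h1 h2 =>
    G2.extract (fun (g : (QM Ω 0).carrier) i j => (θ [] g).val (cs.map fun c => c i j) (y j))
      (fun f f' i j => by rw [h.1]; rfl) (fun c f i j => by rw [h.2.1]; rfl) hC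
      (fun g => ((θ [] g).gb I J cs y h1 h2).mono (h.2.2 g)) signBdd_dl (OneSide.col y)
  | k + 1, θ, C, hC, h, F :: Fs, hl, hF => fun cs h1 h2 => by
    obtain ⟨Λ, g, lab, hg, hlab, hFe⟩ := hF F (by simp)
    have hl' : Fs.length = k := by simpa using hl
    refine (G2.extract (fun (f : C(Ω, ℂ)) i j => (θ (f :: Fs.map fun F => F i j)
      (dl (y j))).val (cs.map fun c => c i j) (y j))
      (fun f f' i j => by rw [h.1 _ (by simpa using hl')]; rfl)
      (fun c f i j => by rw [h.2.1 _ (by simpa using hl')]; rfl) hC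
      (fun f => ML.gbf y (mul_nonneg hC (norm_nonneg f)) (h.2.2 f) Fs hl'
        (fun F hF' => hF F (by simp [hF'])) cs h1 h2) hg hlab).congr fun i j => ?_
    simp only [List.map_cons, hFe]

theorem exists_RData {n : ℕ} (hres : HasProjRes (QM Ω 0) n) :
    ∃ R C, RData (Ω := Ω) n R C := by
  classical
  obtain ⟨r0, hr0, hcyc0, hcob0⟩ := exists_r hres
  let r : List C(Ω, ℂ) → (QM Ω 0).carrier → (QM Ω (n + 1)).carrier :=
    fun l g => if l.length = n then r0 l g else 0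
  have hre : ∀ l, l.length = n → ∀ g, r0 l g = r l g := fun l hl g => by simp [r, hl]
  have hr : MLB n r := by
    obtain ⟨C, hC, h⟩ := hr0
    exact ⟨C, hC, h.congr hre⟩
  have hcyc : ∀ l g, Qbd Ω n (r l g) = 0 := fun l g => by
    simp only [r]; split_ifs
    · exact hcyc0 l g
    · exact map_zero _
  have hcob : ∀ l, l.length = n + 1 → ∀ g, δ (QM Ω 0) (QM Ω (n + 1)) r l g =
      δ (QM Ω 0) (QM Ω (n + 1)) (iot (QM Ω) (QH Ω) n) l g := fun l hl g => by
    rw [← hcob0 l hl g]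
    exact δ_congr _ _ _ (fun l' hl' g => (hre l' (by omega) g).symm) g
  have hT : ∀ fs, ∃ T : (QM Ω 0).carrier →L[ℂ] (QM Ω (n + 1)).carrier, ∀ g, r fs g = T g := by
    intro fs
    by_cases h : fs.length = n
    · obtain ⟨C, -, hC⟩ := hr
      exact hC.clm fs h
    · exact ⟨0, fun g => by simp [r, h]⟩
  have hdl : ∀ y : ℕ × Ω, ‖dl y‖ ≤ 1 := fun y => by
    simpa using signBdd_dl {y} (fun _ => 1) (by simp)
  have hlim : ∀ fs p l, ∃ c, Tendsto (fun γ : ℕ => Qt.val (r fs (dl (γ, p))) l (γ, p))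
      (hyperfilter ℕ) (𝓝 c) := fun fs p l => by
    obtain ⟨T, hT⟩ := hT fs
    refine exists_ulim _ _ (B := ‖T‖) (Eventually.of_forall fun γ => ?_)
    refine (Qt.norm_val_le _ _ _).trans ?_
    rw [hT]
    exact (T.le_opNorm _).trans (mul_le_of_le_one_right (norm_nonneg _) (hdl _))
  choose R hR using hlim
  obtain ⟨C, hC, hML⟩ := id hr
  refine ⟨R, C, hC, fun fs p l => ?_, fun f fs hfs x as p => ?_, fun I J Fs p h1 h2 cs h3 h4 => ?_,
    fun fs hfs ε hε q B hB hq => ?_⟩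
  · refine tendsto_nhds_unique (bdF_tendsto _ p l _ _ (hR fs p)) ?_
    have : ∀ γ : ℕ, bdF p l (fun l' => Qt.val (r fs (dl (γ, p))) l' (γ, p)) = 0 := fun γ => by
      rw [← Qbd_val (r fs (dl (γ, p))) l (γ, p), hcyc]; rfl
    simp only [this]
    exact tendsto_const_nhds
  · refine tendsto_nhds_unique (((hR fs p (x :: as)).const_mul (f x)).sub
      (DS_tendsto _ p (f :: fs) _ _ fun fs' => hR fs' p (x :: as))) ?_
    refine tendsto_const_nhds.congr fun γ => ?_
    rw [← δ_val hr f fs hfs x as (γ, p), hcob _ (by simp [hfs]),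
      δ_val (iot_mlb _ _ n) f fs hfs x as (γ, p), iot_val n fs hfs, dl_val]
    simp only [Pi.single_eq_same, mul_one]
    congr 1
    refine DS_congr _ _ _ _ fun l' hl' => ?_
    rw [iot_val n l' (by simp at hl'; omega), dl_val]
    simp
  · exact G2.of_tendsto (hyperfilter ℕ) (Eventually.of_forall fun γ =>
      hML.gbf (fun j => (γ, p j)) hC Fs h1 h2 cs h3 h4) tendsto_const_nhds fun i j => hR _ _ _
  · by_contra hcon
    push Not at hcon
    obtain ⟨w, rfl⟩ := hB.exists_eq_range (closure_nonempty_iff.mp ⟨q, hq⟩)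
    have h1 : ∀ i, ∃ p l l', Sw q (w i) l l' ∧ ε < ‖R fs p l - R fs p l'‖ := fun i => by
      have := hcon (w i) ⟨i, rfl⟩
      simp only [Gd, not_forall, not_le] at this
      obtain ⟨p, l, l', h1, h2⟩ := this
      exact ⟨p, l, l', h1, h2⟩
    choose p l l' hsw hlt using h1
    obtain ⟨T, hT⟩ := hT fs
    obtain ⟨v, γ, hv⟩ := hump (ev := ev0 (Ω := Ω)) norm_Q0 (fun g hg => ⟨emb0 g hg, rfl⟩) Prod.fst
      (fun i γ => (evL (k := n + 1) (l i) (γ, p i) - evL (k := n + 1) (l' i) (γ, p i)).comp T)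
      (fun i γ => (γ, p i)) (fun _ _ => rfl) dl dl_val hε fun i => by
        have := ((hR fs (p i) (l i)).sub (hR fs (p i) (l' i))).norm.eventually (lt_mem_nhds (hlt i))
        filter_upwards [this] with γ hγ
        rw [hT] at hγ
        exact hγ.le
    obtain ⟨E, hE, hE'⟩ := Qt.uc (T v) (ε / 4) (by positivity)
    have hq1 : {z | (q, z) ∈ E} ∈ 𝓝 q :=
      (by fun_prop : Continuous fun z => (q, z)).continuousAt.preimage_mem_nhds
        (mem_nhdsSet_iff_forall.mp hE _ (mem_diagonal q))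
    have hq2 : {z | (z, q) ∈ E} ∈ 𝓝 q :=
      (by fun_prop : Continuous fun z => (z, q)).continuousAt.preimage_mem_nhds
        (mem_nhdsSet_iff_forall.mp hE _ (mem_diagonal q))
    obtain ⟨_, ⟨ha, hb⟩, i, rfl⟩ := mem_closure_iff_nhds.mp hq _ (inter_mem hq1 hq2)
    have h2 := hE' (l i) (l' i) ((hsw i).imp fun a b hab => by
      rcases hab with rfl | ⟨rfl, rfl⟩ | ⟨rfl, rfl⟩
      · exact mem_of_mem_nhdsSet_diag hE _
      · exact ha
      · exact hb) (γ i, p i)
    have h3 : ε / 2 ≤ ‖Qt.val (T v) (l i) (γ i, p i) - Qt.val (T v) (l' i) (γ i, p i)‖ := hv i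
    linarith

end Pool.Agent.MP_75da70_an.H7
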