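import Pool.Agent.MP_75da70_an.H7.Tensor

/-
Resolutions of length two and the cone lemma.
-/

namespace Pool.Agent.MP_75da70_an.H7

universe u

variable {A : Type u} [NonUnitalNormedRing A] [NormedSpace ℂ A]

variable (A) in
@[reducible] noncomputable def zeroM : BanMod A where
  carrier := PUnit.{u + 1}
  act := 0
  act_mul := fun _ _ _ => rfl

theorem IsProjective.zero : IsProjective (zeroM A) := by
  rintro Y X σ _ _ φ _
  refine ⟨0, fun a x => by simp, fun p => ?_⟩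
  have : p = 0 := rfl
  simp [this]

noncomputable def prodAct (X Y : BanMod A) :
    A →L[ℂ] (X.carrier × Y.carrier) →L[ℂ] (X.carrier × Y.carrier) :=
  (ContinuousLinearMap.prodMapL ℂ X.carrier X.carrier Y.carrier Y.carrier).comp (X.act.prod Y.act)

@[simp] theorem prodAct_apply (X Y : BanMod A) (a : A) (z : X.carrier × Y.carrier) :
    prodAct X Y a z = (X.act a z.1, Y.act a z.2) := rfl

@[reducible] noncomputable def prodM (X Y : BanMod A) : BanMod A where
  carrier := X.carrier × Y.carrier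
  act := prodAct X Y
  act_mul := fun a b z => by simp [BanMod.act_mul]

theorem IsProjective.prod {X Y : BanMod A} (hX : IsProjective X) (hY : IsProjective Y) :
    IsProjective (prodM X Y) := by
  rintro Z W σ hσ hτ φ hφ
  obtain ⟨ψ1, h1, h1'⟩ := hX Z W σ hσ hτ (φ.comp (ContinuousLinearMap.inl ℂ _ _))
    fun a x => by simpa using hφ a (x, 0)
  obtain ⟨ψ2, h2, h2'⟩ := hY Z W σ hσ hτ (φ.comp (ContinuousLinearMap.inr ℂ _ _))
    fun a x => by simpa using hφ a (0, x)
  refine ⟨ψ1.coprod ψ2, fun a z => by simp [h1 a, h2 a], fun z => ?_⟩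
  simp only [ContinuousLinearMap.coprod_apply, map_add, h1', h2', ContinuousLinearMap.comp_apply]
  rw [← map_add]; simp

theorem IsProjective.retract {P : BanMod A} (hP : IsProjective P) (q : P.carrier →L[ℂ] P.carrier)
    (hq : IsMor P P q) (hqq : ∀ p, q (q p) = q p) :
    ∃ (D : BanMod A) (inc : D.carrier →L[ℂ] P.carrier) (pr : P.carrier →L[ℂ] D.carrier),
      IsProjective D ∧ IsMor D P inc ∧ IsMor P D pr ∧ (∀ d, pr (inc d) = d) ∧
        ∀ p, inc (pr p) = q p := by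
  have hm : IsMor P P (ContinuousLinearMap.id ℂ _ - q) := fun a x => by simp [hq a]
  let D := BanMod.ker P P _ hm
  let inc : D.carrier →L[ℂ] P.carrier := (ContinuousLinearMap.id ℂ _ - q).ker.subtypeL
  let pr : P.carrier →L[ℂ] D.carrier :=
    q.codRestrict (ContinuousLinearMap.id ℂ _ - q).ker fun p => by simp [hqq]
  have h1 : IsMor D P inc := fun _ _ => rfl
  have h2 : IsMor P D pr := fun a x => Subtype.ext (hq a x)
  have h3 : ∀ d, pr (inc d) = d := fun d => Subtype.ext (by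
    have := d.2
    simp only [LinearMap.mem_ker, ContinuousLinearMap.coe_coe, sub_apply,
      ContinuousLinearMap.id_apply, sub_eq_zero] at this
    exact this.symm)
  refine ⟨D, inc, pr, ?_, h1, h2, h3, fun _ => rfl⟩
  rintro Z W σ hσ hτ φ hφ
  obtain ⟨ψ, h4, h5⟩ := hP Z W σ hσ hτ (φ.comp pr) fun a x => by
    simp only [ContinuousLinearMap.comp_apply]; rw [h2, hφ]
  refine ⟨ψ.comp inc, fun a x => ?_, fun d => ?_⟩
  · simp only [ContinuousLinearMap.comp_apply]; rw [h1, h4]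
  · simp [h5, h3]

/-- an admissible exact sequence `0 → P2 → P1 → Y → X → 0`. -/
structure Ex4 (P2 P1 Y X : BanMod A) (b : P2.carrier →L[ℂ] P1.carrier)
    (a : P1.carrier →L[ℂ] Y.carrier) (π : Y.carrier →L[ℂ] X.carrier) : Prop where
  mb : IsMor P2 P1 b
  ma : IsMor P1 Y a
  mp : IsMor Y X π
  ab : ∀ p, a (b p) = 0
  pa : ∀ p, π (a p) = 0
  t : ∃ t : X.carrier →L[ℂ] Y.carrier, ∀ x, π (t x) = x
  s0 : ∃ s : Y.carrier →L[ℂ] P1.carrier, ∀ y, π y = 0 → a (s y) = y
  s1 : ∃ s : P1.carrier →L[ℂ] P2.carrier, ∀ y, a y = 0 → b (s y) = y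
  inj : ∀ p, b p = 0 → p = 0

def Res2 (X : BanMod A) : Prop :=
  ∃ (P2 P1 P0 : BanMod A) (b : P2.carrier →L[ℂ] P1.carrier) (a : P1.carrier →L[ℂ] P0.carrier)
    (π : P0.carrier →L[ℂ] X.carrier),
    IsProjective P2 ∧ IsProjective P1 ∧ IsProjective P0 ∧ Ex4 P2 P1 P0 X b a π

theorem Res2.hasProjRes {X : BanMod A} (h : Res2 X) : HasProjRes X 2 := by
  obtain ⟨P2, P1, P0, b, a, π, h2, h1, h0, mb, ma, mp, ab, pa, ⟨t, ht⟩, ⟨s0, hs0⟩, ⟨s1, hs1⟩,
    inj⟩ := h
  let P : ℕ → BanMod A := fun k => match k with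
    | 0 => P0
    | 1 => P1
    | 2 => P2
    | _ + 3 => zeroM A
  let d : ∀ k, (P (k + 1)).carrier →L[ℂ] (P k).carrier := fun k => match k with
    | 0 => a
    | 1 => b
    | _ + 2 => 0
  let s0' : P0.carrier →L[ℂ] P1.carrier := s0.comp (ContinuousLinearMap.id ℂ _ - t.comp π)
  let s1' : P1.carrier →L[ℂ] P2.carrier := s1.comp (ContinuousLinearMap.id ℂ _ - s0'.comp a)
  let s : ∀ k, (P k).carrier →L[ℂ] (P (k + 1)).carrier := fun k => match k with
    | 0 => s0'
    | 1 => s1'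
    | _ + 2 => 0
  have e0 : ∀ p, a (s0' p) + t (π p) = p := fun p => by
    have : a (s0' p) = p - t (π p) := hs0 _ (by simp [ht])
    rw [this]; abel
  have e1 : ∀ p, b (s1' p) + s0' (a p) = p := fun p => by
    have h3 := e0 (a p)
    rw [pa, map_zero, add_zero] at h3
    have : b (s1' p) = p - s0' (a p) := hs1 _ (by simp [h3])
    rw [this]; abel
  have e2 : ∀ p, s1' (b p) = p := fun p => by
    have h3 := e1 (b p)
    rw [ab, map_zero, add_zero] at h3
    exact sub_eq_zero.mp (inj _ (by rw [map_sub, h3, sub_self]))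
  refine ⟨P, π, d, t, s, fun k => ?_, mp, fun k => ?_, pa, fun k p => ?_, ht, e0, fun k p => ?_,
    fun k hk p => ?_⟩
  · match k with
    | 0 => exact h0
    | 1 => exact h1
    | 2 => exact h2
    | _ + 3 => exact IsProjective.zero
  · match k with
    | 0 => exact ma
    | 1 => exact mb
    | k + 2 => exact fun f x => ((P (k + 2)).act f).map_zero.symm
  · match k with
    | 0 => exact ab p
    | 1 => exact b.map_zero
    | k + 2 => rfl
  · match k with
    | 0 => exact e1 p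
    | 1 => exact (zero_add _).trans (e2 p)
    | k + 2 => rfl
  · match k, hk with
    | k + 3, _ => rfl

theorem Res2.of_subsingleton {X : BanMod A} (h : ∀ x : X.carrier, x = 0) : Res2 X :=
  ⟨zeroM A, zeroM A, zeroM A, 0, 0, 0, .zero, .zero, .zero, fun _ _ => rfl, fun _ _ => rfl,
    fun _ _ => (h _).trans (h _).symm, fun _ => rfl, fun _ => rfl, ⟨0, fun x => (h x).symm⟩,
    ⟨0, fun _ _ => rfl⟩, ⟨0, fun _ _ => rfl⟩, fun _ _ => rfl⟩

theorem Res2.prod {D Y : BanMod A} (hD : IsProjective D) (h : Res2 Y) : Res2 (prodM D Y) := by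
  obtain ⟨P2, P1, P0, b, a, π, h2, h1, h0, mb, ma, mp, ab, pa, ⟨t, ht⟩, ⟨s0, hs0⟩, ⟨s1, hs1⟩,
    inj⟩ := h
  refine ⟨P2, P1, prodM D P0, b, (ContinuousLinearMap.inr ℂ _ _).comp a,
    (ContinuousLinearMap.id ℂ _).prodMap π, h2, h1, hD.prod h0, mb, fun f x => by simp [ma f],
    fun f x => by simp [mp f, Prod.map], fun p => by simp [ab], fun p => by simp [pa],
    ⟨(ContinuousLinearMap.id ℂ _).prodMap t, fun x => by simp [ht, Prod.map]⟩,
    ⟨s0.comp (ContinuousLinearMap.snd ℂ _ _), fun y hy => ?_⟩,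
    ⟨s1, fun y hy => hs1 y (by simpa using hy)⟩, inj⟩
  obtain ⟨y1, y2⟩ := y
  simp only [ContinuousLinearMap.coe_prodMap', Prod.map, ContinuousLinearMap.id_apply,
    Prod.mk_eq_zero] at hy
  simp [hs0 y2 hy.2, hy.1]

theorem Res2.cone {P2 P1 Y X : BanMod A} {b : P2.carrier →L[ℂ] P1.carrier}
    {a : P1.carrier →L[ℂ] Y.carrier} {π : Y.carrier →L[ℂ] X.carrier} (h2 : IsProjective P2)
    (h1 : IsProjective P1) (hE : Ex4 P2 P1 Y X b a π) (h : Res2 Y) : Res2 X := by
  obtain ⟨R2, R1, R0, d1, d0, ε, g2, g1, g0, m1, m0, mε, dd, εd, ⟨t, ht⟩, ⟨s0, hs0⟩, ⟨s1, hs1⟩,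
    inj⟩ := h
  obtain ⟨mb, ma, mp, ab, pa, ⟨τ, hτ⟩, ⟨σ0, hσ0⟩, ⟨σ1, hσ1⟩, binj⟩ := hE
  obtain ⟨α0, n0, e0⟩ := h1 R0 Y ε mε ⟨t, ht⟩ a ma
  obtain ⟨α1, n1, e1⟩ := h2.lift_ker d0 m0 ε mε εd s0 hs0 (α0.comp b)
    (fun f x => by simp [mb f, n0 f]) (fun p => by simp [e0, ab])
  simp only [ContinuousLinearMap.comp_apply] at e1
  refine ⟨prodM R2 P2, prodM R1 P1, R0,
    (d1.coprod α1).prod (-(b.comp (ContinuousLinearMap.snd ℂ _ _))), d0.coprod α0, π.comp ε,
    g2.prod h2, g1.prod h1, g0, fun f x => by simp [m1 f, n1 f, mb f],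
    fun f x => by simp [m0 f, n0 f], fun f x => by simp [mε f, mp f], fun p => by simp [dd, e1],
    fun p => by simp [εd, e0, pa], ⟨t.comp τ, fun x => by simp [ht, hτ]⟩,
    ⟨(s0.comp (ContinuousLinearMap.id ℂ _ - α0.comp (σ0.comp ε))).prod (σ0.comp ε),
      fun y hy => ?_⟩,
    ⟨(s1.comp ((ContinuousLinearMap.id ℂ _).coprod (α1.comp σ1))).prod
      (-(σ1.comp (ContinuousLinearMap.snd ℂ _ _))), fun y hy => ?_⟩, fun p hp => ?_⟩
  · have := hs0 (y - α0 (σ0 (ε y))) (by rw [map_sub, e0, hσ0 (ε y) hy, sub_self])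
    simp only [ContinuousLinearMap.coprod_apply, ContinuousLinearMap.prod_apply,
      ContinuousLinearMap.comp_apply, sub_apply, ContinuousLinearMap.id_apply,
      this, sub_add_cancel]
  · obtain ⟨y1, y2⟩ := y
    simp only [ContinuousLinearMap.coprod_apply] at hy
    have k1 : a y2 = 0 := by simpa [εd, e0] using congrArg ε hy
    have k2 := hσ1 y2 k1
    have k3 := hs1 (y1 + α1 (σ1 y2)) (by rw [map_add, e1, k2, hy])
    simp only [ContinuousLinearMap.coprod_apply, ContinuousLinearMap.prod_apply,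
      ContinuousLinearMap.comp_apply, neg_apply, ContinuousLinearMap.id_apply,
      ContinuousLinearMap.coe_snd', k3, map_neg, k2, neg_neg, add_neg_cancel_right]
  · obtain ⟨p1, p2⟩ := p
    simp only [ContinuousLinearMap.coprod_apply, ContinuousLinearMap.prod_apply,
      ContinuousLinearMap.comp_apply, neg_apply, ContinuousLinearMap.coe_snd',
      Prod.mk_eq_zero, neg_eq_zero] at hp ⊢
    have k1 := binj _ hp.2
    subst k1
    exact ⟨inj _ (by simpa using hp.1), rfl⟩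

end Pool.Agent.MP_75da70_an.H7
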