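import Pool.Agent.MP_75da70_an.H7.Res2

/-
The abstract induction step and the reduction to essential modules.
-/

namespace Pool.Agent.MP_75da70_an.H7

universe u

variable {A : Type u} [NonUnitalNormedRing A] [NormedSpace ℂ A]

theorem IsMor.prod {P X Y : BanMod A} {f : P.carrier →L[ℂ] X.carrier}
    {g : P.carrier →L[ℂ] Y.carrier} (hf : IsMor P X f) (hg : IsMor P Y g) :
    IsMor P (prodM X Y) (f.prod g) := fun a x => by simp [hf a, hg a]

theorem IsMor.coprod {P X Y : BanMod A} {f : X.carrier →L[ℂ] P.carrier}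
    {g : Y.carrier →L[ℂ] P.carrier} (hf : IsMor X P f) (hg : IsMor Y P g) :
    IsMor (prodM X Y) P (f.coprod g) := fun a x => by simp [hf a, hg a]

theorem Res2.step {T00 T01 T10 T11 Y Y' : BanMod A} (p00 : IsProjective T00)
    (p01 : IsProjective T01) (p10 : IsProjective T10) (p11 : IsProjective T11)
    (i : Y'.carrier →L[ℂ] Y.carrier) (i0 : T01.carrier →L[ℂ] T00.carrier)
    (i1 : T11.carrier →L[ℂ] T10.carrier) (j0 : T10.carrier →L[ℂ] T00.carrier)
    (j1 : T11.carrier →L[ℂ] T01.carrier) (k0 : T00.carrier →L[ℂ] T10.carrier)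
    (k1 : T01.carrier →L[ℂ] T11.carrier) (m00 : T00.carrier →L[ℂ] Y.carrier)
    (m01 : T01.carrier →L[ℂ] Y'.carrier) (m10 : T10.carrier →L[ℂ] Y'.carrier)
    (ρ0 : Y.carrier →L[ℂ] T00.carrier) (ρ1 : Y'.carrier →L[ℂ] T01.carrier)
    (Q00 : T00.carrier →L[ℂ] T00.carrier) (Q01 : T01.carrier →L[ℂ] T01.carrier)
    (Q10 : T10.carrier →L[ℂ] T10.carrier) (Q11 : T11.carrier →L[ℂ] T11.carrier)
    (mi : IsMor Y' Y i) (mi0 : IsMor T01 T00 i0) (mi1 : IsMor T11 T10 i1)
    (mj0 : IsMor T10 T00 j0) (mj1 : IsMor T11 T01 j1) (mm00 : IsMor T00 Y m00)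
    (mm01 : IsMor T01 Y' m01) (mm10 : IsMor T10 Y' m10) (mQ00 : IsMor T00 T00 Q00)
    (mQ01 : IsMor T01 T01 Q01) (mQ10 : IsMor T10 T10 Q10) (mQ11 : IsMor T11 T11 Q11)
    (q00 : ∀ t, Q00 (Q00 t) = Q00 t) (q01 : ∀ t, Q01 (Q01 t) = Q01 t)
    (q10 : ∀ t, Q10 (Q10 t) = Q10 t) (q11 : ∀ t, Q11 (Q11 t) = Q11 t)
    (ci0 : ∀ t, Q00 (i0 t) = i0 (Q01 t)) (ci1 : ∀ t, Q10 (i1 t) = i1 (Q11 t))
    (cj0 : ∀ t, Q00 (j0 t) = j0 (Q10 t)) (cj1 : ∀ t, Q01 (j1 t) = j1 (Q11 t))
    (ck0 : ∀ t, Q10 (k0 t) = k0 (Q00 t)) (ck1 : ∀ t, Q11 (k1 t) = k1 (Q01 t))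
    (cρ0 : ∀ y, Q00 (ρ0 y) = ρ0 y) (cρ1 : ∀ y, Q01 (ρ1 y) = ρ1 y)
    (a1 : ∀ t, m00 (i0 t) = i (m01 t)) (a2 : ∀ t, m00 (j0 t) = i (m10 t))
    (a3 : ∀ t, i0 (j1 t) = j0 (i1 t)) (a4 : ∀ t, m01 (j1 t) = m10 (i1 t))
    (a5 : ∀ y, m00 (ρ0 y) = y) (a6 : ∀ y, m01 (ρ1 y) = y) (a7 : ∀ y, i0 (ρ1 y) = ρ0 (i y))
    (a8 : ∀ t, k1 (j1 t) = t) (a9 : ∀ t, k0 (j0 t) = t) (a10 : ∀ t, k0 (i0 t) = i1 (k1 t))
    (key0 : ∀ t, Q00 t = j0 (k0 (Q00 t)) + ρ0 (m00 (Q00 t) - m00 (j0 (k0 (Q00 t)))))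
    (key1 : ∀ t, Q01 t = j1 (k1 (Q01 t)) + ρ1 (m01 (Q01 t) - m01 (j1 (k1 (Q01 t)))))
    (h : Res2 Y') : Res2 Y := by
  obtain ⟨D00, n00, r00, d00, mn00, mr00, rn00, nr00⟩ := p00.retract Q00 mQ00 q00
  obtain ⟨D01, n01, r01, d01, mn01, mr01, rn01, nr01⟩ := p01.retract Q01 mQ01 q01
  obtain ⟨D10, n10, r10, d10, mn10, mr10, rn10, nr10⟩ := p10.retract Q10 mQ10 q10
  obtain ⟨D11, n11, r11, d11, mn11, mr11, rn11, nr11⟩ := p11.retract Q11 mQ11 q11
  have f00 : ∀ d, Q00 (n00 d) = n00 d := fun d => by rw [← nr00, rn00]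
  have f01 : ∀ d, Q01 (n01 d) = n01 d := fun d => by rw [← nr01, rn01]
  have f10 : ∀ d, Q10 (n10 d) = n10 d := fun d => by rw [← nr10, rn10]
  have f11 : ∀ d, Q11 (n11 d) = n11 d := fun d => by rw [← nr11, rn11]
  refine Res2.cone (P2 := D11) (P1 := prodM D01 D10) (Y := prodM D00 Y')
    (b := (r01.comp (j1.comp n11)).prod (r10.comp (i1.comp n11)))
    (a := ((r00.comp (i0.comp n01)).coprod (-(r00.comp (j0.comp n10)))).prod
      ((-(m01.comp n01)).coprod (m10.comp n10)))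
    (π := (m00.comp n00).coprod i) d11 (d01.prod d10) ⟨?_, ?_, ?_, ?_, ?_, ?_, ?_, ?_, ?_⟩
    (h.prod d00)
  · intro f x
    simp [mn11 f, mj1 f, mi1 f, mr01 f, mr10 f]
  · intro f x
    simp [mn01 f, mn10 f, mi0 f, mj0 f, mr00 f, mm01 f, mm10 f]
  · intro f x
    simp [mn00 f, mm00 f, mi f]
  · intro p
    simp [nr01, nr10, cj1, ci1, f11, a3, a4]
  · intro p
    simp [nr00, ci0, cj0, f01, f10, a1, a2]
    abel
  · exact ⟨(r00.comp ρ0).prod 0, fun x => by simp [nr00, cρ0, a5]⟩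
  · refine ⟨(r01.comp (ρ1.comp ((-(m10.comp (k0.comp n00))).coprod
      (-(ContinuousLinearMap.id ℂ Y'.carrier))))).prod
        (-(r10.comp (k0.comp (n00.comp (ContinuousLinearMap.fst ℂ D00.carrier Y'.carrier))))), fun y hy => ?_⟩
    obtain ⟨t, y⟩ := y
    simp only [ContinuousLinearMap.coprod_apply, ContinuousLinearMap.comp_apply] at hy
    have k := key0 (n00 t)
    rw [f00, a2, eq_neg_of_add_eq_zero_left hy] at k
    simp only [ContinuousLinearMap.coprod_apply, ContinuousLinearMap.comp_apply,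
      ContinuousLinearMap.prod_apply, neg_apply, ContinuousLinearMap.id_apply,
      ContinuousLinearMap.coe_fst', nr01, nr10, cρ1, ck0, f00, a6, a7, map_neg, neg_neg,
      Prod.mk.injEq]
    refine ⟨?_, by abel⟩
    rw [← map_add r00]
    conv_rhs => rw [← rn00 t, k]
    congr 1
    simp only [map_add, map_neg, map_sub]
    abel
  · refine ⟨r11.comp (k1.comp (n01.comp (ContinuousLinearMap.fst ℂ _ _))), fun y hy => ?_⟩
    obtain ⟨t, t'⟩ := y
    simp only [ContinuousLinearMap.coprod_apply, ContinuousLinearMap.comp_apply,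
      ContinuousLinearMap.prod_apply, neg_apply, Prod.mk_eq_zero] at hy
    have e1 : i0 (n01 t) = j0 (n10 t') := by
      have := congrArg n00 hy.1
      rwa [map_add, map_neg, nr00, nr00, ci0, cj0, f01, f10, map_zero, add_neg_eq_zero] at this
    have e2 : n10 t' = i1 (k1 (n01 t)) := by rw [← a10, e1, a9]
    have k := key1 (n01 t)
    rw [f01, a4, ← e2, ← neg_add_eq_zero.mp hy.2, sub_self, map_zero, add_zero] at k
    simp only [ContinuousLinearMap.comp_apply, ContinuousLinearMap.prod_apply,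
      ContinuousLinearMap.coe_fst', nr11, ck1, f01, ← k, ← e2, rn01, rn10]
  · intro p hp
    simp only [ContinuousLinearMap.comp_apply, ContinuousLinearMap.prod_apply,
      Prod.mk_eq_zero] at hp
    have := congrArg (fun t => r11 (k1 (n01 t))) hp.1
    simpa [nr01, cj1, f11, a8, rn11] using this

/-- a closed invariant subspace. -/
noncomputable def subAct (X : BanMod A) (S : Submodule ℂ X.carrier)
    (hS : ∀ a x, x ∈ S → X.act a x ∈ S) : A →L[ℂ] S →L[ℂ] S :=
  LinearMap.mkContinuous₂ (LinearMap.mk₂ ℂ (fun a (x : S) => (⟨X.act a x, hS a x x.2⟩ : S))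
    (fun _ _ _ => Subtype.ext (by simp)) (fun _ _ _ => Subtype.ext (by simp))
    (fun _ _ _ => Subtype.ext (by simp)) (fun _ _ _ => Subtype.ext (by simp))) ‖X.act‖
    fun a x => X.norm_act_le a x

@[simp] theorem subAct_val (X : BanMod A) (S : Submodule ℂ X.carrier)
    (hS : ∀ a x, x ∈ S → X.act a x ∈ S) (a : A) (x : S) :
    (subAct X S hS a x : X.carrier) = X.act a x := rfl

@[reducible] noncomputable def subM (X : BanMod A) (S : Submodule ℂ X.carrier)
    (hc : IsClosed (S : Set X.carrier)) (hS : ∀ a x, x ∈ S → X.act a x ∈ S) : BanMod A where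
  carrier := S
  cpl := hc.completeSpace_coe
  act := subAct X S hS
  act_mul := fun a b x => Subtype.ext (X.act_mul a b x)

variable [IsScalarTower ℂ A A] [SMulCommClass ℂ A A] [CompleteSpace A]

variable (A) in
@[reducible] noncomputable def regM : BanMod A where
  carrier := A
  act := ContinuousLinearMap.mul ℂ A
  act_mul := fun a b x => mul_assoc a b x

variable (A) in
noncomputable def plusAct : A →L[ℂ] (ℂ × A) →L[ℂ] (ℂ × A) :=
  LinearMap.mkContinuous₂ (LinearMap.mk₂ ℂ (fun (a : A) (x : ℂ × A) => ((0, x.1 • a + a * x.2) : ℂ × A))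
    (fun _ _ _ => by simp [add_mul]; abel) (fun _ _ _ => by simp [smul_smul, mul_comm, smul_mul_assoc])
    (fun _ _ _ => by simp [mul_add, add_smul]; abel) (fun _ _ _ => by simp [smul_smul, mul_smul_comm])) 2
    fun a x => by
      simp only [LinearMap.mk₂_apply, Prod.norm_mk, norm_zero]
      refine max_le (by positivity) ((norm_add_le _ _).trans ?_)
      have h1 : ‖x.1 • a‖ ≤ ‖a‖ * ‖x‖ := by
        rw [norm_smul, mul_comm]
        exact mul_le_mul_of_nonneg_left (norm_fst_le x) (norm_nonneg _)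
      have h2 : ‖a * x.2‖ ≤ ‖a‖ * ‖x‖ :=
        (norm_mul_le _ _).trans (mul_le_mul_of_nonneg_left (norm_snd_le x) (norm_nonneg _))
      linarith

omit [CompleteSpace A] in
@[simp] theorem plusAct_apply (a : A) (x : ℂ × A) : plusAct A a x = (0, x.1 • a + a * x.2) := rfl

variable (A) in
@[reducible] noncomputable def plusM : BanMod A where
  carrier := ℂ × A
  act := plusAct A
  act_mul := fun a b x => by simp [mul_add, mul_assoc, mul_smul_comm]

theorem IsProjective.plus : IsProjective (plusM A) := by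
  rintro Y X σ hσ ⟨τ, hτ⟩ φ hφ
  refine ⟨(ContinuousLinearMap.toSpanSingleton ℂ (τ (φ (1, 0)))).coprod (Y.act.flip (τ (φ (1, 0)))),
    fun a x => by simp [Y.act_mul], fun x => ?_⟩
  have h1 := hφ x.2 (1, 0)
  simp only [plusAct_apply, one_smul, mul_zero, add_zero] at h1
  simp only [ContinuousLinearMap.coprod_apply, ContinuousLinearMap.toSpanSingleton_apply,
    ContinuousLinearMap.flip_apply, map_add, map_smul, hσ x.2, hτ, ← h1]
  rw [← map_smul, ← map_add]
  simp

theorem IsProjective.reg (e : A) (he : ∀ a, a * e = a) : IsProjective (regM A) := by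
  rintro Y X σ hσ ⟨τ, hτ⟩ φ hφ
  refine ⟨Y.act.flip (τ (φ e)), fun a x => by simp [Y.act_mul], fun x => ?_⟩
  have h1 := hφ x e
  simp only [ContinuousLinearMap.mul_apply', he] at h1
  simp [hσ x, hτ, h1]

theorem Res2.of_essential (e : A) (he : ∀ a, a * e = a) {X : BanMod A} (S : Submodule ℂ X.carrier)
    (hc : IsClosed (S : Set X.carrier)) (hS : ∀ a x, x ∈ S → X.act a x ∈ S)
    (h1 : ∀ x, X.act e x ∈ S) (h2 : ∀ x ∈ S, X.act e x = x) (h : Res2 (subM X S hc hS)) :
    Res2 X := by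
  let Z : Submodule ℂ X.carrier := (X.act e).ker
  have hZ : ∀ a (z : Z), X.act a z = 0 := fun a z => by
    have : X.act e z = 0 := z.2
    rw [← he a, X.act_mul, this, map_zero]
  let p : PT (ℂ × A) Z →L[ℂ] Z := PT.lift ((ContinuousLinearMap.lsmul ℂ ℂ).comp
    (ContinuousLinearMap.fst ℂ ℂ A))
  have hp : ∀ x z, p (tm (ℂ × A) Z x z) = x.1 • z := fun x z => by simp [p]
  let c : X.carrier →L[ℂ] Z := (ContinuousLinearMap.id ℂ _ - X.act e).codRestrict Z fun x => by
    change X.act e (x - X.act e x) = 0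
    rw [map_sub, ← X.act_mul, he, sub_self]
  refine Res2.cone (P2 := zeroM A) (P1 := TM (regM A) Z) (Y := prodM (TM (plusM A) Z) _)
    (b := 0) (a := (PT.map (ContinuousLinearMap.inr ℂ ℂ A) (ContinuousLinearMap.id ℂ Z)).prod 0)
    (π := (Z.subtypeL.comp p).coprod S.subtypeL) .zero ((IsProjective.reg e he).tm Z)
    ⟨fun f x => by simp, IsMor.prod (isMor_TM fun f x z => by
      simp only [PT.map_tm]
      exact Eq.trans (by simp) (TM_act (plusM A) Z f _ _).symm) fun _ _ => by simp, ?_,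
      fun _ => by simp, fun t => ?_,
      ⟨(((tm (ℂ × A) Z) (1, 0)).comp c).prod ((X.act e).codRestrict S h1), fun x => ?_⟩,
      ⟨(PT.map (ContinuousLinearMap.snd ℂ ℂ A) (ContinuousLinearMap.id ℂ Z)).comp
        (ContinuousLinearMap.fst ℂ _ _), fun y hy => ?_⟩, ⟨0, fun t ht => ?_⟩, fun _ _ => rfl⟩
    (h.prod (IsProjective.plus.tm Z))
  · have : IsMor (TM (plusM A) Z) X (Z.subtypeL.comp p) := isMor_TM fun f x z => by
      simp [hp, hZ]
    exact this.coprod fun _ _ => rfl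
  · have : (Z.subtypeL.comp p).comp (PT.map (ContinuousLinearMap.inr ℂ ℂ A)
        (ContinuousLinearMap.id ℂ Z)) = 0 := PT.ext fun x z => by simp [hp]
    simpa using DFunLike.congr_fun this t
  · simp [hp, c]
  · obtain ⟨t, y⟩ := y
    simp only [ContinuousLinearMap.coprod_apply, ContinuousLinearMap.comp_apply,
      Submodule.subtypeL_apply] at hy
    have k1 : y = 0 := by
      have := congrArg (X.act e) hy
      rw [map_add, hZ, zero_add, h2 _ y.2, map_zero] at this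
      exact Subtype.ext this
    subst k1
    have k2 : p t = 0 := Subtype.ext (by simpa using hy)
    have : (PT.map (ContinuousLinearMap.inr ℂ ℂ A) (ContinuousLinearMap.id ℂ Z)).comp
        (PT.map (ContinuousLinearMap.snd ℂ ℂ A) (ContinuousLinearMap.id ℂ Z)) +
        ((tm (ℂ × A) Z) (1, 0)).comp p = ContinuousLinearMap.id ℂ _ := PT.ext fun x z => by
      simp only [add_apply, ContinuousLinearMap.comp_apply, PT.map_tm, hp, map_smul,
        ContinuousLinearMap.id_apply]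
      rw [← smul_apply, ← map_smul, ← add_apply, ← map_add]
      simp
    simpa [k2] using DFunLike.congr_fun this t
  · have : (PT.map (ContinuousLinearMap.snd ℂ ℂ A) (ContinuousLinearMap.id ℂ Z)).comp
        (PT.map (ContinuousLinearMap.inr ℂ ℂ A) (ContinuousLinearMap.id ℂ Z)) =
        ContinuousLinearMap.id ℂ _ := PT.ext fun x z => by simp
    have h3 := DFunLike.congr_fun this t
    simp only [ContinuousLinearMap.prod_apply, Prod.mk_eq_zero] at ht
    simp only [ContinuousLinearMap.comp_apply, ht.1, map_zero, ContinuousLinearMap.id_apply] at h3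
    simpa using h3

end Pool.Agent.MP_75da70_an.H7
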