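import Pool.Agent.MP_75da70_an.H7.Hom

/-
The projective tensor product of two normed spaces and tensor modules.
-/

namespace Pool.Agent.MP_75da70_an.H7

open scoped TensorProduct

universe u

section PT

variable (E F : Type u) [NormedAddCommGroup E] [NormedSpace ℂ E] [NormedAddCommGroup F]
  [NormedSpace ℂ F]

/-- bounded bilinear forms. -/
def Bil : Type u := E →L[ℂ] F →L[ℂ] ℂ

noncomputable instance : NormedAddCommGroup (Bil E F) :=
  inferInstanceAs (NormedAddCommGroup (E →L[ℂ] F →L[ℂ] ℂ))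

noncomputable instance : NormedSpace ℂ (Bil E F) :=
  inferInstanceAs (NormedSpace ℂ (E →L[ℂ] F →L[ℂ] ℂ))

variable {E F} in
def Bil.toCLM (β : Bil E F) : E →L[ℂ] F →L[ℂ] ℂ := β

variable {E F} in
noncomputable def evB0 (e : E) (f : F) : Bil E F →L[ℂ] ℂ :=
  LinearMap.mkContinuous
    { toFun := fun β => β.toCLM e f
      map_add' := fun _ _ => rfl
      map_smul' := fun _ _ => rfl } (‖e‖ * ‖f‖) fun β => by
        have : ‖β.toCLM e f‖ ≤ ‖β‖ * ‖e‖ * ‖f‖ := β.toCLM.le_opNorm₂ e f
        change ‖β.toCLM e f‖ ≤ _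
        linarith

theorem evB0_apply (e : E) (f : F) (β : Bil E F) : evB0 e f β = β.toCLM e f := rfl

theorem norm_evB0 (e : E) (f : F) : ‖evB0 e f‖ ≤ ‖e‖ * ‖f‖ := by
  refine ContinuousLinearMap.opNorm_le_bound _ (by positivity) fun β => ?_
  have : ‖β.toCLM e f‖ ≤ ‖β‖ * ‖e‖ * ‖f‖ := β.toCLM.le_opNorm₂ e f
  rw [evB0_apply]
  linarith

/-- evaluation of bounded bilinear forms. -/
noncomputable def evB : E →L[ℂ] F →L[ℂ] (Bil E F →L[ℂ] ℂ) :=
  LinearMap.mkContinuous₂ (LinearMap.mk₂ ℂ (fun (e : E) (f : F) => evB0 e f)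
    (fun _ _ _ => by ext; simp [evB0_apply]) (fun _ _ _ => by ext; simp [evB0_apply])
    (fun _ _ _ => by ext; simp [evB0_apply])
    (fun _ _ _ => by ext; simp [evB0_apply])) 1 fun e f => by
      rw [one_mul]
      exact norm_evB0 E F e f

noncomputable def evT : E ⊗[ℂ] F →ₗ[ℂ] (Bil E F →L[ℂ] ℂ) :=
  TensorProduct.lift (evB E F).toLinearMap₁₂

/-- the projective tensor product. -/
def PT : Type u := (LinearMap.range (evT E F)).topologicalClosure

noncomputable instance : NormedAddCommGroup (PT E F) :=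
  inferInstanceAs (NormedAddCommGroup (LinearMap.range (evT E F)).topologicalClosure)

noncomputable instance : NormedSpace ℂ (PT E F) :=
  inferInstanceAs (NormedSpace ℂ (LinearMap.range (evT E F)).topologicalClosure)

instance : CompleteSpace (PT E F) :=
  inferInstanceAs (CompleteSpace (LinearMap.range (evT E F)).topologicalClosure)

noncomputable def evP : E ⊗[ℂ] F →ₗ[ℂ] PT E F :=
  (evT E F).codRestrict (LinearMap.range (evT E F)).topologicalClosure fun x =>
    Submodule.le_topologicalClosure _ ⟨x, rfl⟩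

theorem dense_evP : DenseRange (evP E F) := by
  intro t
  obtain ⟨t, ht⟩ := t
  refine (Topology.IsInducing.subtypeVal.closure_eq_preimage_closure_image _).ge ?_
  refine closure_mono ?_ ht
  rintro _ ⟨x, rfl⟩
  exact ⟨evP E F x, ⟨x, rfl⟩, rfl⟩

/-- elementary tensors. -/
noncomputable def tm : E →L[ℂ] F →L[ℂ] PT E F :=
  LinearMap.mkContinuous₂ (LinearMap.mk₂ ℂ (fun e f => evP E F (e ⊗ₜ f))
    (fun _ _ _ => by rw [TensorProduct.add_tmul, map_add])
    (fun _ _ _ => by rw [← TensorProduct.smul_tmul', map_smul])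
    (fun _ _ _ => by rw [TensorProduct.tmul_add, map_add])
    (fun _ _ _ => by rw [TensorProduct.tmul_smul, map_smul])) 1
    fun e f => by rw [one_mul]; exact norm_evB0 E F e f

variable {E F} {G : Type*} [NormedAddCommGroup G] [NormedSpace ℂ G]

theorem PT.ext {φ ψ : PT E F →L[ℂ] G} (h : ∀ e f, φ (tm E F e f) = ψ (tm E F e f)) : φ = ψ := by
  refine ContinuousLinearMap.ext fun t => ?_
  refine (dense_evP E F).induction_on t (isClosed_eq φ.continuous ψ.continuous) fun x => ?_
  induction x using TensorProduct.induction_on with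
  | zero => simp
  | tmul e f => exact h e f
  | add x y hx hy => simp [hx, hy]

theorem lift_bound (β : E →L[ℂ] F →L[ℂ] G) (x : E ⊗[ℂ] F) :
    ‖TensorProduct.lift β.toLinearMap₁₂ x‖ ≤ ‖β‖ * ‖evP E F x‖ := by
  refine NormedSpace.norm_le_dual_bound ℂ _ (by positivity) fun φ => ?_
  let γ : Bil E F := (ContinuousLinearMap.compL ℂ F G ℂ φ).comp β
  have h1 : φ (TensorProduct.lift β.toLinearMap₁₂ x) = evT E F x γ := by
    induction x using TensorProduct.induction_on with
    | zero => simp
    | tmul e f => rfl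
    | add x y hx hy => simp [hx, hy]
  have h2 : ‖γ‖ ≤ ‖β‖ * ‖φ‖ := by
    refine ContinuousLinearMap.opNorm_le_bound₂ γ.toCLM (by positivity) fun e f => ?_
    refine (φ.le_opNorm (β e f)).trans ?_
    have := mul_le_mul_of_nonneg_left (β.le_opNorm₂ e f) (norm_nonneg φ)
    linarith
  rw [h1]
  refine ((evT E F x).le_opNorm γ).trans ?_
  have := mul_le_mul_of_nonneg_left h2 (norm_nonneg (evT E F x))
  have e : ‖evP E F x‖ = ‖evT E F x‖ := rfl
  rw [e]; linarith

variable [CompleteSpace G]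

/-- the linear map attached to a bounded bilinear map. -/
noncomputable def PT.lift (β : E →L[ℂ] F →L[ℂ] G) : PT E F →L[ℂ] G :=
  (TensorProduct.lift β.toLinearMap₁₂).extendOfNorm (evP E F)

@[simp] theorem PT.lift_tm (β : E →L[ℂ] F →L[ℂ] G) (e : E) (f : F) :
    PT.lift β (tm E F e f) = β e f :=
  LinearMap.extendOfNorm_eq (dense_evP E F) ⟨_, lift_bound β⟩ (e ⊗ₜ f)

theorem PT.norm_lift_le (β : E →L[ℂ] F →L[ℂ] G) (t : PT E F) : ‖PT.lift β t‖ ≤ ‖β‖ * ‖t‖ :=
  LinearMap.norm_extendOfNorm_apply_le (dense_evP E F) _ (lift_bound β) t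

variable {E' F' : Type u} [NormedAddCommGroup E'] [NormedSpace ℂ E'] [NormedAddCommGroup F']
  [NormedSpace ℂ F']

/-- tensor product of two bounded maps. -/
noncomputable def PT.map (a : E →L[ℂ] E') (b : F →L[ℂ] F') : PT E F →L[ℂ] PT E' F' :=
  PT.lift ((tm E' F').bilinearComp a b)

@[simp] theorem PT.map_tm (a : E →L[ℂ] E') (b : F →L[ℂ] F') (e : E) (f : F) :
    PT.map a b (tm E F e f) = tm E' F' (a e) (b f) := by simp [PT.map]

end PT

variable {A : Type u} [NonUnitalNormedRing A] [NormedSpace ℂ A]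

noncomputable def TMact (J : BanMod A) (Y : Type u) [NormedAddCommGroup Y] [NormedSpace ℂ Y] :
    A →L[ℂ] PT J.carrier Y →L[ℂ] PT J.carrier Y :=
  LinearMap.mkContinuous
    { toFun := fun a => PT.lift ((tm J.carrier Y).comp (J.act a))
      map_add' := fun a b => PT.ext fun e f => by simp
      map_smul' := fun c a => PT.ext fun e f => by simp } (‖tm J.carrier Y‖ * ‖J.act‖) fun a => by
        refine ContinuousLinearMap.opNorm_le_bound _ (by positivity) fun t => ?_
        refine (PT.norm_lift_le _ t).trans (mul_le_mul_of_nonneg_right ?_ (norm_nonneg _))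
        refine (ContinuousLinearMap.opNorm_comp_le _ _).trans ?_
        rw [mul_assoc]
        exact mul_le_mul_of_nonneg_left (J.act.le_opNorm a) (norm_nonneg _)

@[simp] theorem TM_act (J : BanMod A) (Y : Type u) [NormedAddCommGroup Y] [NormedSpace ℂ Y] (a : A)
    (e : J.carrier) (f : Y) :
    TMact J Y a (tm J.carrier Y e f) = tm J.carrier Y (J.act a e) f :=
  PT.lift_tm _ _ _

/-- the tensor product of a module with a normed space. -/
@[reducible] noncomputable def TM (J : BanMod A) (Y : Type u) [NormedAddCommGroup Y]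
    [NormedSpace ℂ Y] : BanMod A where
  carrier := PT J.carrier Y
  act := TMact J Y
  act_mul := fun a b t => by
    refine DFunLike.congr_fun (PT.ext (φ := TMact J Y (a * b))
      (ψ := (TMact J Y a).comp (TMact J Y b)) fun e f => ?_) t
    simp [J.act_mul]

theorem isMor_TM {J Z : BanMod A} {Y : Type u} [NormedAddCommGroup Y] [NormedSpace ℂ Y]
    {φ : PT J.carrier Y →L[ℂ] Z.carrier}
    (h : ∀ a e f, φ (tm J.carrier Y (J.act a e) f) = Z.act a (φ (tm J.carrier Y e f))) :
    IsMor (TM J Y) Z φ := fun a t =>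
  DFunLike.congr_fun (PT.ext (φ := φ.comp (TMact J Y a)) (ψ := (Z.act a).comp φ)
    fun e f => by simp only [ContinuousLinearMap.comp_apply, TM_act, h]) t

/-- bounded operators into a module. -/
@[reducible] noncomputable def HomM (Y : Type u) [NormedAddCommGroup Y] [NormedSpace ℂ Y]
    (Z : BanMod A) : BanMod A where
  carrier := Y →L[ℂ] Z.carrier
  act := (ContinuousLinearMap.compL ℂ Y Z.carrier Z.carrier).comp Z.act
  act_mul := fun a b t => by ext y; simp [Z.act_mul]

theorem IsProjective.tm {J : BanMod A} (h : IsProjective J) (Y : Type u) [NormedAddCommGroup Y]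
    [NormedSpace ℂ Y] : IsProjective (TM J Y) := by
  rintro Z W σ hσ ⟨τ, hτ⟩ φ hφ
  obtain ⟨ψ, h1, h2⟩ := h (HomM Y Z) (HomM Y W) (ContinuousLinearMap.compL ℂ Y _ _ σ)
    (fun a t => by ext y; simp [hσ a])
    ⟨ContinuousLinearMap.compL ℂ Y _ _ τ, fun t => by ext y; simp [hτ]⟩
    ((ContinuousLinearMap.compL ℂ Y _ _ φ).comp (H7.tm J.carrier Y))
    (fun a e => by
      ext y
      have := hφ a (H7.tm J.carrier Y e y)
      rw [TM_act] at this
      simpa using this)
  refine ⟨PT.lift ψ, isMor_TM fun a e f => ?_, fun t => ?_⟩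
  · simp only [PT.lift_tm]
    rw [h1 a e]; rfl
  · refine DFunLike.congr_fun (PT.ext (φ := σ.comp (PT.lift ψ)) (ψ := φ) fun e f => ?_) t
    simpa using DFunLike.congr_fun (h2 e) f

end Pool.Agent.MP_75da70_an.H7
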