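import Pool.Agent.MP_75da70_an.H7.Ess
import Pool.Agent.MP_75da70_an.H7.CaseA

/-
Finite height and clopen partitions around every point: resolutions of length two.
-/

namespace Pool.Agent.MP_75da70_an.H7

open Filter Topology Set

universe u

variable {Ω : Type u} [TopologicalSpace Ω]

/-- indicator of a fibre. -/
noncomputable def ee (U : Set Ω) (r : Ω → Ω) (v : Ω) : C(Ω, ℂ) := ind {y | y ∈ U ∧ r y = v}

variable {U : Set Ω} {r : Ω → Ω}

open Classical in
theorem PP.ee_apply (h : PP U r) (v y : Ω) : ee U r v y = if y ∈ U ∧ r y = v then 1 else 0 := by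
  split_ifs with hy
  · exact ind_of_mem (h.2 v) hy
  · exact ind_of_notMem hy

theorem PP.ee_idem (h : PP U r) (v : Ω) : ee U r v * ee U r v = ee U r v := by
  ext y; simp only [ContinuousMap.mul_apply, h.ee_apply]; split_ifs <;> simp

theorem PP.ee_orth (h : PP U r) (v w : Ω) (hw : w ≠ v) : ee U r w * ee U r v = 0 := by
  ext y
  simp only [ContinuousMap.mul_apply, h.ee_apply, ContinuousMap.zero_apply]
  split_ifs with h1 h2
  · exact absurd (h1.2.symm.trans h2.2) hw
  all_goals simp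

theorem PP.ee_smul (h : PP U r) (v w : Ω) : ee U r v w • ee U r w =
    ee U r v * ee U r w := by
  classical
  ext y
  simp only [ContinuousMap.mul_apply, h.ee_apply, ContinuousMap.smul_apply, smul_eq_mul]
  by_cases hy : y ∈ U ∧ r y = w
  · obtain ⟨h1, rfl⟩ := hy
    congr 1
    exact if_congr (by simp [h1, (h.1 y h1).1, (h.1 y h1).2]) rfl rfl
  · simp [hy]

variable [CompactSpace Ω]

theorem PP.signBdd (h : PP U r) : SignBdd (ee U r) :=
  signBdd_of_disjoint _ (fun _ _ => norm_ind_le _ _) fun v w hw x => by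
    have := DFunLike.congr_fun (h.ee_orth w v hw) x
    simpa using this

/-- functions vanishing outside `V`. -/
def JS (V : Set Ω) : Submodule ℂ C(Ω, ℂ) where
  carrier := {f | ∀ x, x ∉ V → f x = 0}
  add_mem' := fun hf hg x hx => by simp [hf x hx, hg x hx]
  zero_mem' := fun _ _ => rfl
  smul_mem' := fun c f hf x hx => by simp [hf x hx]

omit [CompactSpace Ω] in
theorem isClosed_JS (V : Set Ω) : IsClosed (JS V : Set C(Ω, ℂ)) := by
  have : (JS V : Set C(Ω, ℂ)) = ⋂ x ∈ Vᶜ, {f | f x = 0} := by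
    ext f; simp only [mem_iInter]; rfl
  rw [this]
  exact isClosed_biInter fun x _ => isClosed_eq (by fun_prop) continuous_const

omit [CompactSpace Ω] in
theorem JS_mul {V : Set Ω} (a : C(Ω, ℂ)) {f : C(Ω, ℂ)} (hf : f ∈ JS V) : a * f ∈ JS V :=
  fun x hx => by simp [hf x hx]

instance (V : Set Ω) : CompleteSpace (JS V) := (isClosed_JS V).completeSpace_coe

noncomputable def Jact (V : Set Ω) : C(Ω, ℂ) →L[ℂ] JS V →L[ℂ] JS V :=
  subAct (regM C(Ω, ℂ)) (JS V) fun a _ hf => JS_mul a hf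

@[simp] theorem Jact_val (V : Set Ω) (a : C(Ω, ℂ)) (f : JS V) :
    (Jact V a f : C(Ω, ℂ)) = a * f := rfl

@[reducible] noncomputable def JM (V : Set Ω) : BanMod C(Ω, ℂ) where
  carrier := JS V
  act := Jact V
  act_mul := fun a b x => Subtype.ext (mul_assoc a b x)

/-- the closed span of the products with functions vanishing outside `V`. -/
noncomputable def XS (X : BanMod C(Ω, ℂ)) (V : Set Ω) : Submodule ℂ X.carrier :=
  (Submodule.span ℂ {z | ∃ f ∈ JS V, ∃ x, z = X.act f x}).topologicalClosure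

theorem XS_mem (X : BanMod C(Ω, ℂ)) {V : Set Ω} {f : C(Ω, ℂ)} (hf : f ∈ JS V) (x : X.carrier) :
    X.act f x ∈ XS X V :=
  Submodule.le_topologicalClosure _ (Submodule.subset_span ⟨f, hf, x, rfl⟩)

theorem XS_le {X : BanMod C(Ω, ℂ)} {V : Set Ω} {S : Submodule ℂ X.carrier}
    (hc : IsClosed (S : Set X.carrier)) (h : ∀ f ∈ JS V, ∀ x, X.act f x ∈ S) : XS X V ≤ S :=
  Submodule.topologicalClosure_minimal _ (Submodule.span_le.mpr (by
    rintro _ ⟨f, hf, x, rfl⟩; exact h f hf x)) hc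

theorem isClosed_XS (X : BanMod C(Ω, ℂ)) (V : Set Ω) : IsClosed (XS X V : Set X.carrier) :=
  Submodule.isClosed_topologicalClosure _

instance (X : BanMod C(Ω, ℂ)) (V : Set Ω) : CompleteSpace (XS X V) :=
  (isClosed_XS X V).completeSpace_coe

theorem XS_act (X : BanMod C(Ω, ℂ)) (V : Set Ω) (a : C(Ω, ℂ)) (x : X.carrier) (hx : x ∈ XS X V) :
    X.act a x ∈ XS X V :=
  XS_le (S := (XS X V).comap (X.act a).toLinearMap)
    ((isClosed_XS X V).preimage (X.act a).continuous) (fun f hf x => by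
      change X.act a (X.act f x) ∈ XS X V
      rw [← X.act_mul]
      exact XS_mem X (JS_mul a hf) x) hx

@[reducible] noncomputable def XM (X : BanMod C(Ω, ℂ)) (V : Set Ω) : BanMod C(Ω, ℂ) :=
  subM X (XS X V) (isClosed_XS X V) (XS_act X V)

omit [CompactSpace Ω] in
theorem JS_mono {V V' : Set Ω} (h : V ⊆ V') : JS V ≤ JS V' := fun _ hf x hx =>
  hf x fun hx' => hx (h hx')

theorem XS_mono (X : BanMod C(Ω, ℂ)) {V V' : Set Ω} (h : V ⊆ V') : XS X V ≤ XS X V' :=
  XS_le (isClosed_XS X V') fun _ hf x => XS_mem X (JS_mono h hf) x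

theorem PP.tendsto_ee (h : PP U r) {f : C(Ω, ℂ)} (hf : f ∈ JS U) :
    Tendsto (fun S : Finset Ω => (∑ v ∈ S, ee U r v) * f) atTop (𝓝 f) := by
  classical
  rw [Metric.tendsto_atTop]
  intro ε hε
  have hK : IsCompact {x | ε / 2 ≤ ‖f x‖} := (isClosed_le continuous_const (by fun_prop)).isCompact
  obtain ⟨S0, hS0⟩ := hK.elim_finite_subcover (fun v => {y | y ∈ U ∧ r y = v}) (fun v => (h.2 v).2)
    fun x hx => mem_iUnion.mpr ⟨r x, by
      by_contra hxU
      have := hf x (by simpa using hxU)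
      simp only [mem_ofPred_eq, this, norm_zero] at hx
      linarith⟩
  refine ⟨S0, fun S hS => ?_⟩
  rw [dist_eq_norm]
  refine ((ContinuousMap.norm_le _ (half_pos hε).le).mpr fun x => ?_).trans_lt (half_lt_self hε)
  simp only [ContinuousMap.sub_apply, ContinuousMap.mul_apply, ContinuousMap.coe_sum,
    Finset.sum_apply, h.ee_apply]
  by_cases hx : x ∈ U ∧ r x ∈ S
  · rw [Finset.sum_eq_single_of_mem (r x) hx.2 fun v _ hv => if_neg fun e => hv e.2.symm]
    simp [hx.1, (half_pos hε).le]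
  · rw [Finset.sum_eq_zero fun v hv => if_neg fun e : x ∈ U ∧ r x = v => hx ⟨e.1, e.2 ▸ hv⟩]
    rw [zero_mul, zero_sub, norm_neg]
    by_contra hlt
    obtain ⟨v, hv, h1, h2⟩ := mem_iUnion₂.mp (hS0 (not_le.mp hlt).le)
    exact hx ⟨h1, h2 ▸ hS hv⟩

theorem PP.ess_J (h : PP U r) {V : Set Ω} (hV : V ⊆ U) : Ess (ee U r) (JM V) := fun z =>
  tendsto_subtype_rng.mpr (h.tendsto_ee (JS_mono hV z.2))

theorem PP.ess_X (h : PP U r) (X : BanMod C(Ω, ℂ)) {V : Set Ω} (hV : V ⊆ U) :
    Ess (ee U r) (XM X V) := by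
  classical
  let S : Submodule ℂ X.carrier :=
    { carrier := {z | Tendsto (fun S : Finset Ω => X.act (∑ v ∈ S, ee U r v) z) atTop (𝓝 z)}
      add_mem' := fun ha hb => by simpa only [mem_ofPred_eq, map_add] using ha.add hb
      zero_mem' := by simp
      smul_mem' := fun c z hz => by simpa only [mem_ofPred_eq, map_smul] using hz.const_smul c }
  have hc : IsClosed (S : Set X.carrier) := by
    refine isClosed_of_closure_subset fun z hz => ?_
    change Tendsto (fun S : Finset Ω => X.act (∑ v ∈ S, ee U r v) z) atTop (𝓝 z)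
    refine Metric.tendsto_atTop.mpr fun ε hε => ?_
    have hp : 0 < ‖X.act‖ + 1 := by positivity
    obtain ⟨z', hz', hd⟩ := Metric.mem_closure_iff.mp hz (ε / 2 / (‖X.act‖ + 1)) (by positivity)
    have hz'' : Tendsto (fun S : Finset Ω => X.act (∑ v ∈ S, ee U r v) z') atTop (𝓝 z') := hz'
    obtain ⟨S0, hS0⟩ := Metric.tendsto_atTop.mp hz'' (ε / 2) (half_pos hε)
    refine ⟨S0, fun S hS => ?_⟩
    have h1 := hS0 S hS
    have h2 := h.signBdd.act X (z - z') S (fun _ => 1) (by simp)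
    rw [dist_eq_norm] at h1 hd ⊢
    have e : X.act (∑ v ∈ S, ee U r v) z - z = (X.act (∑ v ∈ S, ee U r v) z' - z') +
        ∑ c ∈ S, (1 : ℂ) • X.act (ee U r c) (z - z') - (z - z') := by
      simp only [one_smul, map_sum, sum_apply, map_sub, Finset.sum_sub_distrib]; abel
    rw [e]
    refine ((norm_sub_le _ _).trans (add_le_add (norm_add_le _ _) le_rfl)).trans_lt ?_
    have h3 : (‖X.act‖ + 1) * ‖z - z'‖ ≤ ε / 2 := by
      rw [← le_div_iff₀' hp]; exact hd.le
    linarith
  intro z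
  refine tendsto_subtype_rng.mpr (XS_le hc (fun f hf x => ?_) z.2)
  have := ((X.act.flip x).continuous.tendsto f).comp (h.tendsto_ee (JS_mono hV hf))
  refine this.congr fun S => ?_
  simp [X.act_mul]

omit [CompactSpace Ω] in
theorem ee_mem (v : Ω) : ee U r v ∈ JS U := fun _ hx => ind_of_notMem fun h => hx h.1

theorem PP.signBdd' (h : PP U r) : SignBdd fun v => (⟨ee U r v, ee_mem v⟩ : JS U) := fun S ε hε => by
  have := h.signBdd S ε hε
  rw [← Submodule.norm_coe]
  simpa using this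

theorem DU.projective (hU : DU U) : IsProjective (JM U) := by
  obtain ⟨r, h⟩ := hU
  rintro Y X σ hσ ⟨τ, hτ⟩ φ hφ
  obtain ⟨T, hT⟩ := (h.ess_J Subset.rfl).exists_sum
    (fun v => (Y.act.flip (τ (φ ⟨ee U r v, ee_mem v⟩))).comp
      ((JS U).subtypeL.comp ((JM U).act (ee U r v))))
    (‖Y.act‖ * ‖(regM C(Ω, ℂ)).act‖ * ‖τ.comp φ‖) (fun S z => by
      simp only [ContinuousLinearMap.comp_apply, ContinuousLinearMap.flip_apply]
      refine (norm_sum_bilin Y.act S (fun v => (regM C(Ω, ℂ)).act (ee U r v) z)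
        (fun v => τ (φ ⟨ee U r v, ee_mem v⟩)) (h.signBdd.act (regM C(Ω, ℂ)) z S)
        (b := ‖τ.comp φ‖) fun ε hε => ?_).trans (le_of_eq ?_)
      · have : ∑ c ∈ S, ε c • τ (φ ⟨ee U r c, ee_mem c⟩) =
            (τ.comp φ) (∑ c ∈ S, ε c • ⟨ee U r c, ee_mem c⟩) := by
          simp only [map_sum, map_smul, ContinuousLinearMap.comp_apply]
        rw [this]
        exact ((τ.comp φ).le_opNorm _).trans
          (mul_le_of_le_one_right (norm_nonneg _) (h.signBdd' S ε hε))
      · rw [Submodule.coe_norm]; ring)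
    (fun v w z hw => by simp [← mul_assoc, h.ee_orth v w hw])
  have hT' : ∀ v z, T ((JM U).act (ee U r v) z) =
      Y.act (ee U r v * z) (τ (φ ⟨ee U r v, ee_mem v⟩)) := fun v z => by
    rw [hT]; simp [← mul_assoc, h.ee_idem]
  refine ⟨T, fun a z => ?_, fun z => ?_⟩
  · refine DFunLike.congr_fun ((h.ess_J Subset.rfl).ext (φ := T.comp ((JM U).act a))
      (ψ := (Y.act a).comp T) fun v z => ?_) z
    simp only [ContinuousLinearMap.comp_apply]
    rw [← (JM U).act_mul, mul_comm a, (JM U).act_mul, hT', hT', ← Y.act_mul]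
    simp [mul_left_comm]
  · refine DFunLike.congr_fun ((h.ess_J Subset.rfl).ext (φ := σ.comp T) (ψ := φ) fun v z => ?_) z
    simp only [ContinuousLinearMap.comp_apply]
    rw [hT', hσ, hτ, ← hφ]
    congr 1
    refine Subtype.ext ?_
    simp only [Jact_val]
    rw [mul_right_comm, h.ee_idem]

theorem PP.exists_kappa (h : PP U r) : ∃ κ : JS U →L[ℂ] JS {x | x ∈ U ∧ r x ≠ x}, ∀ v (f : JS U),
    (κ ((JM U).act (ee U r v) f) : C(Ω, ℂ)) = ee U r v * f - f.1 v • ee U r v := by
  have hm : ∀ v (f : JS U), ee U r v * f - f.1 v • ee U r v ∈ JS {x | x ∈ U ∧ r x ≠ x} := by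
    intro v f x hx
    simp only [ContinuousMap.sub_apply, ContinuousMap.mul_apply, ContinuousMap.smul_apply,
      h.ee_apply, smul_eq_mul]
    split_ifs with h1
    · have : r x = x := by simpa [h1.1] using hx
      rw [← h1.2, this]; ring
    · simp
  let L : Ω → JS U →L[ℂ] JS {x | x ∈ U ∧ r x ≠ x} := fun v =>
    ((ContinuousLinearMap.mul ℂ C(Ω, ℂ) (ee U r v) -
      (ContinuousMap.evalCLM ℂ v).smulRight (ee U r v)).comp (JS U).subtypeL).codRestrict _ (hm v)
  have hL : ∀ v f, (L v f : C(Ω, ℂ)) = ee U r v * f - f.1 v • ee U r v := fun _ _ => rfl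
  obtain ⟨T, hT⟩ := (h.ess_J Subset.rfl).exists_sum L 2 (fun S z => by
      rw [← Submodule.norm_coe, Submodule.coe_sum]
      simp only [hL, Finset.sum_sub_distrib, ← Finset.sum_mul]
      have h1 : ‖(∑ v ∈ S, ee U r v) * z.1‖ ≤ ‖z‖ := by
        refine (norm_mul_le _ _).trans (mul_le_of_le_one_left (norm_nonneg _) ?_)
        simpa using h.signBdd S (fun _ => 1) (by simp)
      have h2 : ‖∑ v ∈ S, z.1 v • ee U r v‖ ≤ ‖z‖ := by
        rcases eq_or_ne z 0 with rfl | hz
        · simp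
        have hp : 0 < ‖z‖ := norm_pos_iff.mpr hz
        have h3 := h.signBdd S (fun v => z.1 v / ‖z‖) fun v => by
          rw [norm_div, Complex.norm_real, norm_norm, div_le_one hp]
          exact z.1.norm_coe_le_norm v
        have h4 : ∑ v ∈ S, z.1 v • ee U r v = (‖z‖ : ℂ) • ∑ v ∈ S, (z.1 v / ‖z‖) • ee U r v := by
          rw [Finset.smul_sum]
          refine Finset.sum_congr rfl fun v _ => ?_
          have : (‖z‖ : ℂ) ≠ 0 := by exact_mod_cast hp.ne'
          rw [smul_smul, mul_div_cancel₀ _ this]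
        rw [h4, norm_smul, Complex.norm_real, norm_norm]
        exact mul_le_of_le_one_right hp.le h3
      exact (norm_sub_le _ _).trans (by linarith))
    (fun v w z hw => Subtype.ext (by
      rw [hL]
      change ee U r w * (ee U r v * z) - (ee U r v w * z.1 w) • ee U r w = 0
      rw [← mul_assoc, h.ee_orth v w hw, mul_comm (ee U r v w), mul_smul, h.ee_smul,
        h.ee_orth w v hw.symm]
      simp))
  refine ⟨T, fun v f => ?_⟩
  rw [hT, hL]
  change ee U r v * (ee U r v * f) - (ee U r v v * f.1 v) • ee U r v = _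
  rw [← mul_assoc, h.ee_idem, mul_comm (ee U r v v), mul_smul, h.ee_smul, h.ee_idem]

theorem exists_mul (X : BanMod C(Ω, ℂ)) (V W W' : Set Ω)
    (hS : ∀ f ∈ JS V, ∀ x ∈ XS X W, X.act f x ∈ XS X W') :
    ∃ m : PT (JS V) (XS X W) →L[ℂ] XS X W', ∀ f z, (m (tm _ _ f z) : X.carrier) = X.act f z := by
  refine ⟨PT.lift (LinearMap.mkContinuous₂ (LinearMap.mk₂ ℂ
    (fun (f : JS V) (z : XS X W) => (⟨X.act f z, hS f f.2 z z.2⟩ : XS X W'))
    (fun _ _ _ => Subtype.ext (by simp)) (fun _ _ _ => Subtype.ext (by simp))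
    (fun _ _ _ => Subtype.ext (by simp)) (fun _ _ _ => Subtype.ext (by simp))) ‖X.act‖
    fun f z => X.norm_act_le f z), fun f z => ?_⟩
  rw [PT.lift_tm]; rfl

end Pool.Agent.MP_75da70_an.H7
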